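import Pool.Agent.TH271.CV.Def

set_option autoImplicit false

/-! Class 3 theorem for quadruples with cubes `1` (helper574). -/

namespace Pool.Agent.TH271.CV
open Pool.Agent.TH271.CU

namespace A

section
variable {G : Type} [Group G]

lemma comm_cm {s a b : G} (ha : Commute s a) (hb : Commute s b) : Commute s (cm a b) :=
  ((ha.mul_right hb).mul_right ha.inv_right).mul_right hb.inv_right

lemma cube_swap {a b : G} (h : (a * b) * (a * b) * (a * b) = 1) :
    (b * a) * (b * a) * (b * a) = 1 := by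
  have e : (b * a) * (b * a) * (b * a) = a⁻¹ * ((a * b) * (a * b) * (a * b)) * a := by group
  rw [e, h]; group

lemma cube_inv {a : G} (h : a * a * a = 1) : a⁻¹ * a⁻¹ * a⁻¹ = 1 := by
  have e : a⁻¹ * a⁻¹ * a⁻¹ = (a * a * a)⁻¹ := by group
  rw [e, h, inv_one]

lemma conj_eq {x y : G} (h : Commute x y) : x * y * x⁻¹ = y := by
  rw [h.eq, mul_inv_cancel_right]

theorem t_comm_aux {Q : G → G → G → Prop} (H : B3 Q) {a b c : G} (h : Q a b c) :
    Commute (cm a (cm b c)) a ∧ Commute (cm a (cm b c)) b ∧ Commute (cm a (cm b c)) c := by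
  have hbac : Q b a c := H.s01 _ _ _ h
  exact ⟨H.f4 hbac, H.f3 hbac, H.f3' hbac⟩

end

end A

open A

section
variable {G : Type} [Group G]

theorem B3.t_comm {Q : G → G → G → Prop} (H : B3 Q) {a b c : G} (h : Q a b c) :
    Commute (cm a (cm b c)) a ∧ Commute (cm a (cm b c)) b ∧ Commute (cm a (cm b c)) c :=
  t_comm_aux H h

theorem B3.alt23 {Q : G → G → G → Prop} (H : B3 Q) {a b c : G} (h : Q a b c) :
    cm a (cm c b) = (cm a (cm b c))⁻¹ := by
  obtain ⟨ha, hb, hc⟩ := t_comm_aux H h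
  have hw := comm_cm hb hc
  rw [← cm_inv b c]
  set w := cm b c with hwd
  set t := cm a w with htd
  have e : cm a w⁻¹ = (t * w)⁻¹ * w := by rw [htd]; unfold cm; group
  rw [e, mul_inv_rev, mul_assoc, (hw.inv_left).eq, ← mul_assoc, inv_mul_cancel, one_mul]

theorem B3.alt12 {Q : G → G → G → Prop} (H : B3 Q) {a b c : G} (h : Q a b c) :
    cm b (cm a c) = (cm a (cm b c))⁻¹ := by
  obtain ⟨sa, sb, sc⟩ := t_comm_aux H h
  obtain ⟨rb, ra, rc⟩ := t_comm_aux H (H.s01 _ _ _ h)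
  have wb : Commute (cm b c) b := H.f1 (H.s12 _ _ _ (H.s01 _ _ _ h))
  have va : Commute (cm a c) a := H.f1 (H.s12 _ _ _ h)
  have h1 : Commute (cm (a * b) c) (a * b) := H.f1 (H.s12 _ _ _ (H.mul _ _ _ h))
  have rw' := comm_cm rb rc
  set w := cm b c with hw
  set v := cm a c with hv
  set s := cm a w with hs
  set r := cm b v with hr
  have e1 : cm (a * b) c = s * w * v := by rw [hs, hw, hv]; unfold cm; group
  rw [e1] at h1
  have h2 : Commute (w * v) (a * b) := by
    have h3 : w * v = s⁻¹ * (s * w * v) := by group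
    rw [h3]
    exact ((sa.mul_right sb).inv_left).mul_left h1
  have e2 : (a * b) * (w * v) = s * r * (w * v * (a * b)) := by
    have k1 : b * w = w * b := wb.symm.eq
    have k2 : b * v = r * v * b := by rw [hr]; unfold cm; group
    have k3 : a * w = s * w * a := by rw [hs]; unfold cm; group
    have k4 : a * r = r * a := ra.symm.eq
    have k5 : a * v = v * a := va.symm.eq
    have k6 : w * r = r * w := rw'.symm.eq
    calc (a * b) * (w * v) = a * (b * w) * v := by group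
      _ = a * w * (b * v) := by rw [k1]; group
      _ = (s * w * a) * (r * v * b) := by rw [k2, k3]
      _ = s * w * (a * r) * v * b := by group
      _ = s * (w * r) * (a * v) * b := by rw [k4]; group
      _ = _ := by rw [k6, k5]; group
  rw [h2.symm.eq] at e2
  have e3 : s * r = 1 := by
    have := mul_right_cancel (b := w * v * (a * b)) (a := (1 : G)) (c := s * r) (by rw [one_mul]; exact e2)
    exact this.symm
  exact (inv_eq_of_mul_eq_one_right e3).symm

theorem B3.t_cube {Q : G → G → G → Prop} (H : B3 Q) {a b c : G} (h : Q a b c) :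
    cm a (cm b c) * cm a (cm b c) * cm a (cm b c) = 1 :=
  cm_cube (t_comm_aux H h).1 (H.cube _ _ _ h)

theorem A.cyc {Q : G → G → G → Prop} (H : B3 Q) {a b c : G} (h : Q a b c) :
    cm b (cm c a) = cm a (cm b c) := by
  rw [B3.alt23 H (H.s01 _ _ _ h), B3.alt12 H h, inv_inv]

theorem B4.toB3 {Q : G → G → G → G → Prop} (H : B4 Q) : B3 (fun a b c => ∃ d, Q a b c d) where
  cube := fun _ _ _ ⟨_, h⟩ => H.cube _ _ _ _ h
  s01 := fun _ _ _ ⟨d, h⟩ => ⟨d, H.s01 _ _ _ _ h⟩
  s12 := fun _ _ _ ⟨d, h⟩ => ⟨d, H.s12 _ _ _ _ h⟩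
  inv := fun _ _ _ ⟨d, h⟩ => ⟨d, H.inv _ _ _ _ h⟩
  mul := fun _ _ _ ⟨d, h⟩ => ⟨d, H.mul _ _ _ _ h⟩

end

namespace A

section
variable {G : Type} [Group G] {Q : G → G → G → G → Prop}

lemma mulcl (H : B4 Q) {y z w : G} {g : G} (hg : g ∈ Subgroup.closure ({y, z, w} : Set G)) :
    ∀ x, Q x y z w → Q (x * g) y z w ∧ Q (x * g⁻¹) y z w := by
  have h2 : ∀ x, Q x y z w → Q (x * y) y z w ∧ Q (x * y⁻¹) y z w := by
    intro x h
    refine ⟨H.mul _ _ _ _ h, ?_⟩
    have h3 := H.mul _ _ _ _ (H.s01 _ _ _ _ (H.inv _ _ _ _ (H.s01 _ _ _ _ h)))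
    have h4 := H.s01 _ _ _ _ (H.inv _ _ _ _ (H.s01 _ _ _ _ h3))
    rwa [inv_inv] at h4
  have h2' : ∀ {y z w : G} (x : G), Q x y z w → Q (x * y) y z w ∧ Q (x * y⁻¹) y z w := by
    intro y z w x h
    refine ⟨H.mul _ _ _ _ h, ?_⟩
    have h3 := H.mul _ _ _ _ (H.s01 _ _ _ _ (H.inv _ _ _ _ (H.s01 _ _ _ _ h)))
    have h4 := H.s01 _ _ _ _ (H.inv _ _ _ _ (H.s01 _ _ _ _ h3))
    rwa [inv_inv] at h4
  induction hg using Subgroup.closure_induction with
  | mem g hg =>
    rcases hg with rfl | rfl | rfl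
    · exact h2
    · intro x h
      obtain ⟨h5, h6⟩ := h2' x (H.s12 _ _ _ _ h)
      exact ⟨H.s12 _ _ _ _ h5, H.s12 _ _ _ _ h6⟩
    · intro x h
      obtain ⟨h5, h6⟩ := h2' x (H.s12 _ _ _ _ (H.s23 _ _ _ _ h))
      exact ⟨H.s23 _ _ _ _ (H.s12 _ _ _ _ h5), H.s23 _ _ _ _ (H.s12 _ _ _ _ h6)⟩
  | one => intro x h; simpa using h
  | mul g g' _ _ ih ih' =>
    intro x h
    refine ⟨?_, ?_⟩
    · rw [← mul_assoc]; exact (ih' _ (ih x h).1).1
    · rw [mul_inv_rev, ← mul_assoc]; exact (ih _ (ih' x h).2).2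
  | inv g _ ih =>
    intro x h
    refine ⟨(ih x h).2, ?_⟩
    rw [inv_inv]; exact (ih x h).1

lemma cm_mem {S : Subgroup G} {a b : G} (ha : a ∈ S) (hb : b ∈ S) : cm a b ∈ S :=
  mul_mem (mul_mem (mul_mem ha hb) (inv_mem ha)) (inv_mem hb)

lemma L2 (H : B4 Q) {x y z w : G} (h : Q x y z w) :
    Commute (cm x (cm y (cm z w))) x ∧ Commute (cm x (cm y (cm z w))) (cm y (cm z w)) := by
  have hX : cm y (cm z w) ∈ Subgroup.closure ({y, z, w} : Set G) :=
    cm_mem (Subgroup.subset_closure (by simp)) (cm_mem (Subgroup.subset_closure (by simp))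
      (Subgroup.subset_closure (by simp)))
  obtain ⟨h1, h2⟩ := mulcl H hX x h
  have h3 := B3.t_cube H.toB3 (a := y) (b := z) (c := w)
    ⟨x, H.s23 _ _ _ _ (H.s12 _ _ _ _ (H.s01 _ _ _ _ h))⟩
  have h4 := H.cube _ _ _ _ h1
  have h5 := H.cube _ _ _ _ h2
  set X := cm y (cm z w) with hXd
  refine ⟨engel_comm h4 h5 h3, ?_⟩
  have h6 : Commute (cm X x) X := engel_comm (cube_swap h4) (by
    have := cube_inv h5
    rwa [mul_inv_rev, inv_inv] at this) (H.cube _ _ _ _ h)
  have := h6.inv_left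
  rwa [cm_inv] at this

lemma L3 (H : B4 Q) {x y z w : G} (h : Q x y z w) : Commute (cm x (cm y (cm z w))) y := by
  have hu : cm z w ∈ Subgroup.closure ({y, z, w} : Set G) :=
    cm_mem (Subgroup.subset_closure (by simp)) (Subgroup.subset_closure (by simp))
  have h1 : Commute (cm y (x * cm z w)) y :=
    H.toB3.f1 (c := z) ⟨w, H.s01 _ _ _ _ (mulcl H hu x h).1⟩
  have h2 : Commute (cm y x) y := H.toB3.f1 (c := z) ⟨w, H.s01 _ _ _ _ h⟩
  have h3 := (B3.t_comm H.toB3 (a := y) (b := z) (c := w)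
    ⟨x, H.s23 _ _ _ _ (H.s12 _ _ _ _ (H.s01 _ _ _ _ h))⟩).1
  set u := cm z w with hud
  set X := cm y u with hXd
  have e : cm x X = (cm y x)⁻¹ * cm y (x * u) * X⁻¹ := by rw [hXd]; unfold cm; group
  rw [e]
  exact (h2.inv_left.mul_left h1).mul_left h3.inv_left

lemma cyc1 (H : B4 Q) {x y z w : G} (h : Q x y z w) : cm z (cm w y) = cm y (cm z w) :=
  cyc H.toB3 (a := y) (b := z) (c := w) ⟨x, H.s23 _ _ _ _ (H.s12 _ _ _ _ (H.s01 _ _ _ _ h))⟩

lemma rot3 (H : B4 Q) {x y z w : G} (h : Q x y z w) : Q x z w y :=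
  H.s23 _ _ _ _ (H.s12 _ _ _ _ h)

/-- the quadruple commutator is central -/
lemma L4 (H : B4 Q) {x y z w : G} (h : Q x y z w) :
    Commute (cm x (cm y (cm z w))) x ∧ Commute (cm x (cm y (cm z w))) y ∧
      Commute (cm x (cm y (cm z w))) z ∧ Commute (cm x (cm y (cm z w))) w := by
  refine ⟨(L2 H h).1, L3 H h, ?_, ?_⟩
  · have := L3 H (rot3 H h)
    rwa [cyc1 H h] at this
  · have := L3 H (rot3 H (rot3 H h))
    rwa [cyc1 H (rot3 H h), cyc1 H h] at this

lemma p1 (H : B4 Q) {x y z w : G} (h : Q x y z w) : Q y z w x :=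
  H.s23 _ _ _ _ (H.s12 _ _ _ _ (H.s01 _ _ _ _ h))

lemma conj_mul3 (g a b c : G) : g * (a * b * c) * g⁻¹ = (g * a * g⁻¹) * (g * b * g⁻¹) * (g * c * g⁻¹) := by
  group

/-- antisymmetry in the first two places -/
lemma L5 (H : B4 Q) {x y z w : G} (h : Q x y z w) :
    cm x (cm y (cm z w)) * cm y (cm x (cm z w)) = 1 := by
  have h' : Q y x z w := H.s01 _ _ _ _ h
  obtain ⟨sx, sy, sz, sw⟩ := L4 H h
  obtain ⟨ry, rx, rz, rw'⟩ := L4 H h'
  have Yy := (B3.t_comm H.toB3 (a := y) (b := z) (c := w) ⟨x, p1 H h⟩).1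
  have Xx := (B3.t_comm H.toB3 (a := x) (b := z) (c := w) ⟨y, p1 H h'⟩).1
  have rY := comm_cm ry (comm_cm rz rw')
  -- the product
  have hxy : Q (x * y) z w y := p1 H (p1 H (p1 H (p1 H (H.s23 _ _ _ _ (H.s12 _ _ _ _ (H.mul _ _ _ _ h))))))
  have h1 := (B3.t_comm H.toB3 (a := x * y) (b := z) (c := w) ⟨y, hxy⟩).1
  set u := cm z w with hu
  set X := cm x u with hX
  set Y := cm y u with hY
  set s := cm x Y with hs
  set s' := cm y X with hs'
  have e1 : cm (x * y) u = s * Y * X := by rw [hs, hX, hY]; unfold cm; group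
  rw [e1] at h1
  have k1 : x * Y * x⁻¹ = s * Y := by rw [hs]; unfold cm; group
  have k2 : y * X * y⁻¹ = s' * X := by rw [hs']; unfold cm; group
  have k3 : x * X * x⁻¹ = X := conj_eq Xx.symm
  have k4 : y * Y * y⁻¹ = Y := conj_eq Yy.symm
  have k5 : x * s * x⁻¹ = s := conj_eq sx.symm
  have k6 : y * s * y⁻¹ = s := conj_eq sy.symm
  have k7 : x * s' * x⁻¹ = s' := conj_eq rx.symm
  have e2 : (x * y) * (s * Y * X) * (x * y)⁻¹ = s * (s * Y) * (s' * X) := by
    calc (x * y) * (s * Y * X) * (x * y)⁻¹ = x * (y * (s * Y * X) * y⁻¹) * x⁻¹ := by group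
      _ = x * (s * Y * (s' * X)) * x⁻¹ := by rw [conj_mul3 y s Y X, k6, k4, k2]
      _ = (x * s * x⁻¹) * (x * Y * x⁻¹) * ((x * s' * x⁻¹) * (x * X * x⁻¹)) := by group
      _ = _ := by rw [k5, k1, k7, k3]
  rw [conj_eq h1.symm] at e2
  have e3 : s * s' = 1 := by
    have e4 : s * (s * Y) * (s' * X) = s * (s * s') * (Y * X) := by
      calc s * (s * Y) * (s' * X) = s * s * (Y * s') * X := by group
        _ = s * s * (s' * Y) * X := by rw [rY.symm.eq]
        _ = _ := by group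
    rw [e4] at e2
    have e5 : s * (Y * X) = s * (s * s') * (Y * X) := by rw [← e2]; group
    have e6 := mul_right_cancel e5
    have e7 : s * 1 = s * (s * s') := by rw [mul_one]; exact e6
    exact (mul_left_cancel e7).symm
  exact e3

/-- the commutator of two commutators -/
lemma L6 (H : B4 Q) {x y z w : G} (h : Q x y z w) :
    cm (cm x y) (cm z w) = cm x (cm y (cm z w)) * cm x (cm y (cm z w)) := by
  have h' : Q y x z w := H.s01 _ _ _ _ h
  have h5 := L5 H h
  obtain ⟨sx, sy, sz, sw⟩ := L4 H h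
  obtain ⟨ry, rx, rz, rw'⟩ := L4 H h'
  have Yy := (B3.t_comm H.toB3 (a := y) (b := z) (c := w) ⟨x, p1 H h⟩).1
  obtain ⟨Xx, Xz, Xw⟩ := B3.t_comm H.toB3 (a := x) (b := z) (c := w) ⟨y, p1 H h'⟩
  have rY := comm_cm ry (comm_cm rz rw')
  have rX := comm_cm rx (comm_cm rz rw')
  have sY := comm_cm sy (comm_cm sz sw)
  have sX := comm_cm sx (comm_cm sz sw)
  have su := comm_cm sz sw
  have ru := comm_cm rz rw'
  have Xu := comm_cm Xz Xw
  have rt := comm_cm rx ry
  have st := comm_cm sx sy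
  set u := cm z w with hu
  set X := cm x u with hX
  set Y := cm y u with hY
  set s := cm x Y with hs
  set s' := cm y X with hs'
  set t := cm x y with ht
  have k1 : x * Y * x⁻¹ = s * Y := by rw [hs]; unfold cm; group
  have k2 : y * X * y⁻¹ = s' * X := by rw [hs']; unfold cm; group
  have k3 : x * X * x⁻¹ = X := conj_eq Xx.symm
  have k4 : y * Y * y⁻¹ = Y := conj_eq Yy.symm
  have k5 : x * s * x⁻¹ = s := conj_eq sx.symm
  have k7 : x * s' * x⁻¹ = s' := conj_eq rx.symm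
  have k6 : y * s * y⁻¹ = s := conj_eq sy.symm
  have k8 : x * u * x⁻¹ = X * u := by rw [hX]; unfold cm; group
  have k9 : y * u * y⁻¹ = Y * u := by rw [hY]; unfold cm; group
  have kt : ∀ g : G, t * ((y * x) * g * (y * x)⁻¹) * t⁻¹ = (x * y) * g * (x * y)⁻¹ := by
    intro g; rw [ht]; unfold cm; group
  -- `X` and `Y` commute
  have XY : Commute X Y := by
    have e : X * Y * X⁻¹ = Y := by
      have e1 : X * y * X⁻¹ = s'⁻¹ * y := by
        have e2 : y * X = s' * X * y := by rw [← k2]; group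
        calc X * y * X⁻¹ = s'⁻¹ * (s' * X * y) * X⁻¹ := by group
          _ = s'⁻¹ * y := by rw [← e2]; group
      calc X * Y * X⁻¹ = (X * y * X⁻¹) * (X * u * X⁻¹) * (X * y * X⁻¹)⁻¹ * (X * u * X⁻¹)⁻¹ := by
            rw [hY]; unfold cm; group
        _ = (s'⁻¹ * y) * u * (s'⁻¹ * y)⁻¹ * u⁻¹ := by rw [e1, conj_eq Xu]
        _ = s'⁻¹ * ((y * u * y⁻¹) * s') * u⁻¹ := by group
        _ = s'⁻¹ * (s' * (Y * u)) * u⁻¹ := by rw [k9, (rY.mul_right ru).symm.eq]
        _ = Y := by group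
    show X * Y = Y * X
    calc X * Y = (X * Y * X⁻¹) * X := by group
      _ = Y * X := by rw [e]
  -- `t` commutes with `X` and `Y`
  have tX : Commute t X := by
    have e1 : (y * x) * X * (y * x)⁻¹ = s' * X := by
      calc (y * x) * X * (y * x)⁻¹ = y * (x * X * x⁻¹) * y⁻¹ := by group
        _ = _ := by rw [k3, k2]
    have e2 : (x * y) * X * (x * y)⁻¹ = s' * X := by
      calc (x * y) * X * (x * y)⁻¹ = x * (y * X * y⁻¹) * x⁻¹ := by group
        _ = (x * s' * x⁻¹) * (x * X * x⁻¹) := by rw [k2]; group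
        _ = _ := by rw [k7, k3]
    have e3 := kt X
    rw [e1, e2] at e3
    have e4 : Commute t (s' * X) := by
      show t * (s' * X) = s' * X * t
      calc t * (s' * X) = (t * (s' * X) * t⁻¹) * t := by group
        _ = _ := by rw [e3]
    have e5 : X = s'⁻¹ * (s' * X) := by group
    rw [e5]
    exact (rt.inv_left.symm).mul_right e4
  have tY : Commute t Y := by
    have e1 : (y * x) * Y * (y * x)⁻¹ = s * Y := by
      calc (y * x) * Y * (y * x)⁻¹ = y * (x * Y * x⁻¹) * y⁻¹ := by group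
        _ = (y * s * y⁻¹) * (y * Y * y⁻¹) := by rw [k1]; group
        _ = _ := by rw [k6, k4]
    have e2 : (x * y) * Y * (x * y)⁻¹ = s * Y := by
      calc (x * y) * Y * (x * y)⁻¹ = x * (y * Y * y⁻¹) * x⁻¹ := by group
        _ = _ := by rw [k4, k1]
    have e3 := kt Y
    rw [e1, e2] at e3
    have e4 : Commute t (s * Y) := by
      show t * (s * Y) = s * Y * t
      calc t * (s * Y) = (t * (s * Y) * t⁻¹) * t := by group
        _ = _ := by rw [e3]
    have e5 : Y = s⁻¹ * (s * Y) := by group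
    rw [e5]
    exact (st.inv_left.symm).mul_right e4
  -- the two conjugates of `u`
  have e1 : (y * x) * u * (y * x)⁻¹ = s' * X * (Y * u) := by
    calc (y * x) * u * (y * x)⁻¹ = y * (x * u * x⁻¹) * y⁻¹ := by group
      _ = (y * X * y⁻¹) * (y * u * y⁻¹) := by rw [k8]; group
      _ = _ := by rw [k2, k9]
  have e2 : (x * y) * u * (x * y)⁻¹ = s * Y * (X * u) := by
    calc (x * y) * u * (x * y)⁻¹ = x * (y * u * y⁻¹) * x⁻¹ := by group
      _ = (x * Y * x⁻¹) * (x * u * x⁻¹) := by rw [k9]; group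
      _ = _ := by rw [k1, k8]
  have e3 := kt u
  rw [e1, e2] at e3
  -- e3 : t * (s' * X * (Y * u)) * t⁻¹ = s * Y * (X * u)
  have e4 : t * (s' * X * (Y * u)) * t⁻¹ = s' * X * Y * (cm t u * u) := by
    calc t * (s' * X * (Y * u)) * t⁻¹
        = (t * s' * t⁻¹) * (t * X * t⁻¹) * (t * Y * t⁻¹) * (cm t u * u) := by unfold cm; group
      _ = _ := by rw [conj_eq rt.symm, conj_eq tX, conj_eq tY]
  rw [e4] at e3
  have hs'' : s' = s⁻¹ := eq_inv_of_mul_eq_one_right h5
  have e5 : s' * X * Y * (cm t u * u) = s' * X * Y * (s * s * u) := by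
    rw [e3, hs'']
    have sXY : Commute s (X * Y) := sX.mul_right sY
    calc s * Y * (X * u) = s * (Y * X) * u := by group
      _ = s * (X * Y) * u := by rw [XY.eq]
      _ = s⁻¹ * (s * (s * (X * Y))) * u := by group
      _ = s⁻¹ * (s * ((X * Y) * s)) * u := by rw [sXY.eq]
      _ = s⁻¹ * ((s * (X * Y)) * s) * u := by group
      _ = s⁻¹ * (((X * Y) * s) * s) * u := by rw [sXY.eq]
      _ = s⁻¹ * X * Y * (s * s * u) := by group
  exact mul_right_cancel (mul_left_cancel e5)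

lemma L7 (H : B4 Q) {x y z w : G} (h : Q x y z w) :
    cm x (cm y (cm z w)) = cm z (cm w (cm x y)) := by
  -- x y z w -> (y x z w)⁻¹ = (y z w x)⁻¹ -> z y w x = z w x y
  have h1 := L5 H h
  have h2 : cm y (cm x (cm z w)) = cm y (cm z (cm w x)) := by
    rw [cyc1 H (H.s01 _ _ _ _ h)]
  have h3 := L5 H (p1 H h)
  have h4 : cm z (cm y (cm w x)) = cm z (cm w (cm x y)) := by
    rw [cyc1 H (x := z) (y := y) (z := w) (w := x) (H.s01 _ _ _ _ (p1 H h))]
  rw [h2] at h1
  rw [← h4, eq_inv_of_mul_eq_one_left h1, eq_inv_of_mul_eq_one_right h3]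

end

end A

section
variable {G : Type} [Group G]

theorem B4.cen {Q : G → G → G → G → Prop} (H : B4 Q) {a b c d : G} (h : Q a b c d) :
    Commute (cm a (cm b c)) d := by
  have hd : Q d a b c := p1 H (p1 H (p1 H h))
  have h6 := L6 H hd
  have h6' := L6 H (p1 H (p1 H hd))
  have h7 := L7 H hd
  have h3 := cm_cube (L2 H hd).1 (H.cube _ _ _ _ hd)
  rw [← h7] at h6'
  rw [← cm_inv, h6] at h6'
  set s := cm d (cm a (cm b c)) with hs
  -- s² = s⁻², s³ = 1
  have h8 : s = 1 := by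
    have e1 : s * s * (s * s) = 1 := by
      calc s * s * (s * s) = (s * s) * (s * s)⁻¹ := by rw [h6']
        _ = 1 := mul_inv_cancel _
    calc s = (s * s * s)⁻¹ * (s * s * (s * s)) := by group
      _ = 1 := by rw [e1, h3, inv_one, one_mul]
  have h9 : d * cm a (cm b c) = cm a (cm b c) * d := by
    have e : cm d (cm a (cm b c)) * (cm a (cm b c) * d) = d * cm a (cm b c) := by
      generalize cm a (cm b c) = v
      unfold cm; group
    rw [← e, ← hs, h8, one_mul]
  exact h9.symm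

end

end Pool.Agent.TH271.CV
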