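import Pool.Agent.TH271.CV.Inst

set_option autoImplicit false
set_option linter.unreachableTactic false
set_option linter.unusedTactic false
set_option linter.unusedSectionVars false
set_option linter.unusedVariables false

namespace Pool.Agent.TH271.CV
open Pool.Agent.Helper156.OF Pool.Agent.TH271.CU

section grp

variable {G : Type} [Group G]

lemma cm_comm {g h x : G} (hg : Commute g x) (hh : Commute h x) : Commute (cm g h) x := by
  unfold cm
  exact ((hg.mul_left hh).mul_left hg.inv_left).mul_left hh.inv_left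

lemma cm_mul {a b g h : G} (ga : Commute g a) (gb : Commute g b) (ha : Commute h a)
    (hb : Commute h b) : cm (a * g) (b * h) = cm a b * cm g h := by
  have e1 : Commute (cm g h) (a⁻¹ * b⁻¹) :=
    (cm_comm ga.inv_right ha.inv_right).mul_right (cm_comm gb.inv_right hb.inv_right)
  have e2 : g * b = b * g := gb.eq
  have e3 : a⁻¹ * h⁻¹ = h⁻¹ * a⁻¹ := (ha.symm.inv_inv).eq
  calc cm (a * g) (b * h) = a * (g * b) * h * g⁻¹ * (a⁻¹ * h⁻¹) * b⁻¹ := by unfold cm; group
    _ = a * b * (cm g h * (a⁻¹ * b⁻¹)) := by rw [e2, e3]; unfold cm; group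
    _ = a * b * (a⁻¹ * b⁻¹ * cm g h) := by rw [e1.eq]
    _ = cm a b * cm g h := by unfold cm; group

lemma cm_conj {g h x : G} : x * cm g h * x⁻¹ = cm (x * g * x⁻¹) (x * h * x⁻¹) := by
  unfold cm; group

lemma conj_cm {g h x a b : G} (hg : g * x * g⁻¹ = a⁻¹ * x * a) (hh : h * x * h⁻¹ = b⁻¹ * x * b)
    (ga : Commute g a) (gb : Commute g b) (ha : Commute h a) (hb : Commute h b) :
    cm g h * x * (cm g h)⁻¹ = (cm a b)⁻¹ * x * cm a b := by
  have p : Commute (a * g) x := by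
    show a * g * x = x * (a * g)
    calc a * g * x = a * (g * x * g⁻¹) * g := by group
      _ = _ := by rw [hg]; group
  have q : Commute (b * h) x := by
    show b * h * x = x * (b * h)
    calc b * h * x = b * (h * x * h⁻¹) * h := by group
      _ = _ := by rw [hh]; group
  have r := (cm_comm p q).eq
  rw [cm_mul ga gb ha hb] at r
  calc cm g h * x * (cm g h)⁻¹ = (cm a b)⁻¹ * (cm a b * cm g h * x) * (cm g h)⁻¹ := by group
    _ = _ := by rw [r]; group

lemma conj_cm' {g h x p q : G} (hg : g * x * g⁻¹ = x * p) (hh : h * x * h⁻¹ = x * q)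
    (gp : Commute g p) (gq : Commute g q) (hp : Commute h p) (hq : Commute h q) :
    cm g h * x * (cm g h)⁻¹ = x * cm p q := by
  have e1 : x⁻¹ * g * x⁻¹⁻¹ = p * g := by
    calc x⁻¹ * g * x⁻¹⁻¹ = x⁻¹ * (g * x * g⁻¹) * g := by group
      _ = _ := by rw [hg]; group
  have e2 : x⁻¹ * h * x⁻¹⁻¹ = q * h := by
    calc x⁻¹ * h * x⁻¹⁻¹ = x⁻¹ * (h * x * h⁻¹) * h := by group
      _ = _ := by rw [hh]; group
  have e3 : x⁻¹ * cm g h * x⁻¹⁻¹ = cm p q * cm g h := by
    rw [cm_conj, e1, e2, cm_mul gp gq hp hq]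
  calc cm g h * x * (cm g h)⁻¹ = x * (x⁻¹ * cm g h * x⁻¹⁻¹) * (cm g h)⁻¹ := by group
    _ = _ := by rw [e3]; group

end grp

section

variable {α P : Type} [DecidableEq α] [Fintype α] [Group P]
variable {W : SP α →* P} {E : Lt α → Lt α → P}
variable (R : Rel W E) (cb : ∀ x a : Lt α, E x a * E x a * E x a = 1)
  (hn : 5 ≤ Fintype.card α)

include R cb hn

/-- A1 -/
lemma DD_E (x y a b : Lt α) (h1 : x.1 ≠ y.1) (h2 : x.1 ≠ a.1)
    (h3 : x.1 ≠ b.1) (h4 : y.1 ≠ a.1) (h5 : y.1 ≠ b.1)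
    (h6 : a.1 ≠ b.1) :
    DD E y a b * E x y * (DD E y a b)⁻¹ = TT E x y a b * E x y := by
  have k := conj_cm (KK_E R h1 h2 h4) (KK_E R h1 h3 h5)
    (KK_E_comm R h1 h2 h4) (KK_E_comm R h1 h2 h5) (KK_E_comm R h1 h3 h4) (KK_E_comm R h1 h3 h5)
  have t1 : Commute (TT E x y a b) (E x y) := TT_E R cb hn x y a b y h1 h2 h3 h4 h5 h6 h1
  have t2 : Commute (TT E x y a b) (E x a) := TT_E R cb hn x y a b a h1 h2 h3 h4 h5 h6 h2
  have t3 : Commute (TT E x y a b) (E x b) := TT_E R cb hn x y a b b h1 h2 h3 h4 h5 h6 h3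
  have t4 : Commute (TT E x y a b) (cm (E x a) (E x b)) := (cm_comm t2.symm t3.symm).symm
  have e : cm (E x a) (E x b) = MM E x a b := rfl
  have k' : DD E y a b * E x y * (DD E y a b)⁻¹ =
      (cm (E x a) (E x b))⁻¹ * E x y * cm (E x a) (E x b) := k
  rw [k']
  have e5 : E x y * cm (E x a) (E x b) = TT E x y a b * cm (E x a) (E x b) * E x y := by
    rw [e]; unfold TT cm; group
  calc (cm (E x a) (E x b))⁻¹ * E x y * cm (E x a) (E x b)
      = (cm (E x a) (E x b))⁻¹ * (E x y * cm (E x a) (E x b)) := by group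
    _ = (cm (E x a) (E x b))⁻¹ * (TT E x y a b * cm (E x a) (E x b)) * E x y := by
        rw [e5]; group
    _ = _ := by rw [t4.eq]; group

lemma DD_KK (x y a b : Lt α) (h1 : x.1 ≠ y.1) (h2 : x.1 ≠ a.1)
    (h3 : x.1 ≠ b.1) (h4 : y.1 ≠ a.1) (h5 : y.1 ≠ b.1)
    (h6 : a.1 ≠ b.1) :
    DD E y a b * KK E x y * (DD E y a b)⁻¹ = FF E x y a b * KK E x y := by
  have k1 := DD_E R cb hn x y a b h1 h2 h3 h4 h5 h6
  have k2 := DD_E R cb hn (nv x) y a b (by simpa using h1) (by simpa using h2)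
    (by simpa using h3) h4 h5 h6
  have t := TT_nvE R cb hn (nv x) y a b y (by simpa using h1) (by simpa using h2)
    (by simpa using h3) (by simpa using h1)
  rw [nv_nv] at t
  rw [FF_eq R x y a b h1 h2 h3]
  calc DD E y a b * KK E x y * (DD E y a b)⁻¹
      = (DD E y a b * E x y * (DD E y a b)⁻¹) * (DD E y a b * E (nv x) y * (DD E y a b)⁻¹) := by
        unfold KK; group
    _ = TT E x y a b * (E x y * TT E (nv x) y a b) * E (nv x) y := by rw [k1, k2]; group
    _ = _ := by rw [← t.eq]; unfold KK; group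

/-- `y` and `a, b` against `E x w` with `w` different from `y` and `x` outside `a, b` -/
lemma DD_E_comm (x y a b w : Lt α) (h1 : x.1 ≠ y.1) (h2 : x.1 ≠ a.1)
    (h3 : x.1 ≠ b.1) (h4 : y.1 ≠ a.1) (h5 : y.1 ≠ b.1)
    (h6 : y.1 ≠ w.1) : Commute (DD E y a b) (E x w) :=
  cm_comm (KK_E_comm R h1 h2 h6) (KK_E_comm R h1 h3 h6)

/-- A2 -/
lemma MM_Ex (m l k i : Lt α) (h1 : m.1 ≠ l.1) (h2 : m.1 ≠ k.1)
    (h3 : m.1 ≠ i.1) (h4 : l.1 ≠ k.1) (h5 : l.1 ≠ i.1)
    (h6 : k.1 ≠ i.1) :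
    MM E l k i * E m l * (MM E l k i)⁻¹ = E m l * MM E m k i := by
  have hlm : l ≠ m := fun h => h1 (by rw [h])
  exact conj_cm' (c1 R h1 h2 h4) (c1 R h1 h3 h5) (cs R k l m)
    (R.e2 l m k i hlm h5 h2) (R.e2 l m i k hlm h4 h3) (cs R i l m)

lemma MM_KKx (m l k i : Lt α) (h1 : m.1 ≠ l.1) (h2 : m.1 ≠ k.1)
    (h3 : m.1 ≠ i.1) (h4 : l.1 ≠ k.1) (h5 : l.1 ≠ i.1)
    (h6 : k.1 ≠ i.1) :
    MM E l k i * KK E m l * (MM E l k i)⁻¹ = KK E m l * DD E m k i := by
  have k1 := MM_Ex R cb hn m l k i h1 h2 h3 h4 h5 h6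
  have k2 := MM_Ex R cb hn (nv m) l k i (by simpa using h1) (by simpa using h2)
    (by simpa using h3) h4 h5 h6
  have t := MM_nvE R (x := m) (y := k) (z := i) (w := l) h2 h3 h1
  rw [DD_eq R m k i h2 h3]
  calc MM E l k i * KK E m l * (MM E l k i)⁻¹
      = (MM E l k i * E m l * (MM E l k i)⁻¹) * (MM E l k i * E (nv m) l * (MM E l k i)⁻¹) := by
        unfold KK; group
    _ = E m l * (MM E m k i * E (nv m) l) * MM E (nv m) k i := by rw [k1, k2]; group
    _ = _ := by rw [t.eq]; unfold KK; group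

/-- A3 -/
lemma TT_Ex (l m j k i : Lt α) (h0 : l.1 ≠ m.1) (h1 : l.1 ≠ j.1)
    (h2 : l.1 ≠ k.1) (h3 : l.1 ≠ i.1) (h4 : m.1 ≠ j.1)
    (h5 : m.1 ≠ k.1) (h6 : m.1 ≠ i.1) (h7 : j.1 ≠ k.1)
    (h8 : j.1 ≠ i.1) (h9 : k.1 ≠ i.1) :
    TT E m j k i * E l m * (TT E m j k i)⁻¹ = E l m * TT E l j k i := by
  have hml : m ≠ l := fun h => h0 (by rw [h])
  have c_jk : Commute (E m j) (E l k) := R.e2 m l j k hml h5 h1
  have c_ji : Commute (E m j) (E l i) := R.e2 m l j i hml h6 h1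
  have c_kj : Commute (E m k) (E l j) := R.e2 m l k j hml h4 h2
  have c_ij : Commute (E m i) (E l j) := R.e2 m l i j hml h4 h3
  have c_ki : Commute (E m k) (E l i) := R.e2 m l k i hml h6 h2
  have c_ik : Commute (E m i) (E l k) := R.e2 m l i k hml h5 h3
  have c_kk : Commute (E m k) (E l k) := cs R k m l
  have c_ii : Commute (E m i) (E l i) := cs R i m l
  exact conj_cm' (c1 R h0 h1 h4) (MM_Ex R cb hn l m k i h0 h2 h3 h5 h6 h9) (cs R j m l)
    (cm_comm c_jk.symm c_ji.symm).symm (cm_comm c_kj c_ij)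
    (cm_comm (cm_comm c_kk.symm c_ki.symm).symm (cm_comm c_ik.symm c_ii.symm).symm)

lemma TT_KKx (l m j k i : Lt α) (h0 : l.1 ≠ m.1) (h1 : l.1 ≠ j.1)
    (h2 : l.1 ≠ k.1) (h3 : l.1 ≠ i.1) (h4 : m.1 ≠ j.1)
    (h5 : m.1 ≠ k.1) (h6 : m.1 ≠ i.1) (h7 : j.1 ≠ k.1)
    (h8 : j.1 ≠ i.1) (h9 : k.1 ≠ i.1) :
    TT E m j k i * KK E l m * (TT E m j k i)⁻¹ = KK E l m * FF E l j k i := by
  have k1 := TT_Ex R cb hn l m j k i h0 h1 h2 h3 h4 h5 h6 h7 h8 h9
  have k2 := TT_Ex R cb hn (nv l) m j k i (by simpa using h0) (by simpa using h1)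
    (by simpa using h2) (by simpa using h3) h4 h5 h6 h7 h8 h9
  have t := TT_nvE R cb hn l j k i m h1 h2 h3 h0
  rw [FF_eq R l j k i h1 h2 h3]
  calc TT E m j k i * KK E l m * (TT E m j k i)⁻¹
      = (TT E m j k i * E l m * (TT E m j k i)⁻¹) *
        (TT E m j k i * E (nv l) m * (TT E m j k i)⁻¹) := by unfold KK; group
    _ = E l m * (TT E l j k i * E (nv l) m) * TT E (nv l) j k i := by rw [k1, k2]; group
    _ = _ := by rw [t.eq]; unfold KK; group

/-- R1 -/
lemma KK_MMx (i k l : Lt α) (h1 : i.1 ≠ k.1) (h2 : i.1 ≠ l.1)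
    (h3 : k.1 ≠ l.1) :
    (KK E l i)⁻¹ * MM E i k l * KK E l i = MM E i k l * DD E i l k := by
  have o : Commute (KK E i l) (KK E l i) := KK_opp R cb h2
  have a1 := E_KK_same R (y := i) (q := k) (z := l) h1 h2
  have a2 := E_KK R (y := l) (z := i) (w := k) (Ne.symm h2) (Ne.symm h3) h1
  have eq1 : MM E i k l * KK E i l * (KK E l i * KK E l k) =
      KK E l i * KK E l k * (MM E i k l * KK E i l) := by
    rw [← a1, ← a2]
    calc E i k * KK E i l * (E i k)⁻¹ * (E i k * KK E l i * (E i k)⁻¹)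
        = E i k * (KK E i l * KK E l i) * (E i k)⁻¹ := by group
      _ = _ := by rw [o.eq]; group
  have b1 := KK_E R (x := i) (y := l) (z := k) h2 h1 (Ne.symm h3)
  have b2 := KK_E R (x := nv i) (y := l) (z := k) (by simpa using h2) (by simpa using h1)
    (Ne.symm h3)
  have b3 := conj_split (u := E i k) (u' := E (nv i) k) (A := E i l) (A' := E (nv i) l)
    (cs R k _ _) (RL R h1 h2) (RL' R h1 h2) (cs R l _ _)
  have eq2 : KK E l k * KK E i l = (KK E i k)⁻¹ * KK E i l * KK E i k * KK E l k := by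
    calc KK E l k * KK E i l
        = (KK E l k * E i l * (KK E l k)⁻¹) * (KK E l k * E (nv i) l * (KK E l k)⁻¹) *
          KK E l k := by unfold KK; group
      _ = _ := by rw [b1, b2, b3]; rfl
  have c0 : Commute (KK E l k) (E i k) := KK_E_comm R h2 h1 (Ne.symm h3)
  have ml := MM_left R cb h1 h2 h3
  have eq3 : KK E l k * MM E i k l = MM E i k l * KK E l k := by
    have e : KK E l k * MM E i k l * (KK E l k)⁻¹ = MM E i k l := by
      calc KK E l k * MM E i k l * (KK E l k)⁻¹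
          = cm (KK E l k * E i k * (KK E l k)⁻¹) (KK E l k * E i l * (KK E l k)⁻¹) := cm_conj
        _ = cm (E i k) ((E i k)⁻¹ * E i l * E i k) := by
            rw [b1, c0.eq, mul_assoc, mul_inv_cancel, mul_one]
        _ = (E i k)⁻¹ * (MM E i k l * E i k) := by unfold cm MM; group
        _ = MM E i k l := by rw [ml.eq]; group
    calc KK E l k * MM E i k l = KK E l k * MM E i k l * (KK E l k)⁻¹ * KK E l k := by group
      _ = _ := by rw [e]
  have d : Commute (DD E i l k) (KK E i k) := DD_right R cb hn i l k h2 h1 (Ne.symm h3)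
  have e6 : MM E i k l * (KK E l i * KK E i l) =
      KK E l i * MM E i k l * ((KK E i k)⁻¹ * KK E i l * KK E i k) := by
    have : MM E i k l * (KK E l i * KK E i l) * KK E l k =
        KK E l i * MM E i k l * ((KK E i k)⁻¹ * KK E i l * KK E i k) * KK E l k := by
      calc MM E i k l * (KK E l i * KK E i l) * KK E l k
          = MM E i k l * (KK E i l * KK E l i) * KK E l k := by rw [o.eq]
        _ = MM E i k l * KK E i l * (KK E l i * KK E l k) := by group
        _ = KK E l i * (KK E l k * MM E i k l) * KK E i l := by rw [eq1]; group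
        _ = KK E l i * MM E i k l * (KK E l k * KK E i l) := by rw [eq3]; group
        _ = _ := by rw [eq2]; group
    exact mul_right_cancel this
  calc (KK E l i)⁻¹ * MM E i k l * KK E l i
      = (KK E l i)⁻¹ * (MM E i k l * (KK E l i * KK E i l)) * (KK E i l)⁻¹ := by group
    _ = MM E i k l * ((KK E i k)⁻¹ * (KK E i l * KK E i k * (KK E i l)⁻¹)) := by rw [e6]; group
    _ = MM E i k l * ((KK E i k)⁻¹ * (DD E i l k * KK E i k)) := by unfold DD cm; group
    _ = MM E i k l * DD E i l k := by rw [d.eq]; group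

end

end Pool.Agent.TH271.CV
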