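import Pool.Agent.TH271.CV.Def

/-! PROJECT CV: the free group of exponent three on three generators and detection lemmas
(helper503, for helper271). -/

set_option autoImplicit false
set_option linter.unusedSectionVars false

namespace Pool.Agent.TH271.CV
open Pool.Agent.Helper156.OF Pool.Agent.TH271.CU

/-- The free group of exponent three on three generators (order `3 ^ 7`). -/
@[ext] structure B33 where
  i : ZMod 3
  j : ZMod 3
  k : ZMod 3
  l : ZMod 3
  m : ZMod 3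
  n : ZMod 3
  o : ZMod 3
  deriving DecidableEq

/-- `B33` as a product -/
def B33.equivProd :
    B33 ≃ ZMod 3 × ZMod 3 × ZMod 3 × ZMod 3 × ZMod 3 × ZMod 3 × ZMod 3 where
  toFun g := (g.i, g.j, g.k, g.l, g.m, g.n, g.o)
  invFun p := ⟨p.1, p.2.1, p.2.2.1, p.2.2.2.1, p.2.2.2.2.1, p.2.2.2.2.2.1, p.2.2.2.2.2.2⟩
  left_inv _ := rfl
  right_inv _ := rfl

instance : Fintype B33 := Fintype.ofEquiv _ B33.equivProd.symm

namespace B33

instance : Mul B33 := ⟨fun g h => ⟨g.i + h.i, g.j + h.j, g.k + h.k, g.l + h.l + g.j * h.i,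
  g.m + h.m + g.k * h.i, g.n + h.n + g.k * h.j,
  g.o + h.o + (g.n + g.j * g.k) * h.i - (g.m + g.k * h.i) * h.j + (g.l + g.j * h.i) * h.k⟩⟩
instance : One B33 := ⟨⟨0, 0, 0, 0, 0, 0, 0⟩⟩
instance : Inv B33 := ⟨fun g => ⟨-g.i, -g.j, -g.k, -g.l + g.j * g.i, -g.m + g.k * g.i,
  -g.n + g.k * g.j, -g.o + g.n * g.i - g.m * g.j + g.l * g.k - 2 * g.i * g.j * g.k⟩⟩

@[simp] lemma mul_i (g h : B33) : (g * h).i = g.i + h.i := rfl
@[simp] lemma mul_j (g h : B33) : (g * h).j = g.j + h.j := rfl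
@[simp] lemma mul_k (g h : B33) : (g * h).k = g.k + h.k := rfl
@[simp] lemma mul_l (g h : B33) : (g * h).l = g.l + h.l + g.j * h.i := rfl
@[simp] lemma mul_m (g h : B33) : (g * h).m = g.m + h.m + g.k * h.i := rfl
@[simp] lemma mul_n (g h : B33) : (g * h).n = g.n + h.n + g.k * h.j := rfl
@[simp] lemma mul_o (g h : B33) : (g * h).o =
  g.o + h.o + (g.n + g.j * g.k) * h.i - (g.m + g.k * h.i) * h.j + (g.l + g.j * h.i) * h.k := rfl
@[simp] lemma one_i : (1 : B33).i = 0 := rfl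
@[simp] lemma one_j : (1 : B33).j = 0 := rfl
@[simp] lemma one_k : (1 : B33).k = 0 := rfl
@[simp] lemma one_l : (1 : B33).l = 0 := rfl
@[simp] lemma one_m : (1 : B33).m = 0 := rfl
@[simp] lemma one_n : (1 : B33).n = 0 := rfl
@[simp] lemma one_o : (1 : B33).o = 0 := rfl
@[simp] lemma inv_i (g : B33) : (g⁻¹).i = -g.i := rfl
@[simp] lemma inv_j (g : B33) : (g⁻¹).j = -g.j := rfl
@[simp] lemma inv_k (g : B33) : (g⁻¹).k = -g.k := rfl
@[simp] lemma inv_l (g : B33) : (g⁻¹).l = -g.l + g.j * g.i := rfl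
@[simp] lemma inv_m (g : B33) : (g⁻¹).m = -g.m + g.k * g.i := rfl
@[simp] lemma inv_n (g : B33) : (g⁻¹).n = -g.n + g.k * g.j := rfl
@[simp] lemma inv_o (g : B33) : (g⁻¹).o =
  -g.o + g.n * g.i - g.m * g.j + g.l * g.k - 2 * g.i * g.j * g.k := rfl

lemma three : (3 : ZMod 3) = 0 := by decide

instance : Group B33 := Group.ofLeftAxioms
  (by
    intro x y z
    ext
    · simp only [mul_i]; ring
    · simp only [mul_j]; ring
    · simp only [mul_k]; ring
    · simp only [mul_l, mul_i, mul_j]; ring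
    · simp only [mul_m, mul_i, mul_k]; ring
    · simp only [mul_n, mul_j, mul_k]; ring
    · simp only [mul_o, mul_n, mul_m, mul_l, mul_i, mul_j, mul_k]
      linear_combination (x.k * y.j * z.i) * three)
  (by intro x; ext <;> simp)
  (by
    intro x
    ext
    · simp only [mul_i, inv_i, one_i]; ring
    · simp only [mul_j, inv_j, one_j]; ring
    · simp only [mul_k, inv_k, one_k]; ring
    · simp only [mul_l, inv_l, inv_j, one_l]; ring
    · simp only [mul_m, inv_m, inv_k, one_m]; ring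
    · simp only [mul_n, inv_n, inv_k, one_n]; ring
    · simp only [mul_o, inv_o, inv_n, inv_m, inv_l, inv_j, inv_k, one_o]; ring)

lemma cube (g : B33) : g * g * g = 1 := by
  ext
  · simp only [mul_i, one_i]; linear_combination g.i * three
  · simp only [mul_j, one_j]; linear_combination g.j * three
  · simp only [mul_k, one_k]; linear_combination g.k * three
  · simp only [mul_l, mul_j, one_l]; linear_combination (g.l + g.j * g.i) * three
  · simp only [mul_m, mul_k, one_m]; linear_combination (g.m + g.k * g.i) * three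
  · simp only [mul_n, mul_k, one_n]; linear_combination (g.n + g.k * g.j) * three
  · simp only [mul_o, mul_n, mul_m, mul_l, mul_j, mul_k, one_o]
    linear_combination (g.o + g.n * g.i - g.m * g.j + g.l * g.k + 2 * g.i * g.j * g.k) * three

/-- the generators -/
def gA : B33 := ⟨1, 0, 0, 0, 0, 0, 0⟩
/-- the generators -/
def gB : B33 := ⟨0, 1, 0, 0, 0, 0, 0⟩
/-- the generators -/
def gC : B33 := ⟨0, 0, 1, 0, 0, 0, 0⟩

lemma comm_ijk (y z : B33) : (y * z * y⁻¹ * z⁻¹).i = 0 ∧ (y * z * y⁻¹ * z⁻¹).j = 0 ∧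
    (y * z * y⁻¹ * z⁻¹).k = 0 := by
  refine ⟨?_, ?_, ?_⟩
  · simp only [mul_i, inv_i]; ring
  · simp only [mul_j, inv_j]; ring
  · simp only [mul_k, inv_k]; ring

lemma comm_lmn {x c : B33} (hi : c.i = 0) (hj : c.j = 0) (hk : c.k = 0) :
    (x * c * x⁻¹ * c⁻¹).l = 0 ∧ (x * c * x⁻¹ * c⁻¹).m = 0 ∧ (x * c * x⁻¹ * c⁻¹).n = 0 := by
  refine ⟨?_, ?_, ?_⟩
  · simp only [mul_l, mul_j, inv_l, inv_i, inv_j, hi, hj]; ring
  · simp only [mul_m, mul_k, inv_m, inv_i, inv_k, hi, hk]; ring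
  · simp only [mul_n, mul_k, inv_n, inv_j, inv_k, hj, hk]; ring

lemma comm_of_zero {c w : B33} (hi : c.i = 0) (hj : c.j = 0) (hk : c.k = 0)
    (hl : c.l = 0) (hm : c.m = 0) (hn : c.n = 0) : c * w = w * c := by
  ext
  · simp only [mul_i]; ring
  · simp only [mul_j]; ring
  · simp only [mul_k]; ring
  · simp only [mul_l, hi, hj]; ring
  · simp only [mul_m, hi, hk]; ring
  · simp only [mul_n, hj, hk]; ring
  · simp only [mul_o, hi, hj, hk, hl, hm, hn]; ring

/-- triple commutators are central -/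
lemma cent (x y z w : B33) : Commute (x * (y * z * y⁻¹ * z⁻¹) * x⁻¹ * (y * z * y⁻¹ * z⁻¹)⁻¹) w := by
  obtain ⟨hi, hj, hk⟩ := comm_ijk y z
  obtain ⟨hi', hj', hk'⟩ := comm_ijk x (y * z * y⁻¹ * z⁻¹)
  obtain ⟨hl, hm, hn⟩ := comm_lmn (x := x) hi hj hk
  exact comm_of_zero hi' hj' hk' hl hm hn

/-- the subgroup generated by the first two generators is a Heisenberg group -/
def ofHeis : Heis →* B33 where
  toFun g := ⟨g.b, g.a, 0, g.c, 0, 0, 0⟩
  map_one' := rfl
  map_mul' g h := by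
    ext
    · rfl
    · rfl
    · simp only [mul_k]; ring
    · rfl
    · simp only [mul_m]; ring
    · simp only [mul_n]; ring
    · simp only [mul_o]; ring

lemma ofHeis_inj {g h : Heis} (e : ofHeis g = ofHeis h) : g = h :=
  Heis.ext (congrArg B33.j e) (congrArg B33.i e) (congrArg B33.l e)

/-- quotient map to the Heisenberg group -/
def q1 : B33 →* Heis where
  toFun g := ⟨g.j, g.i, g.l⟩
  map_one' := rfl
  map_mul' _ _ := rfl

/-- quotient map to the Heisenberg group -/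
def q2 : B33 →* Heis where
  toFun g := ⟨g.k, g.i, g.m⟩
  map_one' := rfl
  map_mul' _ _ := rfl

/-- quotient map to the Heisenberg group -/
def q3 : B33 →* Heis where
  toFun g := ⟨g.k, g.j, g.n⟩
  map_one' := rfl
  map_mul' _ _ := rfl

end B33

variable {α : Type}

/-- Automorphisms acting trivially on homomorphisms to `B33`. -/
def TB (α : Type) : Subgroup (MulAut (FreeGroup α)) where
  carrier := {ψ | ∀ (f : FreeGroup α →* B33) x, f (ψ x) = f x}
  mul_mem' := by
    intro a b ha hb f x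
    rw [MulAut.mul_apply, ha, hb]
  one_mem' := fun f x => rfl
  inv_mem' := by
    intro a ha f x
    have := ha f (a⁻¹ x)
    rw [MulAut.apply_inv_self] at this
    exact this.symm

lemma mem_TB_of {ψ : MulAut (FreeGroup α)}
    (h : ∀ (f : FreeGroup α →* B33) k, f (ψ (FreeGroup.of k)) = f (FreeGroup.of k)) :
    ψ ∈ TB α := by
  intro f x
  have : f.comp (ψ : FreeGroup α →* FreeGroup α) = f := by
    ext1 k
    exact h f k
  exact DFunLike.congr_fun this x

instance : (TB α).Normal := ⟨fun ψ h g f x => by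
  have := h (f.comp (g : FreeGroup α →* FreeGroup α)) (g⁻¹ x)
  have h2 : f (g (ψ (g⁻¹ x))) = f (g (g⁻¹ x)) := this
  rw [MulAut.apply_inv_self] at h2
  exact h2⟩

lemma TB_le_TK : TB α ≤ TK α := fun _ h f x => B33.ofHeis_inj (h (B33.ofHeis.comp f) x)

/-- The change of the last coordinate. -/
def Dt (f : FreeGroup α →* B33) (ψ : MulAut (FreeGroup α)) (x : FreeGroup α) : ZMod 3 :=
  (f (ψ x)).o - (f x).o

lemma Dt_mul {φ ψ : MulAut (FreeGroup α)} (hφ : φ ∈ TK α) (hψ : ψ ∈ TK α)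
    (f : FreeGroup α →* B33) (x : FreeGroup α) :
    Dt f (ψ * φ) x = Dt f ψ x + Dt f φ x := by
  have e1 : ∀ x, B33.q1 (f (ψ x)) = B33.q1 (f x) := fun x => hψ (B33.q1.comp f) x
  have e2 : ∀ x, B33.q2 (f (ψ x)) = B33.q2 (f x) := fun x => hψ (B33.q2.comp f) x
  have e3 : ∀ x, B33.q3 (f (ψ x)) = B33.q3 (f x) := fun x => hψ (B33.q3.comp f) x
  have hi : ∀ x, (f (ψ x)).i = (f x).i := fun x => congrArg Heis.b (e1 x)
  have hj : ∀ x, (f (ψ x)).j = (f x).j := fun x => congrArg Heis.a (e1 x)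
  have hk : ∀ x, (f (ψ x)).k = (f x).k := fun x => congrArg Heis.a (e2 x)
  have hl : ∀ x, (f (ψ x)).l = (f x).l := fun x => congrArg Heis.c (e1 x)
  have hm : ∀ x, (f (ψ x)).m = (f x).m := fun x => congrArg Heis.c (e2 x)
  have hn : ∀ x, (f (ψ x)).n = (f x).n := fun x => congrArg Heis.c (e3 x)
  let χ : FreeGroup α →* Multiplicative (ZMod 3) :=
    { toFun := fun x => Multiplicative.ofAdd (Dt f ψ x)
      map_one' := by simp [Dt]
      map_mul' := fun x y => by
        show Dt f ψ (x * y) = Dt f ψ x + Dt f ψ y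
        unfold Dt
        simp only [map_mul, B33.mul_o, hi, hj, hk, hl, hm, hn]
        ring }
  have h : Dt f ψ (φ x) = Dt f ψ x := TK_le_IA3 hφ χ x
  have h2 : Dt f (ψ * φ) x = Dt f ψ (φ x) + Dt f φ x := by
    unfold Dt
    rw [MulAut.mul_apply]; ring
  rw [h2, h]

lemma Dt_one (f : FreeGroup α →* B33) (x : FreeGroup α) : Dt f 1 x = 0 := by simp [Dt]

lemma Dt_inv {φ : MulAut (FreeGroup α)} (hφ : φ ∈ TK α) (f : FreeGroup α →* B33)
    (x : FreeGroup α) : Dt f φ⁻¹ x = - Dt f φ x := by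
  have h := Dt_mul hφ (inv_mem hφ) f x
  rw [inv_mul_cancel, Dt_one] at h
  exact eq_neg_of_add_eq_zero_left h.symm

lemma Dt_TB {φ : MulAut (FreeGroup α)} (hφ : φ ∈ TB α) (f : FreeGroup α →* B33)
    (x : FreeGroup α) : Dt f φ x = 0 := by
  unfold Dt
  rw [hφ f x, sub_self]

section gens

variable [DecidableEq α] [Fintype α]

lemma mem_TB_of_gl {ψ : MulAut (FreeGroup α)} (x : Lt α)
    (h1 : ∀ f : FreeGroup α →* B33, f (ψ (gl x)) = f (gl x))
    (h2 : ∀ (f : FreeGroup α →* B33) (c : Lt α), c.1 ≠ x.1 → f (ψ (gl c)) = f (gl c)) :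
    ψ ∈ TB α := by
  apply mem_TB_of
  intro f k
  rw [← gl_true]
  by_cases hk : ((k, true) : Lt α).1 = x.1
  · rcases fst_eq_iff.1 hk with h | h
    · rw [h]; exact h1 f
    · rw [h, gl_nv, map_inv, map_inv, map_inv, h1 f]
  · exact h2 f _ hk

lemma cube_mem_TB (x a : Lt α) : eAut x a * eAut x a * eAut x a ∈ TB α := by
  by_cases h : x.1 = a.1
  · rw [eAut_junk x a h, mul_one, mul_one]; exact one_mem _
  · refine mem_TB_of_gl x ?_ ?_
    · intro f
      simp only [MulAut.mul_apply]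
      simp only [e_gl h, map_mul, eAut_fix x a a (Ne.symm h)]
      have := B33.cube (f (gl a))
      calc f (gl x) * f (gl a) * f (gl a) * f (gl a)
          = f (gl x) * (f (gl a) * f (gl a) * f (gl a)) := by group
        _ = f (gl x) := by rw [this, mul_one]
    · intro f c hc
      simp only [MulAut.mul_apply]
      rw [eAut_fix x a c hc, eAut_fix x a c hc, eAut_fix x a c hc]

/-- the value of an inverse automorphism -/
lemma inv_apply_of {ψ : MulAut (FreeGroup α)} {x y : FreeGroup α} (h : ψ y = x) :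
    ψ⁻¹ x = y := by
  rw [← h, MulAut.inv_apply_self]

lemma TTe_gl {x a b c : Lt α} (h1 : x.1 ≠ a.1) (h2 : x.1 ≠ b.1) (h3 : x.1 ≠ c.1) :
    TT eAut x a b c (gl x) = gl x * (gl a * (gl b * gl c * (gl b)⁻¹ * (gl c)⁻¹) * (gl a)⁻¹ *
      (gl b * gl c * (gl b)⁻¹ * (gl c)⁻¹)⁻¹) := by
  have hMx := MMe_gl (x := x) (y := b) (z := c) h2 h3
  have hMb : MM eAut x b c (gl b) = gl b := MMe_fix (Ne.symm h2)
  have hMc : MM eAut x b c (gl c) = gl c := MMe_fix (Ne.symm h3)
  have hMa : MM eAut x b c (gl a) = gl a := MMe_fix (Ne.symm h1)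
  have hEx : eAut x a (gl x) = gl x * gl a := e_gl h1
  have hEa : eAut x a (gl a) = gl a := eAut_fix x a a (Ne.symm h1)
  have hEb : eAut x a (gl b) = gl b := eAut_fix x a b (Ne.symm h2)
  have hEc : eAut x a (gl c) = gl c := eAut_fix x a c (Ne.symm h3)
  have hMi : (MM eAut x b c)⁻¹ (gl x) = gl x * (gl b * gl c * (gl b)⁻¹ * (gl c)⁻¹)⁻¹ := by
    apply inv_apply_of
    simp only [map_mul, map_inv, hMx, hMb, hMc]
    group
  have hEi : (eAut x a)⁻¹ (gl x) = gl x * (gl a)⁻¹ := by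
    apply inv_apply_of
    simp only [map_mul, map_inv, hEx, hEa]
    group
  have hEib : (eAut x a)⁻¹ (gl b) = gl b := inv_apply_of hEb
  have hEic : (eAut x a)⁻¹ (gl c) = gl c := inv_apply_of hEc
  unfold TT cm
  simp only [MulAut.mul_apply, hMi, map_mul, map_inv, hEi, hEib, hEic, hMx, hMa, hMb, hMc, hEx,
    hEa, hEb, hEc]
  group

lemma TTe_fix {x a b c d : Lt α} (h : d.1 ≠ x.1) : TT eAut x a b c (gl d) = gl d := by
  have h1 : MM eAut x b c (gl d) = gl d := MMe_fix h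
  have h2 : eAut x a (gl d) = gl d := eAut_fix x a d h
  unfold TT cm
  simp only [MulAut.mul_apply, inv_apply_of h1, inv_apply_of h2, h1, h2]

lemma DDe_fix {y a b d : Lt α} (h : d.1 ≠ y.1) : DD eAut y a b (gl d) = gl d := by
  have h1 : KK eAut y a (gl d) = gl d := KKe_fix h
  have h2 : KK eAut y b (gl d) = gl d := KKe_fix h
  unfold DD cm
  simp only [MulAut.mul_apply, inv_apply_of h1, inv_apply_of h2, h1, h2]

/-- `DD eAut y a b` is conjugation of `y` by the commutator of `a` and `b` -/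
lemma DDe_gl {y a b : Lt α} (h1 : y.1 ≠ a.1) (h2 : y.1 ≠ b.1) :
    DD eAut y a b (gl y) = (gl a * gl b * (gl a)⁻¹ * (gl b)⁻¹)⁻¹ * gl y *
      (gl a * gl b * (gl a)⁻¹ * (gl b)⁻¹) := by
  have hay := KKe_gl (y := y) (z := a) h1
  have hby := KKe_gl (y := y) (z := b) h2
  have haa : KK eAut y a (gl a) = gl a := KKe_fix (Ne.symm h1)
  have hab : KK eAut y a (gl b) = gl b := KKe_fix (Ne.symm h2)
  have hba : KK eAut y b (gl a) = gl a := KKe_fix (Ne.symm h1)
  have hbb : KK eAut y b (gl b) = gl b := KKe_fix (Ne.symm h2)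
  have hai : (KK eAut y a)⁻¹ (gl y) = gl a * gl y * (gl a)⁻¹ := by
    apply inv_apply_of
    simp only [map_mul, map_inv, hay, haa]
    group
  have hbi : (KK eAut y b)⁻¹ (gl y) = gl b * gl y * (gl b)⁻¹ := by
    apply inv_apply_of
    simp only [map_mul, map_inv, hby, hbb]
    group
  have haib : (KK eAut y a)⁻¹ (gl b) = gl b := inv_apply_of hab
  unfold DD cm
  simp only [MulAut.mul_apply, hbi, map_mul, map_inv, hai, haib, hby, hba, hbb, hay, haa, hab]
  group

/-- the partial conjugation by a triple commutator, on its letter -/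
lemma FFe_gl {p a b c : Lt α} (h1 : p.1 ≠ a.1) (h2 : p.1 ≠ b.1) (h3 : p.1 ≠ c.1) :
    FF eAut p a b c (gl p) =
      (gl a * (gl b * gl c * (gl b)⁻¹ * (gl c)⁻¹) * (gl a)⁻¹ *
        (gl b * gl c * (gl b)⁻¹ * (gl c)⁻¹)⁻¹)⁻¹ * gl p *
      (gl a * (gl b * gl c * (gl b)⁻¹ * (gl c)⁻¹) * (gl a)⁻¹ *
        (gl b * gl c * (gl b)⁻¹ * (gl c)⁻¹)⁻¹) := by
  have hap := KKe_gl (y := p) (z := a) h1
  have hdp := DDe_gl (y := p) (a := b) (b := c) h2 h3
  have haa : KK eAut p a (gl a) = gl a := KKe_fix (Ne.symm h1)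
  have hab : KK eAut p a (gl b) = gl b := KKe_fix (Ne.symm h2)
  have hac : KK eAut p a (gl c) = gl c := KKe_fix (Ne.symm h3)
  have hda : DD eAut p b c (gl a) = gl a := DDe_fix (Ne.symm h1)
  have hdb : DD eAut p b c (gl b) = gl b := DDe_fix (Ne.symm h2)
  have hdc : DD eAut p b c (gl c) = gl c := DDe_fix (Ne.symm h3)
  have hai : (KK eAut p a)⁻¹ (gl p) = gl a * gl p * (gl a)⁻¹ := by
    apply inv_apply_of
    simp only [map_mul, map_inv, hap, haa]
    group
  have hdi : (DD eAut p b c)⁻¹ (gl p) = (gl b * gl c * (gl b)⁻¹ * (gl c)⁻¹) * gl p *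
      (gl b * gl c * (gl b)⁻¹ * (gl c)⁻¹)⁻¹ := by
    apply inv_apply_of
    simp only [map_mul, map_inv, hdp, hdb, hdc]
    group
  have haib : (KK eAut p a)⁻¹ (gl b) = gl b := inv_apply_of hab
  have haic : (KK eAut p a)⁻¹ (gl c) = gl c := inv_apply_of hac
  unfold FF
  rw [cm]
  simp only [MulAut.mul_apply, hdi, map_mul, map_inv, hai, haib, haic, hdp, hda, hdb, hdc, hap,
    haa, hab, hac]
  group

lemma FFe_fix {p a b c d : Lt α} (h : d.1 ≠ p.1) : FF eAut p a b c (gl d) = gl d := by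
  have h1 : KK eAut p a (gl d) = gl d := KKe_fix h
  have h2 : DD eAut p b c (gl d) = gl d := DDe_fix h
  unfold FF
  rw [cm]
  simp only [MulAut.mul_apply, inv_apply_of h1, inv_apply_of h2, h1, h2]

/-- the partial conjugation by a triple commutator acts trivially on homomorphisms to `B33` -/
lemma FF_mem_TB {p a b c : Lt α} (h1 : p.1 ≠ a.1) (h2 : p.1 ≠ b.1) (h3 : p.1 ≠ c.1) :
    FF eAut p a b c ∈ TB α := by
  refine mem_TB_of_gl p ?_ ?_
  · intro f
    rw [FFe_gl h1 h2 h3]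
    simp only [map_mul, map_inv]
    have h := B33.cent (f (gl a)) (f (gl b)) (f (gl c)) (f (gl p))
    rw [mul_assoc, ← h.eq, inv_mul_cancel_left]
  · intro f c' hc
    rw [FFe_fix hc]

/-- triple commutators vanish in the Heisenberg group -/
lemma heis_triple (x y z : Heis) :
    x * (y * z * y⁻¹ * z⁻¹) * x⁻¹ * (y * z * y⁻¹ * z⁻¹)⁻¹ = 1 := by
  ext
  · simp
  · simp
  · simp; ring

/-- commutators are central in the Heisenberg group -/
lemma heis_cent (x y z : Heis) : Commute (y * z * y⁻¹ * z⁻¹) x := by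
  have h := heis_triple x y z
  have h2 : x * (y * z * y⁻¹ * z⁻¹) * x⁻¹ = (y * z * y⁻¹ * z⁻¹) := by
    rw [mul_inv_eq_one] at h; exact h
  exact (mul_inv_eq_iff_eq_mul.1 h2).symm

lemma TT_mem_TK {x a b c : Lt α} (h1 : x.1 ≠ a.1) (h2 : x.1 ≠ b.1) (h3 : x.1 ≠ c.1) :
    TT eAut x a b c ∈ TK α := by
  refine mem_TK_of_gl x ?_ ?_
  · intro f
    rw [TTe_gl h1 h2 h3]
    simp only [map_mul, map_inv]
    rw [heis_triple, mul_one]
  · intro f c' hc
    rw [TTe_fix hc]

lemma DD_mem_TK {y a b : Lt α} (h1 : y.1 ≠ a.1) (h2 : y.1 ≠ b.1) :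
    DD eAut y a b ∈ TK α := by
  refine mem_TK_of_gl y ?_ ?_
  · intro f
    rw [DDe_gl h1 h2]
    simp only [map_mul, map_inv]
    have h := heis_cent (f (gl y)) (f (gl a)) (f (gl b))
    rw [mul_assoc, ← h.eq, inv_mul_cancel_left]
  · intro f c' hc
    rw [DDe_fix hc]

end gens

end Pool.Agent.TH271.CV
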