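import Pool.Agent.TH271.CV.Def

set_option autoImplicit false
set_option linter.unusedSectionVars false

namespace Pool.Agent.TH271.CV
open Pool.Agent.Helper156.OF Pool.Agent.TH271.CU

/-- The subgroup generated by all `DD` and `TT`. -/
def N2 {α P : Type} [Group P] (E : Lt α → Lt α → P) : Subgroup P :=
  Subgroup.closure ({q | ∃ y a b : Lt α, y.1 ≠ a.1 ∧ y.1 ≠ b.1 ∧ a.1 ≠ b.1 ∧ q = DD E y a b} ∪
    {q | ∃ x a b c : Lt α, x.1 ≠ a.1 ∧ x.1 ≠ b.1 ∧ x.1 ≠ c.1 ∧ a.1 ≠ b.1 ∧ a.1 ≠ c.1 ∧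
      b.1 ≠ c.1 ∧ q = TT E x a b c})

end Pool.Agent.TH271.CV
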