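import Pool.Agent.TH271.CV.B33
import Pool.Agent.TH271.CV.Def2

set_option autoImplicit false
set_option linter.unusedSectionVars false

namespace Pool.Agent.TH271.CV
open Pool.Agent.Helper156.OF Pool.Agent.TH271.CU

namespace Core2

variable {α : Type} [DecidableEq α] [Fintype α]

/-- Indices of the generators. -/
def Vq (ρ : α → ℕ) (b : α × α × α × α) : Prop :=
  (b.1 = b.2.1 ∧ b.1 ≠ b.2.2.1 ∧ b.1 ≠ b.2.2.2 ∧ ρ b.2.2.1 < ρ b.2.2.2) ∨
  (b.1 ≠ b.2.1 ∧ b.1 ≠ b.2.2.1 ∧ b.1 ≠ b.2.2.2 ∧ ρ b.2.1 < ρ b.2.2.1 ∧ ρ b.2.2.1 < ρ b.2.2.2)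

/-- The generators. -/
def Gq (b : α × α × α × α) : MulAut (FreeGroup α) :=
  if b.1 = b.2.1 then DD eAut (b.1, true) (b.2.2.1, true) (b.2.2.2, true)
  else TT eAut (b.1, true) (b.2.1, true) (b.2.2.1, true) (b.2.2.2, true)

/-- The homomorphism dual to a generator. -/
def fq (b : α × α × α × α) : FreeGroup α →* B33 :=
  FreeGroup.lift (fun l => if l = b.2.1 then B33.gA else if l = b.2.2.1 then B33.gB else
    if l = b.2.2.2 then B33.gC else 1)

lemma fq_gl (b : α × α × α × α) (l : α) : fq b (gl (l, true)) =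
    if l = b.2.1 then B33.gA else if l = b.2.2.1 then B33.gB else
      if l = b.2.2.2 then B33.gC else 1 := by
  rw [gl_true]; simp [fq]

lemma fq_one {b : α × α × α × α} {l : α} (h1 : l ≠ b.2.1) (h2 : l ≠ b.2.2.1)
    (h3 : l ≠ b.2.2.2) : fq b (gl (l, true)) = 1 := by
  rw [fq_gl, if_neg h1, if_neg h2, if_neg h3]

variable {ρ : α → ℕ}

lemma Gq_TK {b : α × α × α × α} (hb : Vq ρ b) : Gq b ∈ TK α := by
  obtain ⟨i, j, k, l⟩ := b
  rcases hb with ⟨h1, h2, h3, h4⟩ | ⟨h1, h2, h3, h4, h5⟩
  · simp only at h1 h2 h3 h4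
    subst h1
    have e : Gq (i, i, k, l) = DD eAut (i, true) (k, true) (l, true) := if_pos rfl
    rw [e]
    exact DD_mem_TK h2 h3
  · simp only at h1 h2 h3 h4
    have e : Gq (i, j, k, l) = TT eAut (i, true) (j, true) (k, true) (l, true) := if_neg h1
    rw [e]
    exact TT_mem_TK h1 h2 h3

lemma ne_of_lt {k l : α} (h : ρ k < ρ l) : k ≠ l := fun e => by
  rw [e] at h
  exact lt_irrefl _ h

lemma calc1 : ((B33.gB * B33.gC * B33.gB⁻¹ * B33.gC⁻¹)⁻¹ * B33.gA *
    (B33.gB * B33.gC * B33.gB⁻¹ * B33.gC⁻¹)).o - B33.gA.o ≠ 0 := by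
  decide

lemma calc2 : (1 * (B33.gA * (B33.gB * B33.gC * B33.gB⁻¹ * B33.gC⁻¹) * B33.gA⁻¹ *
    (B33.gB * B33.gC * B33.gB⁻¹ * B33.gC⁻¹)⁻¹) : B33).o - (1 : B33).o ≠ 0 := by
  decide

lemma DQ_self {b : α × α × α × α} (hb : Vq ρ b) :
    Dt (fq b) (Gq b) (gl (b.1, true)) ≠ 0 := by
  obtain ⟨i, j, k, l⟩ := b
  rcases hb with ⟨h1, h2, h3, h4⟩ | ⟨h1, h2, h3, h4, h5⟩
  · simp only at h1 h2 h3 h4
    subst h1
    have hkl := ne_of_lt h4
    have e : Gq (i, i, k, l) = DD eAut (i, true) (k, true) (l, true) := if_pos rfl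
    show Dt (fq (i, i, k, l)) (Gq (i, i, k, l)) (gl (i, true)) ≠ 0
    have f1 : fq (i, i, k, l) (gl (i, true)) = B33.gA := by
      rw [fq_gl]
      exact if_pos rfl
    have f2 : fq (i, i, k, l) (gl (k, true)) = B33.gB := by
      rw [fq_gl]
      simp only
      rw [if_neg (Ne.symm h2), if_pos trivial]
    have f3 : fq (i, i, k, l) (gl (l, true)) = B33.gC := by
      rw [fq_gl]
      simp only
      rw [if_neg (Ne.symm h3), if_neg (Ne.symm hkl), if_pos trivial]
    unfold Dt
    rw [e, DDe_gl h2 h3]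
    simp only [map_mul, map_inv]
    rw [f1, f2, f3]
    exact calc1
  · simp only at h1 h2 h3 h4 h5
    have hjk := ne_of_lt h4
    have hkl := ne_of_lt h5
    have hjl := ne_of_lt (h4.trans h5)
    have e : Gq (i, j, k, l) = TT eAut (i, true) (j, true) (k, true) (l, true) := if_neg h1
    show Dt (fq (i, j, k, l)) (Gq (i, j, k, l)) (gl (i, true)) ≠ 0
    have f0 : fq (i, j, k, l) (gl (i, true)) = 1 := fq_one h1 h2 h3
    have f1 : fq (i, j, k, l) (gl (j, true)) = B33.gA := by
      rw [fq_gl]
      exact if_pos rfl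
    have f2 : fq (i, j, k, l) (gl (k, true)) = B33.gB := by
      rw [fq_gl]
      simp only
      rw [if_neg (Ne.symm hjk), if_pos trivial]
    have f3 : fq (i, j, k, l) (gl (l, true)) = B33.gC := by
      rw [fq_gl]
      simp only
      rw [if_neg (Ne.symm hjl), if_neg (Ne.symm hkl), if_pos trivial]
    unfold Dt
    rw [e, TTe_gl h1 h2 h3]
    simp only [map_mul, map_inv]
    rw [f0, f1, f2, f3]
    exact calc2

lemma c1 {G : Type} [Group G] (x z : G) :
    (1 * z * (1 : G)⁻¹ * z⁻¹)⁻¹ * x * (1 * z * (1 : G)⁻¹ * z⁻¹) = x := by group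

lemma c2 {G : Type} [Group G] (x y : G) :
    (y * 1 * y⁻¹ * (1 : G)⁻¹)⁻¹ * x * (y * 1 * y⁻¹ * (1 : G)⁻¹) = x := by group

lemma t1 {G : Type} [Group G] (x w : G) : x * (1 * w * (1 : G)⁻¹ * w⁻¹) = x := by group

lemma t2 {G : Type} [Group G] (x y z : G) :
    x * (y * (1 * z * (1 : G)⁻¹ * z⁻¹) * y⁻¹ * (1 * z * (1 : G)⁻¹ * z⁻¹)⁻¹) = x := by group

lemma t3 {G : Type} [Group G] (x y z : G) :
    x * (y * (z * 1 * z⁻¹ * (1 : G)⁻¹) * y⁻¹ * (z * 1 * z⁻¹ * (1 : G)⁻¹)⁻¹) = x := by group

lemma DQ_other {b b' : α × α × α × α} (hb : Vq ρ b) (hb' : Vq ρ b')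
    (hne : b ≠ b') : Dt (fq b) (Gq b') (gl (b.1, true)) = 0 := by
  obtain ⟨i, j, k, l⟩ := b
  obtain ⟨i', j', k', l'⟩ := b'
  show Dt (fq (i, j, k, l)) (Gq (i', j', k', l')) (gl (i, true)) = 0
  unfold Dt
  rcases hb' with ⟨h1', h2', h3', h4'⟩ | ⟨h1', h2', h3', h4', h5'⟩
  · simp only at h1' h2' h3' h4'
    subst h1'
    have hkl' := ne_of_lt h4'
    have e : Gq (i', i', k', l') = DD eAut (i', true) (k', true) (l', true) := if_pos rfl
    rw [e]
    by_cases hi : i = i'
    · subst hi
      rw [DDe_gl h2' h3']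
      simp only [map_mul, map_inv]
      rcases hb with ⟨h1, h2, h3, h4⟩ | ⟨h1, h2, h3, h4, h5⟩
      · simp only at h1 h2 h3 h4
        subst h1
        have key : fq (i, i, k, l) (gl (k', true)) = 1 ∨ fq (i, i, k, l) (gl (l', true)) = 1 := by
          by_contra hcon
          push Not at hcon
          obtain ⟨c1, c2⟩ := hcon
          have d1 : k' = k ∨ k' = l := by
            by_contra hh
            push Not at hh
            exact c1 (fq_one (Ne.symm h2') hh.1 hh.2)
          have d2 : l' = k ∨ l' = l := by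
            by_contra hh
            push Not at hh
            exact c2 (fq_one (Ne.symm h3') hh.1 hh.2)
          rcases d1 with rfl | rfl <;> rcases d2 with rfl | rfl
          · exact hkl' rfl
          · exact hne rfl
          · omega
          · exact hkl' rfl
        rcases key with key | key
        · rw [key, c1, sub_self]
        · rw [key, c2, sub_self]
      · simp only at h1 h2 h3 h4 h5
        rw [fq_one (b := (i, j, k, l)) (l := i) h1 h2 h3, mul_one, inv_mul_cancel, sub_self]
    · rw [DDe_fix hi, sub_self]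
  · simp only at h1' h2' h3' h4' h5'
    have hjk' := ne_of_lt h4'
    have hkl' := ne_of_lt h5'
    have hjl' := ne_of_lt (h4'.trans h5')
    have e : Gq (i', j', k', l') = TT eAut (i', true) (j', true) (k', true) (l', true) :=
      if_neg h1'
    rw [e]
    by_cases hi : i = i'
    · subst hi
      rw [TTe_gl h1' h2' h3']
      have key : fq (i, j, k, l) (gl (j', true)) = 1 ∨ fq (i, j, k, l) (gl (k', true)) = 1 ∨
          fq (i, j, k, l) (gl (l', true)) = 1 := by
        by_contra hcon
        push Not at hcon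
        obtain ⟨c1, c2, c3⟩ := hcon
        rcases hb with ⟨h1, h2, h3, h4⟩ | ⟨h1, h2, h3, h4, h5⟩
        · simp only at h1 h2 h3 h4
          subst h1
          have d1 : j' = k ∨ j' = l := by
            by_contra hh
            push Not at hh
            exact c1 (fq_one (Ne.symm h1') hh.1 hh.2)
          have d2 : k' = k ∨ k' = l := by
            by_contra hh
            push Not at hh
            exact c2 (fq_one (Ne.symm h2') hh.1 hh.2)
          have d3 : l' = k ∨ l' = l := by
            by_contra hh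
            push Not at hh
            exact c3 (fq_one (Ne.symm h3') hh.1 hh.2)
          rcases d1 with d1 | d1 <;> rcases d2 with d2 | d2 <;> rcases d3 with d3 | d3
          · exact hjk' (d1.trans d2.symm)
          · exact hjk' (d1.trans d2.symm)
          · exact hjl' (d1.trans d3.symm)
          · exact hkl' (d2.trans d3.symm)
          · exact hkl' (d2.trans d3.symm)
          · exact hjl' (d1.trans d3.symm)
          · exact hjk' (d1.trans d2.symm)
          · exact hjk' (d1.trans d2.symm)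
        · simp only at h1 h2 h3 h4 h5
          have d1 : j' = j ∨ j' = k ∨ j' = l := by
            by_contra hh
            push Not at hh
            exact c1 (fq_one hh.1 hh.2.1 hh.2.2)
          have d2 : k' = j ∨ k' = k ∨ k' = l := by
            by_contra hh
            push Not at hh
            exact c2 (fq_one hh.1 hh.2.1 hh.2.2)
          have d3 : l' = j ∨ l' = k ∨ l' = l := by
            by_contra hh
            push Not at hh
            exact c3 (fq_one hh.1 hh.2.1 hh.2.2)
          have r1 : ρ j' = ρ j ∨ ρ j' = ρ k ∨ ρ j' = ρ l := by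
            rcases d1 with d | d | d <;> simp [d]
          have r2 : ρ k' = ρ j ∨ ρ k' = ρ k ∨ ρ k' = ρ l := by
            rcases d2 with d | d | d <;> simp [d]
          have r3 : ρ l' = ρ j ∨ ρ l' = ρ k ∨ ρ l' = ρ l := by
            rcases d3 with d | d | d <;> simp [d]
          have s1 : ρ j' = ρ j := by omega
          have s2 : ρ k' = ρ k := by omega
          have s3 : ρ l' = ρ l := by omega
          have t1 : j' = j := by
            rcases d1 with d | d | d
            · exact d
            · rw [d] at s1; omega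
            · rw [d] at s1; omega
          have t2 : k' = k := by
            rcases d2 with d | d | d
            · rw [d] at s2; omega
            · exact d
            · rw [d] at s2; omega
          have t3 : l' = l := by
            rcases d3 with d | d | d
            · rw [d] at s3; omega
            · rw [d] at s3; omega
            · exact d
          exact hne (by rw [t1, t2, t3])
      simp only [map_mul, map_inv]
      rcases key with key | key | key
      · rw [key, t1, sub_self]
      · rw [key, t2, sub_self]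
      · rw [key, t3, sub_self]
    · rw [TTe_fix hi, sub_self]

end Core2

open Core2 in
theorem core2 {α : Type} [DecidableEq α] [Fintype α] {ρ : α → ℕ} (hρ : Function.Injective ρ)
    (N : Subgroup (MulAut (FreeGroup α))) [N.Normal] (hTB : N ≤ TB α)
    (hcube : ∀ x a : Lt α, eAut x a * eAut x a * eAut x a ∈ N)
    (E : Lt α → Lt α → MulAut (FreeGroup α) ⧸ N)
    (hE : E = fun x a => QuotientGroup.mk' N (eAut x a))
    (hnor : (N2 E).Normal)
    (hcom : ∀ u ∈ N2 E, ∀ v ∈ N2 E, Commute u v)
    (hcub : ∀ u ∈ N2 E, u * u * u = 1)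
    (hgen : ∀ Q : Subgroup (MulAut (FreeGroup α) ⧸ N),
      (∀ i j k : α, i ≠ j → i ≠ k → ρ j < ρ k → DD E (i, true) (j, true) (k, true) ∈ Q) →
      (∀ i j k l : α, i ≠ j → i ≠ k → i ≠ l → ρ j < ρ k → ρ k < ρ l →
        TT E (i, true) (j, true) (k, true) (l, true) ∈ Q) → N2 E ≤ Q)
    {ψ : MulAut (FreeGroup α)} (hψ : ψ ∈ TB α) : ψ ∈ N := by
  let π : MulAut (FreeGroup α) →* MulAut (FreeGroup α) ⧸ N := QuotientGroup.mk' N
  have hπ : ∀ g, π g = 1 ↔ g ∈ N := fun g => QuotientGroup.eq_one_iff g
  have hE' : ∀ x a, E x a = π (eAut x a) := by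
    intro x a
    rw [hE]
  have hKE : ∀ y z : Lt α, KK E y z = π (KK eAut y z) := by
    intro y z
    unfold KK
    rw [hE', hE', map_mul]
  have hME : ∀ x y z : Lt α, MM E x y z = π (MM eAut x y z) := by
    intro x y z
    unfold MM
    rw [hE', hE', map_mul, map_mul, map_mul, map_inv, map_inv]
  have hDE : ∀ y a b : Lt α, DD E y a b = π (DD eAut y a b) := by
    intro y a b
    unfold DD cm
    rw [hKE, hKE, map_mul, map_mul, map_mul, map_inv, map_inv]
  have hTE : ∀ x a b c : Lt α, TT E x a b c = π (TT eAut x a b c) := by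
    intro x a b c
    unfold TT cm
    rw [hE', hME, map_mul, map_mul, map_mul, map_inv, map_inv]
  have hN0 : N0 α ≤ (N2 E).comap π := by
    have hn : ((N2 E).comap π).Normal := hnor.comap π
    unfold N0
    apply Subgroup.normalClosure_le_normal
    rintro _ (⟨x, a, rfl⟩ | ⟨x, a, b, h1, h2, rfl⟩)
    · show π (eAut x a * eAut x a * eAut x a) ∈ N2 E
      rw [(hπ _).2 (hcube x a)]
      exact one_mem _
    · show π (DD eAut x a b) ∈ N2 E
      rw [← hDE]
      by_cases h3 : a.1 = b.1
      · have h4 : DD E x a b = 1 := by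
          rcases fst_eq_iff.1 h3 with h | h
          · rw [h]
            unfold DD cm
            group
          · rw [hDE, h]
            unfold DD cm
            rw [KK_nv' rel_aut]
            group
            exact map_one π
        rw [h4]
        exact one_mem _
      · exact Subgroup.subset_closure (Or.inl ⟨x, a, b, h1, h2, h3, rfl⟩)
  have hψN : π ψ ∈ N2 E := hN0 (core hρ (TB_le_TK hψ))
  -- generators
  let g : α × α × α × α → MulAut (FreeGroup α) ⧸ N := fun b => π (Gq b)
  have gN2 : ∀ b, Vq ρ b → g b ∈ N2 E := by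
    rintro ⟨i, j, k, l⟩ hb
    show π (Gq (i, j, k, l)) ∈ N2 E
    rcases hb with ⟨h1, h2, h3, h4⟩ | ⟨h1, h2, h3, h4, h5⟩
    · simp only at h1 h2 h3 h4
      subst h1
      have e : Gq (i, i, k, l) = DD eAut (i, true) (k, true) (l, true) := if_pos rfl
      rw [e, ← hDE]
      exact Subgroup.subset_closure (Or.inl ⟨_, _, _, h2, h3, ne_of_lt h4, rfl⟩)
    · simp only at h1 h2 h3 h4 h5
      have e : Gq (i, j, k, l) = TT eAut (i, true) (j, true) (k, true) (l, true) := if_neg h1
      rw [e, ← hTE]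
      exact Subgroup.subset_closure (Or.inr ⟨_, _, _, _, h1, h2, h3, ne_of_lt h4,
        ne_of_lt (h4.trans h5), ne_of_lt h5, rfl⟩)
  have hlift : ∀ (T : Finset (α × α × α × α)),
      ∀ c ∈ Subgroup.closure (g '' (T : Set (α × α × α × α))),
      ∃ κ ∈ Subgroup.closure (Gq '' (T : Set (α × α × α × α))), π κ = c := by
    intro T c hc
    have : g '' (T : Set (α × α × α × α)) = π '' (Gq '' (T : Set (α × α × α × α))) := by
      rw [Set.image_image]
    rw [this, ← MonoidHom.map_closure] at hc
    obtain ⟨κ, hκ, rfl⟩ := hc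
    exact ⟨κ, hκ, rfl⟩
  have hD0 : ∀ (b : α × α × α × α) (T : Finset (α × α × α × α)), Vq ρ b → (∀ t ∈ T, Vq ρ t) →
      b ∉ T → ∀ κ ∈ Subgroup.closure (Gq '' (T : Set (α × α × α × α))),
        κ ∈ TK α ∧ Dt (fq b) κ (gl (b.1, true)) = 0 := by
    intro b T hb hT hbT κ hκ
    induction hκ using Subgroup.closure_induction with
    | mem x hx =>
      obtain ⟨t, ht, rfl⟩ := hx
      refine ⟨Gq_TK (hT t ht), DQ_other hb (hT t ht) ?_⟩
      rintro rfl
      exact hbT ht
    | one => exact ⟨one_mem _, Dt_one _ _⟩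
    | mul x y _ _ h1 h2 =>
      refine ⟨mul_mem h1.1 h2.1, ?_⟩
      rw [Dt_mul h2.1 h1.1, h1.2, h2.2, add_zero]
    | inv x _ h =>
      refine ⟨inv_mem h.1, ?_⟩
      rw [Dt_inv h.1, h.2, neg_zero]
  have hclaim : ∀ (T : Finset (α × α × α × α)), (∀ t ∈ T, Vq ρ t) →
      ∀ κ : MulAut (FreeGroup α),
      π κ ∈ Subgroup.closure (g '' (T : Set (α × α × α × α))) → κ ∈ TB α → π κ = 1 := by
    intro T
    induction T using Finset.induction_on with
    | empty => intro _ κ h _; simpa using h
    | insert b T hb ih =>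
      intro hT κ h hs
      have hbV : Vq ρ b := hT b (Finset.mem_insert_self _ _)
      have hT' : ∀ t ∈ T, Vq ρ t := fun t ht => hT t (Finset.mem_insert_of_mem ht)
      obtain ⟨c, hc, hce⟩ := Inj.split (A := g '' (T : Set (α × α × α × α))) (g := g b)
        (A' := g '' ((insert b T : Finset (α × α × α × α)) : Set (α × α × α × α)))
        (by
          rintro _ ⟨t, ht, rfl⟩
          rw [Finset.mem_coe, Finset.mem_insert] at ht
          rcases ht with rfl | ht
          · exact Or.inr (Or.inl rfl)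
          · exact Or.inl ⟨t, ht, rfl⟩)
        (by
          rintro _ ⟨t, ht, rfl⟩
          exact hcom _ (gN2 b hbV) _ (gN2 t (hT' t ht)))
        (hcub _ (gN2 b hbV)) h
      obtain ⟨κ', hκ', hκe⟩ := hlift T c hc
      have hD := hD0 b T hbV hT' hb κ' hκ'
      rcases hce with hce | hce | hce
      · exact ih hT' κ (hce ▸ hc) hs
      · exfalso
        have h5 : κ' * Gq b * κ⁻¹ ∈ N := by
          rw [← hπ, map_mul, map_mul, map_inv, hκe, hce]
          exact mul_inv_cancel _
        have h6 := mul_mem (hTB h5) hs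
        rw [inv_mul_cancel_right] at h6
        have h7 := Dt_TB h6 (fq b) (gl (b.1, true))
        rw [Dt_mul (Gq_TK hbV) hD.1, hD.2, zero_add] at h7
        exact DQ_self hbV h7
      · exfalso
        have h5 : κ' * (Gq b)⁻¹ * κ⁻¹ ∈ N := by
          rw [← hπ, map_mul, map_mul, map_inv, map_inv, hκe, hce]
          exact mul_inv_cancel _
        have h6 := mul_mem (hTB h5) hs
        rw [inv_mul_cancel_right] at h6
        have h7 := Dt_TB h6 (fq b) (gl (b.1, true))
        rw [Dt_mul (inv_mem (Gq_TK hbV)) hD.1, hD.2, Dt_inv (Gq_TK hbV), zero_add,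
          neg_eq_zero] at h7
        exact DQ_self hbV h7
  classical
  rw [← hπ]
  refine hclaim (Finset.univ.filter (fun b => Vq ρ b)) (fun t ht => (Finset.mem_filter.1 ht).2) ψ
    (hgen _ ?_ ?_ hψN) hψ
  · intro i k l hik hil hkl
    refine Subgroup.subset_closure ⟨(i, i, k, l), ?_, ?_⟩
    · rw [Finset.mem_coe, Finset.mem_filter]
      exact ⟨Finset.mem_univ _, Or.inl ⟨rfl, hik, hil, hkl⟩⟩
    · have e : Gq (i, i, k, l) = DD eAut (i, true) (k, true) (l, true) := if_pos rfl
      show π (Gq (i, i, k, l)) = _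
      rw [e, hDE]
  · intro i j k l hij hik hil hjk hkl
    refine Subgroup.subset_closure ⟨(i, j, k, l), ?_, ?_⟩
    · rw [Finset.mem_coe, Finset.mem_filter]
      exact ⟨Finset.mem_univ _, Or.inr ⟨hij, hik, hil, hjk, hkl⟩⟩
    · have e : Gq (i, j, k, l) = TT eAut (i, true) (j, true) (k, true) (l, true) := if_neg hij
      show π (Gq (i, j, k, l)) = _
      rw [e, hTE]

end Pool.Agent.TH271.CV
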