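import Pool.Agent.TH271.CU.Burn

set_option autoImplicit false
set_option linter.unusedSectionVars false

namespace Pool.Agent.TH271.CV
open Pool.Agent.Helper156.OF Pool.Agent.TH271.CU

/-- Quadruples of elements closed under the elementary operations, with all cubes trivial. -/
structure B4 {G : Type} [Group G] (Q : G → G → G → G → Prop) : Prop where
  cube : ∀ a b c d, Q a b c d → a * a * a = 1
  s01 : ∀ a b c d, Q a b c d → Q b a c d
  s12 : ∀ a b c d, Q a b c d → Q a c b d
  s23 : ∀ a b c d, Q a b c d → Q a b d c
  inv : ∀ a b c d, Q a b c d → Q a⁻¹ b c d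
  mul : ∀ a b c d, Q a b c d → Q (a * b) b c d

section

variable {α P : Type} [DecidableEq α] [Fintype α] [Group P]

/-- triple commutator transvection `x ↦ x [a, [b, c]]` -/
def TT (E : Lt α → Lt α → P) (x a b c : Lt α) : P := cm (E x a) (MM E x b c)

/-- commutator of partial conjugations of `y` -/
def DD (E : Lt α → Lt α → P) (y a b : Lt α) : P := cm (KK E y a) (KK E y b)

/-- triple commutator of partial conjugations of `p` -/
def FF (E : Lt α → Lt α → P) (p a b c : Lt α) : P := cm (KK E p a) (DD E p b c)

end

end Pool.Agent.TH271.CV
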