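import Pool.Agent.TH271.CV.Inst
import Pool.Agent.TH496.FFx

/-! Facts on the commutators `FF` (the proofs are in `FFx`). -/

set_option autoImplicit false
set_option linter.unreachableTactic false
set_option linter.unusedTactic false
set_option linter.unusedSectionVars false
set_option linter.unusedVariables false

namespace Pool.Agent.TH271.CV
open Pool.Agent.Helper156.OF Pool.Agent.TH271.CU

section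

variable {α P : Type} [DecidableEq α] [Fintype α] [Group P]
variable {W : SP α →* P} {E : Lt α → Lt α → P}
variable (R : Rel W E) (cb : ∀ x a : Lt α, E x a * E x a * E x a = 1)
  (hn : 5 ≤ Fintype.card α)

include R cb hn

lemma FF_indep (p q a b c : Lt α) (h0 : p.1 ≠ q.1) (h1 : p.1 ≠ a.1)
    (h2 : p.1 ≠ b.1) (h3 : p.1 ≠ c.1) (h4 : a.1 ≠ b.1)
    (h5 : a.1 ≠ c.1) (h6 : b.1 ≠ c.1) (h7 : q.1 ≠ a.1)
    (h8 : q.1 ≠ b.1) (h9 : q.1 ≠ c.1) :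
    FF E p a b c = FF E q a b c :=
  Pool.Agent.TH496.FFx.FF_indep R cb hn p q a b c h0 h1 h2 h3 h4 h5 h6 h7 h8 h9

/-- `q` outside `a, b, c`. -/
lemma FF_E (p a b c q w : Lt α) (h1 : p.1 ≠ a.1)
    (h2 : p.1 ≠ b.1) (h3 : p.1 ≠ c.1) (h4 : a.1 ≠ b.1)
    (h5 : a.1 ≠ c.1) (h6 : b.1 ≠ c.1) (h7 : q.1 ≠ a.1)
    (h8 : q.1 ≠ b.1) (h9 : q.1 ≠ c.1) (h10 : q.1 ≠ w.1) :
    Commute (FF E p a b c) (E q w) :=
  Pool.Agent.TH496.FFx.FF_E R cb hn p a b c q w h1 h2 h3 h4 h5 h6 h7 h8 h9 h10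

/-- `w` outside `p, a, b, c`. -/
lemma FF_conj (p a b c w : Lt α) (h1 : p.1 ≠ a.1)
    (h2 : p.1 ≠ b.1) (h3 : p.1 ≠ c.1) (h4 : a.1 ≠ b.1)
    (h5 : a.1 ≠ c.1) (h6 : b.1 ≠ c.1) (h7 : w.1 ≠ a.1)
    (h8 : w.1 ≠ b.1) (h9 : w.1 ≠ c.1) (h10 : p.1 ≠ w.1) :
    E a w * FF E p a b c * (E a w)⁻¹ = FF E p a b c * FF E p w b c :=
  Pool.Agent.TH496.FFx.FF_conj R cb hn p a b c w h1 h2 h3 h4 h5 h6 h7 h8 h9 h10

lemma FF_KK (p a b c i j : Lt α) (h1 : p.1 ≠ a.1)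
    (h2 : p.1 ≠ b.1) (h3 : p.1 ≠ c.1) (h4 : a.1 ≠ b.1)
    (h5 : a.1 ≠ c.1) (h6 : b.1 ≠ c.1) (hij : i.1 ≠ j.1) :
    Commute (FF E p a b c) (KK E i j) :=
  Pool.Agent.TH496.FFx.FF_KK R cb hn p a b c i j h1 h2 h3 h4 h5 h6 hij

lemma FF_MM (p a b c i j k : Lt α) (h1 : p.1 ≠ a.1)
    (h2 : p.1 ≠ b.1) (h3 : p.1 ≠ c.1) (h4 : a.1 ≠ b.1)
    (h5 : a.1 ≠ c.1) (h6 : b.1 ≠ c.1) (hij : i.1 ≠ j.1)
    (hik : i.1 ≠ k.1) (hjk : j.1 ≠ k.1) :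
    Commute (FF E p a b c) (MM E i j k) :=
  Pool.Agent.TH496.FFx.FF_MM R cb hn p a b c i j k h1 h2 h3 h4 h5 h6 hij hik hjk

lemma FF_TT (p a b c i j k l : Lt α) (h1 : p.1 ≠ a.1)
    (h2 : p.1 ≠ b.1) (h3 : p.1 ≠ c.1) (h4 : a.1 ≠ b.1)
    (h5 : a.1 ≠ c.1) (h6 : b.1 ≠ c.1) (hij : i.1 ≠ j.1)
    (hik : i.1 ≠ k.1) (hil : i.1 ≠ l.1) (hjk : j.1 ≠ k.1)
    (hjl : j.1 ≠ l.1) (hkl : k.1 ≠ l.1) :
    Commute (FF E p a b c) (TT E i j k l) :=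
  Pool.Agent.TH496.FFx.FF_TT R cb hn p a b c i j k l h1 h2 h3 h4 h5 h6 hij hik hil hjk hjl hkl

end

end Pool.Agent.TH271.CV
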