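import Pool.Agent.TH271.CV.Act
import Pool.Agent.TH271.CV.FFacts

set_option autoImplicit false
set_option linter.unreachableTactic false
set_option linter.unusedTactic false
set_option linter.unusedSectionVars false
set_option linter.unusedVariables false

namespace Pool.Agent.TH271.CV
open Pool.Agent.Helper156.OF Pool.Agent.TH271.CU

namespace Key

section grp

variable {G : Type} [Group G]

lemma cj_cm (g a b : G) : g * cm a b * g⁻¹ = cm (g * a * g⁻¹) (g * b * g⁻¹) := by
  unfold cm; group

lemma cm_cm {g a b : G} (h1 : Commute g a) (h2 : Commute g b) : Commute g (cm a b) :=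
  ((h1.mul_right h2).mul_right h1.inv_right).mul_right h2.inv_right

lemma fix {g a : G} (h : Commute g a) : g * a * g⁻¹ = a := by rw [h.eq, mul_inv_cancel_right]

lemma cj_mul (g a b : G) : g * (a * b) * g⁻¹ = (g * a * g⁻¹) * (g * b * g⁻¹) := by group

/-- `cm a (b * t) = cm a b * cm a t` if `cm a t` commutes with `b` -/
lemma cm_mul_right {a b t : G} (h : Commute (cm a t) b) : cm a (b * t) = cm a b * cm a t := by
  have e : cm a (b * t) = a * b * a⁻¹ * (cm a t * b⁻¹) := by unfold cm; group
  rw [e, (h.inv_right).eq]; unfold cm; group

/-- `cm (a * t) b = cm t b * cm a b` if `cm t b` commutes with `a` -/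
lemma cm_mul_left {a b t : G} (h : Commute (cm t b) a) : cm (a * t) b = cm t b * cm a b := by
  have e : cm (a * t) b = (a * cm t b) * (b * a⁻¹ * b⁻¹) := by unfold cm; group
  rw [e, ← h.eq]; unfold cm; group

lemma cm_inv_left {a b : G} (h : Commute (cm a b) a) : cm a⁻¹ b = (cm a b)⁻¹ := by
  have e : cm a⁻¹ b = a⁻¹ * (cm a b)⁻¹ * a := by unfold cm; group
  rw [e, mul_assoc, h.inv_left.eq]; group

lemma of_cj {g a t : G} (h : g * a * g⁻¹ = a * t) : g * a = a * t * g := by
  rw [← h]; group

/-- `g a g⁻¹ = t a` and `t` commutes with `a`: then `a g a⁻¹ = t⁻¹ g`. -/
lemma flip {g a t : G} (h : g * a * g⁻¹ = t * a) (ht : Commute t a) : a * g * a⁻¹ = t⁻¹ * g := by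
  have h1 : g * a = t * a * g := by rw [← h]; group
  have h2 : a * g = t⁻¹ * (g * a) := by rw [h1]; group
  rw [h2]; group

/-- `g a g⁻¹ = a t` and `t` commutes with `a`: then `a g a⁻¹ = t⁻¹ g`. -/
lemma flip' {g a t : G} (h : g * a * g⁻¹ = a * t) (ht : Commute t a) : a * g * a⁻¹ = t⁻¹ * g :=
  flip (h.trans ht.eq.symm) ht

lemma comm_act {e n X z : G} (h : n * X * n⁻¹ = X * z) (eX : Commute e X) (ez : Commute e z)
    (nz : Commute n z) : Commute (cm e n) X := by
  have h1 : n * X = X * z * n := of_cj h
  have h2 : (e * n) * X = X * z * (e * n) := by
    calc (e * n) * X = e * (n * X) := by group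
      _ = (e * X) * (z * n) := by rw [h1]; group
      _ = X * (e * z) * n := by rw [eX.eq]; group
      _ = _ := by rw [ez.eq]; group
  have h3 : (n * e) * X = X * z * (n * e) := by
    calc (n * e) * X = n * (e * X) := by group
      _ = (n * X) * e := by rw [eX.eq]; group
      _ = _ := by rw [h1]; group
  have h4 : Commute z (n * e) := nz.symm.mul_right ez.symm
  have h5 : Commute z (e * n) := ez.symm.mul_right nz.symm
  have h6 : (n * e)⁻¹ * X = X * z⁻¹ * (n * e)⁻¹ := by
    calc (n * e)⁻¹ * X = (n * e)⁻¹ * (X * z * (n * e)) * (z⁻¹ * (n * e)⁻¹) := by
          rw [mul_assoc X z, h4.eq]; group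
      _ = (n * e)⁻¹ * ((n * e) * X) * (z⁻¹ * (n * e)⁻¹) := by rw [h3]
      _ = _ := by group
  have e1 : cm e n = (e * n) * (n * e)⁻¹ := by unfold cm; group
  show cm e n * X = X * cm e n
  rw [e1]
  calc (e * n) * (n * e)⁻¹ * X = (e * n) * ((n * e)⁻¹ * X) := by group
    _ = ((e * n) * X) * z⁻¹ * (n * e)⁻¹ := by rw [h6]; group
    _ = X * (z * (e * n)) * z⁻¹ * (n * e)⁻¹ := by rw [h2]; group
    _ = X * ((e * n) * z) * z⁻¹ * (n * e)⁻¹ := by rw [h5.eq]
    _ = _ := by group

/-- `cm a (s * b) = cm a b` if `s` commutes with `a` and with `cm a b`. -/
lemma cm_drop {a s b : G} (h1 : Commute s a) (h2 : Commute s (cm a b)) :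
    cm a (s * b) = cm a b := by
  have e : cm a (s * b) = (a * s) * (b * a⁻¹ * b⁻¹ * s⁻¹) := by unfold cm; group
  rw [e, ← h1.eq]
  have e2 : s * a * (b * a⁻¹ * b⁻¹ * s⁻¹) = s * cm a b * s⁻¹ := by unfold cm; group
  rw [e2, fix h2]

lemma cj_inv (g a : G) : g * a⁻¹ * g⁻¹ = (g * a * g⁻¹)⁻¹ := by group

lemma comm_of_cj {g a : G} (h : g * a * g⁻¹ = a) : Commute g a := by
  show g * a = a * g
  rw [← mul_inv_eq_iff_eq_mul]; exact h

lemma kfin {M K D T f b : G} (hb : M * K * M⁻¹ = b * K) (hd : M * D * M⁻¹ = f⁻¹ * D)
    (he : T * K * T⁻¹ = K * f) (TD : Commute T D) (TM : Commute T M) (fK : Commute f K)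
    (fM : Commute f M) (fT : Commute f T) (fD : Commute f D) :
    cm (T⁻¹ * M) (K * D) = b * f⁻¹ * f⁻¹ := by
  have hb' : b = cm M K := by
    unfold cm
    rw [hb]; group
  have e1 : T⁻¹ * K * T = K * f⁻¹ := by
    have h1 : T * K = K * f * T := by rw [← he]; group
    have h2 : K * T = T * (K * f⁻¹) := by
      calc K * T = K * f * T * f⁻¹ := by
            rw [mul_assoc (K * f) T, ← (fT.inv_left).eq]; group
        _ = T * K * f⁻¹ := by rw [← h1]
        _ = _ := by group
    rw [mul_assoc, h2]; group
  have e2 : T⁻¹ * b * T = b := by
    have h1 := cj_cm T⁻¹ M K
    rw [inv_inv, e1, ← hb'] at h1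
    have h2 : T⁻¹ * M * T = M := by rw [mul_assoc, ← TM.eq]; group
    rw [h1, h2]
    have h3 : Commute (cm M f⁻¹) K := by
      have : cm M f⁻¹ = 1 := by
        unfold cm
        rw [(fM.symm.inv_right).eq]; group
      rw [this]; exact Commute.one_left _
    rw [cm_mul_right h3]
    have : cm M f⁻¹ = 1 := by
      unfold cm
      rw [(fM.symm.inv_right).eq]; group
    rw [this, mul_one, hb']
  have e3 : T⁻¹ * D * T = D := by rw [mul_assoc, ← TD.eq]; group
  have e4 : T⁻¹ * f⁻¹ * T = f⁻¹ := by rw [mul_assoc, (fT.inv_left).eq]; group
  calc cm (T⁻¹ * M) (K * D)
      = T⁻¹ * ((M * K * M⁻¹) * (M * D * M⁻¹)) * T * (K * D)⁻¹ := by unfold cm; group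
    _ = (T⁻¹ * b * T) * (T⁻¹ * K * T) * (T⁻¹ * f⁻¹ * T) * (T⁻¹ * D * T) * (K * D)⁻¹ := by
        rw [hb, hd]; group
    _ = b * (K * f⁻¹) * f⁻¹ * D * (K * D)⁻¹ := by rw [e1, e2, e3, e4]
    _ = b * K * (f⁻¹ * f⁻¹) * K⁻¹ := by group
    _ = b * (K * (f⁻¹ * f⁻¹)) * K⁻¹ := by group
    _ = b * ((f⁻¹ * f⁻¹) * K) * K⁻¹ := by rw [((fK.inv_left).mul_left fK.inv_left).eq]
    _ = _ := by group

end grp

end Key

open Key

section

variable {α P : Type} [DecidableEq α] [Fintype α] [Group P]
variable {W : SP α →* P} {E : Lt α → Lt α → P}
variable (R : Rel W E) (cb : ∀ x a : Lt α, E x a * E x a * E x a = 1)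
  (hn : 5 ≤ Fintype.card α)

include R

lemma EE_comm (x y a b : Lt α) (h1 : x.1 ≠ y.1) (h2 : x.1 ≠ b.1)
    (h3 : y.1 ≠ a.1) : Commute (E x a) (E y b) :=
  R.e2 x y a b (fun h => h1 (by rw [h])) h2 h3

/-- `MM l k i` commutes with `E m w` for `w` different from `l` and `m` outside `k, i` -/
lemma MM_E_comm (l k i m w : Lt α) (h1 : l.1 ≠ m.1) (h2 : l.1 ≠ w.1)
    (h3 : m.1 ≠ k.1) (h4 : m.1 ≠ i.1) : Commute (MM E l k i) (E m w) := by
  have a1 := EE_comm R l m k w (by first | assumption | (apply Ne.symm; assumption)) (by first | assumption | (apply Ne.symm; assumption)) (by first | assumption | (apply Ne.symm; assumption))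
  have a2 := EE_comm R l m i w (by first | assumption | (apply Ne.symm; assumption)) (by first | assumption | (apply Ne.symm; assumption)) (by first | assumption | (apply Ne.symm; assumption))
  show Commute (cm (E l k) (E l i)) (E m w)
  exact (cm_cm a1.symm a2.symm).symm

lemma MM_KK_comm (l k i m w : Lt α) (h1 : l.1 ≠ m.1) (h2 : l.1 ≠ w.1)
    (h3 : m.1 ≠ k.1) (h4 : m.1 ≠ i.1) : Commute (MM E l k i) (KK E m w) :=
  (MM_E_comm R l k i m w (by first | assumption | (apply Ne.symm; assumption)) (by first | assumption | (apply Ne.symm; assumption)) (by first | assumption | (apply Ne.symm; assumption)) (by first | assumption | (apply Ne.symm; assumption))).mul_right (MM_E_comm R l k i (nv m) w (by first | assumption | (apply Ne.symm; assumption)) (by first | assumption | (apply Ne.symm; assumption)) (by first | assumption | (apply Ne.symm; assumption)) (by first | assumption | (apply Ne.symm; assumption)))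

/-- `MM l k i` commutes with `E (nv l) w` -/
lemma MM_nvE' (l k i w : Lt α) (h1 : l.1 ≠ k.1) (h2 : l.1 ≠ i.1)
    (h3 : l.1 ≠ w.1) : Commute (MM E l k i) (E (nv l) w) :=
  MM_nvE R h1 h2 h3

include cb hn

lemma TT_KK (x a b c w : Lt α) (h1 : x.1 ≠ a.1) (h2 : x.1 ≠ b.1)
    (h3 : x.1 ≠ c.1) (h4 : a.1 ≠ b.1) (h5 : a.1 ≠ c.1)
    (h6 : b.1 ≠ c.1) (h7 : x.1 ≠ w.1) : Commute (TT E x a b c) (KK E x w) :=
  (TT_E R cb hn x a b c w (by first | assumption | (apply Ne.symm; assumption)) (by first | assumption | (apply Ne.symm; assumption)) (by first | assumption | (apply Ne.symm; assumption)) (by first | assumption | (apply Ne.symm; assumption)) (by first | assumption | (apply Ne.symm; assumption)) (by first | assumption | (apply Ne.symm; assumption)) (by first | assumption | (apply Ne.symm; assumption))).mul_right (TT_nvE R cb hn x a b c w (by first | assumption | (apply Ne.symm; assumption)) (by first | assumption | (apply Ne.symm; assumption)) (by first | assumption | (apply Ne.symm; assumption)) (by first | assumption | (apply Ne.symm; assumption)))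

lemma FF_DD (p a b c i j k : Lt α) (h1 : p.1 ≠ a.1)
    (h2 : p.1 ≠ b.1) (h3 : p.1 ≠ c.1) (h4 : a.1 ≠ b.1)
    (h5 : a.1 ≠ c.1) (h6 : b.1 ≠ c.1) (hij : i.1 ≠ j.1)
    (hik : i.1 ≠ k.1) : Commute (FF E p a b c) (DD E i j k) :=
  cm_cm (FF_KK R cb hn p a b c i j (by first | assumption | (apply Ne.symm; assumption)) (by first | assumption | (apply Ne.symm; assumption)) (by first | assumption | (apply Ne.symm; assumption)) (by first | assumption | (apply Ne.symm; assumption)) (by first | assumption | (apply Ne.symm; assumption)) (by first | assumption | (apply Ne.symm; assumption)) (by first | assumption | (apply Ne.symm; assumption))) (FF_KK R cb hn p a b c i k (by first | assumption | (apply Ne.symm; assumption)) (by first | assumption | (apply Ne.symm; assumption)) (by first | assumption | (apply Ne.symm; assumption)) (by first | assumption | (apply Ne.symm; assumption)) (by first | assumption | (apply Ne.symm; assumption)) (by first | assumption | (apply Ne.symm; assumption)) (by first | assumption | (apply Ne.symm; assumption)))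

/-- kappa -/
lemma kappa (i j k l m : Lt α) (h1 : i.1 ≠ j.1) (h2 : i.1 ≠ k.1)
    (h3 : i.1 ≠ l.1) (h4 : i.1 ≠ m.1) (h5 : j.1 ≠ k.1)
    (h6 : j.1 ≠ l.1) (h7 : j.1 ≠ m.1) (h8 : k.1 ≠ l.1)
    (h9 : k.1 ≠ m.1) (h10 : l.1 ≠ m.1) :
    MM E m j l * TT E l m k i * (MM E m j l)⁻¹ =
      TT E l m k i * (FF E l j k i * FF E l j k i) := by
  -- (a)
  have ha : MM E l k i * KK E l m * (MM E l k i)⁻¹ = (TT E l m k i)⁻¹ * KK E l m := by
    have c1 := MM_nvE' R l k i m (by first | assumption | (apply Ne.symm; assumption)) (by first | assumption | (apply Ne.symm; assumption)) (by first | assumption | (apply Ne.symm; assumption))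
    unfold KK
    rw [cj_mul, fix c1]
    have : MM E l k i * E l m * (MM E l k i)⁻¹ = (TT E l m k i)⁻¹ * E l m := by
      unfold TT cm; group
    rw [this]; group
  have hbcm : cm (MM E l k i) (KK E l m) = (TT E l m k i)⁻¹ := by
    unfold cm
    rw [ha]; group
  -- (b)
  have CD : Commute (MM E m j l) (DD E m l j) := by
    rw [DD_eq R m l j (by first | assumption | (apply Ne.symm; assumption)) (by first | assumption | (apply Ne.symm; assumption)), MM_swap (E := E) m l j]
    exact ((Commute.refl _).inv_left).mul_right
      (cm_cm (MM_nvE' R m l j l (by first | assumption | (apply Ne.symm; assumption)) (by first | assumption | (apply Ne.symm; assumption)) (by first | assumption | (apply Ne.symm; assumption))) (MM_nvE' R m l j j (by first | assumption | (apply Ne.symm; assumption)) (by first | assumption | (apply Ne.symm; assumption)) (by first | assumption | (apply Ne.symm; assumption)))).inv_left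
  have hb : MM E m j l * KK E l m * (MM E m j l)⁻¹ = KK E l m * DD E m l j := by
    have r := KK_MMx R cb hn m j l (by first | assumption | (apply Ne.symm; assumption)) (by first | assumption | (apply Ne.symm; assumption)) (by first | assumption | (apply Ne.symm; assumption))
    have r2 : MM E m j l * KK E l m = KK E l m * (MM E m j l * DD E m l j) := by
      rw [← r]; group
    rw [r2, CD.eq]; group
  -- (c)
  have TmL := TT_E R cb hn m j k i l (by first | assumption | (apply Ne.symm; assumption)) (by first | assumption | (apply Ne.symm; assumption)) (by first | assumption | (apply Ne.symm; assumption)) (by first | assumption | (apply Ne.symm; assumption)) (by first | assumption | (apply Ne.symm; assumption)) (by first | assumption | (apply Ne.symm; assumption)) (by first | assumption | (apply Ne.symm; assumption))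
  have hc : MM E l k i * MM E m j l * (MM E l k i)⁻¹ = MM E m j l * TT E m j k i := by
    have c1 := MM_E_comm R l k i m j (by first | assumption | (apply Ne.symm; assumption)) (by first | assumption | (apply Ne.symm; assumption)) (by first | assumption | (apply Ne.symm; assumption)) (by first | assumption | (apply Ne.symm; assumption))
    have c2 := MM_Ex R cb hn m l k i (by first | assumption | (apply Ne.symm; assumption)) (by first | assumption | (apply Ne.symm; assumption)) (by first | assumption | (apply Ne.symm; assumption)) (by first | assumption | (apply Ne.symm; assumption)) (by first | assumption | (apply Ne.symm; assumption)) (by first | assumption | (apply Ne.symm; assumption))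
    show MM E l k i * cm (E m j) (E m l) * (MM E l k i)⁻¹ = cm (E m j) (E m l) * TT E m j k i
    rw [cj_cm, fix c1, c2]
    exact cm_mul_right TmL
  have TmC : Commute (TT E m j k i) (MM E m j l) :=
    cm_cm (TT_E R cb hn m j k i j (by first | assumption | (apply Ne.symm; assumption)) (by first | assumption | (apply Ne.symm; assumption)) (by first | assumption | (apply Ne.symm; assumption)) (by first | assumption | (apply Ne.symm; assumption)) (by first | assumption | (apply Ne.symm; assumption)) (by first | assumption | (apply Ne.symm; assumption)) (by first | assumption | (apply Ne.symm; assumption))) TmL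
  have hc' : MM E m j l * MM E l k i * (MM E m j l)⁻¹ = (TT E m j k i)⁻¹ * MM E l k i :=
    flip' hc TmC
  -- (d)
  have find : FF E m j k i = FF E l j k i := FF_indep R cb hn m l j k i (by first | assumption | (apply Ne.symm; assumption)) (by first | assumption | (apply Ne.symm; assumption)) (by first | assumption | (apply Ne.symm; assumption)) (by first | assumption | (apply Ne.symm; assumption)) (by first | assumption | (apply Ne.symm; assumption)) (by first | assumption | (apply Ne.symm; assumption)) (by first | assumption | (apply Ne.symm; assumption)) (by first | assumption | (apply Ne.symm; assumption)) (by first | assumption | (apply Ne.symm; assumption)) (by first | assumption | (apply Ne.symm; assumption))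
  have hd : MM E l k i * DD E m l j * (MM E l k i)⁻¹ = (FF E l j k i)⁻¹ * DD E m l j := by
    have c1 := MM_KKx R cb hn m l k i (by first | assumption | (apply Ne.symm; assumption)) (by first | assumption | (apply Ne.symm; assumption)) (by first | assumption | (apply Ne.symm; assumption)) (by first | assumption | (apply Ne.symm; assumption)) (by first | assumption | (apply Ne.symm; assumption)) (by first | assumption | (apply Ne.symm; assumption))
    have c2 := MM_KK_comm R l k i m j (by first | assumption | (apply Ne.symm; assumption)) (by first | assumption | (apply Ne.symm; assumption)) (by first | assumption | (apply Ne.symm; assumption)) (by first | assumption | (apply Ne.symm; assumption))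
    have e : cm (DD E m k i) (KK E m j) = (FF E l j k i)⁻¹ := by
      rw [← find]
      unfold FF
      rw [cm_inv]
    show MM E l k i * cm (KK E m l) (KK E m j) * (MM E l k i)⁻¹ = _ * cm (KK E m l) (KK E m j)
    rw [cj_cm, c1, fix c2, cm_mul_left, e]
    rw [e, ← find]
    exact (FF_self R cb hn m j k i l (by first | assumption | (apply Ne.symm; assumption)) (by first | assumption | (apply Ne.symm; assumption)) (by first | assumption | (apply Ne.symm; assumption)) (by first | assumption | (apply Ne.symm; assumption)) (by first | assumption | (apply Ne.symm; assumption)) (by first | assumption | (apply Ne.symm; assumption)) (by first | assumption | (apply Ne.symm; assumption))).inv_left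
  have he := TT_KKx R cb hn l m j k i (by first | assumption | (apply Ne.symm; assumption)) (by first | assumption | (apply Ne.symm; assumption)) (by first | assumption | (apply Ne.symm; assumption)) (by first | assumption | (apply Ne.symm; assumption)) (by first | assumption | (apply Ne.symm; assumption)) (by first | assumption | (apply Ne.symm; assumption)) (by first | assumption | (apply Ne.symm; assumption)) (by first | assumption | (apply Ne.symm; assumption)) (by first | assumption | (apply Ne.symm; assumption)) (by first | assumption | (apply Ne.symm; assumption))
  -- commutations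
  have TD : Commute (TT E m j k i) (DD E m l j) :=
    cm_cm (TT_KK R cb hn m j k i l (by first | assumption | (apply Ne.symm; assumption)) (by first | assumption | (apply Ne.symm; assumption)) (by first | assumption | (apply Ne.symm; assumption)) (by first | assumption | (apply Ne.symm; assumption)) (by first | assumption | (apply Ne.symm; assumption)) (by first | assumption | (apply Ne.symm; assumption)) (by first | assumption | (apply Ne.symm; assumption))) (TT_KK R cb hn m j k i j (by first | assumption | (apply Ne.symm; assumption)) (by first | assumption | (apply Ne.symm; assumption)) (by first | assumption | (apply Ne.symm; assumption)) (by first | assumption | (apply Ne.symm; assumption)) (by first | assumption | (apply Ne.symm; assumption)) (by first | assumption | (apply Ne.symm; assumption)) (by first | assumption | (apply Ne.symm; assumption)))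
  have TM : Commute (TT E m j k i) (MM E l k i) := by
    have a1 := MM_E_comm R l k i m j (by first | assumption | (apply Ne.symm; assumption)) (by first | assumption | (apply Ne.symm; assumption)) (by first | assumption | (apply Ne.symm; assumption)) (by first | assumption | (apply Ne.symm; assumption))
    have a2 := MM_E_comm R l k i m k (by first | assumption | (apply Ne.symm; assumption)) (by first | assumption | (apply Ne.symm; assumption)) (by first | assumption | (apply Ne.symm; assumption)) (by first | assumption | (apply Ne.symm; assumption))
    have a3 := MM_E_comm R l k i m i (by first | assumption | (apply Ne.symm; assumption)) (by first | assumption | (apply Ne.symm; assumption)) (by first | assumption | (apply Ne.symm; assumption)) (by first | assumption | (apply Ne.symm; assumption))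
    exact (cm_cm a1 (cm_cm a2 a3)).symm
  have fK := FF_KK R cb hn l j k i l m (by first | assumption | (apply Ne.symm; assumption)) (by first | assumption | (apply Ne.symm; assumption)) (by first | assumption | (apply Ne.symm; assumption)) (by first | assumption | (apply Ne.symm; assumption)) (by first | assumption | (apply Ne.symm; assumption)) (by first | assumption | (apply Ne.symm; assumption)) (by first | assumption | (apply Ne.symm; assumption))
  have fM := FF_MM R cb hn l j k i l k i (by first | assumption | (apply Ne.symm; assumption)) (by first | assumption | (apply Ne.symm; assumption)) (by first | assumption | (apply Ne.symm; assumption)) (by first | assumption | (apply Ne.symm; assumption)) (by first | assumption | (apply Ne.symm; assumption)) (by first | assumption | (apply Ne.symm; assumption)) (by first | assumption | (apply Ne.symm; assumption)) (by first | assumption | (apply Ne.symm; assumption)) (by first | assumption | (apply Ne.symm; assumption))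
  have fT := FF_TT R cb hn l j k i m j k i (by first | assumption | (apply Ne.symm; assumption)) (by first | assumption | (apply Ne.symm; assumption)) (by first | assumption | (apply Ne.symm; assumption)) (by first | assumption | (apply Ne.symm; assumption)) (by first | assumption | (apply Ne.symm; assumption)) (by first | assumption | (apply Ne.symm; assumption)) (by first | assumption | (apply Ne.symm; assumption)) (by first | assumption | (apply Ne.symm; assumption)) (by first | assumption | (apply Ne.symm; assumption)) (by first | assumption | (apply Ne.symm; assumption)) (by first | assumption | (apply Ne.symm; assumption)) (by first | assumption | (apply Ne.symm; assumption))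
  have fD := FF_DD R cb hn l j k i m l j (by first | assumption | (apply Ne.symm; assumption)) (by first | assumption | (apply Ne.symm; assumption)) (by first | assumption | (apply Ne.symm; assumption)) (by first | assumption | (apply Ne.symm; assumption)) (by first | assumption | (apply Ne.symm; assumption)) (by first | assumption | (apply Ne.symm; assumption)) (by first | assumption | (apply Ne.symm; assumption)) (by first | assumption | (apply Ne.symm; assumption))
  have key := kfin ha hd he TD TM fK fM fT fD
  have fin : MM E m j l * (TT E l m k i)⁻¹ * (MM E m j l)⁻¹ =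
      (TT E l m k i)⁻¹ * (FF E l j k i)⁻¹ * (FF E l j k i)⁻¹ := by
    rw [← key, ← hb, ← hc', ← cj_cm, hbcm]
  have fin2 := congrArg (fun t => t⁻¹) fin
  simp only [mul_inv_rev, inv_inv] at fin2
  have fT2 := FF_TT R cb hn l j k i l m k i (by first | assumption | (apply Ne.symm; assumption)) (by first | assumption | (apply Ne.symm; assumption)) (by first | assumption | (apply Ne.symm; assumption)) (by first | assumption | (apply Ne.symm; assumption)) (by first | assumption | (apply Ne.symm; assumption)) (by first | assumption | (apply Ne.symm; assumption)) (by first | assumption | (apply Ne.symm; assumption)) (by first | assumption | (apply Ne.symm; assumption)) (by first | assumption | (apply Ne.symm; assumption)) (by first | assumption | (apply Ne.symm; assumption)) (by first | assumption | (apply Ne.symm; assumption)) (by first | assumption | (apply Ne.symm; assumption))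
  have fin3 : MM E m j l * TT E l m k i * (MM E m j l)⁻¹ =
      FF E l j k i * (FF E l j k i * TT E l m k i) := by
    rw [← fin2]; group
  rw [fin3, ← mul_assoc, (fT2.mul_left fT2).eq]

/-- `T (l; j, i, m)` is fixed by `M (m; j, l)`-like elements; the cyclic forms of `TT`. -/
lemma TT_cyc (x a b c : Lt α) (h1 : x.1 ≠ a.1) (h2 : x.1 ≠ b.1)
    (h3 : x.1 ≠ c.1) (h4 : a.1 ≠ b.1) (h5 : a.1 ≠ c.1)
    (h6 : b.1 ≠ c.1) : TT E x b c a = TT E x a b c := by
  rw [TT_swap23 R cb hn x b a c (by first | assumption | (apply Ne.symm; assumption)) (by first | assumption | (apply Ne.symm; assumption)) (by first | assumption | (apply Ne.symm; assumption)) (by first | assumption | (apply Ne.symm; assumption)) (by first | assumption | (apply Ne.symm; assumption)) (by first | assumption | (apply Ne.symm; assumption)), TT_swap12 R cb hn x a b c (by first | assumption | (apply Ne.symm; assumption)) (by first | assumption | (apply Ne.symm; assumption)) (by first | assumption | (apply Ne.symm; assumption)) (by first | assumption | (apply Ne.symm; assumption)) (by first | assumption | (apply Ne.symm; assumption)) (by first | assumption | (apply Ne.symm; assumption)),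 inv_inv]

lemma FF_cyc (x a b c : Lt α) (h1 : x.1 ≠ a.1) (h2 : x.1 ≠ b.1)
    (h3 : x.1 ≠ c.1) (h4 : a.1 ≠ b.1) (h5 : a.1 ≠ c.1)
    (h6 : b.1 ≠ c.1) : FF E x b c a = FF E x a b c := by
  rw [FF_swap23 R cb hn x b a c (by first | assumption | (apply Ne.symm; assumption)) (by first | assumption | (apply Ne.symm; assumption)) (by first | assumption | (apply Ne.symm; assumption)) (by first | assumption | (apply Ne.symm; assumption)) (by first | assumption | (apply Ne.symm; assumption)) (by first | assumption | (apply Ne.symm; assumption)), FF_swap12 R cb hn x a b c (by first | assumption | (apply Ne.symm; assumption)) (by first | assumption | (apply Ne.symm; assumption)) (by first | assumption | (apply Ne.symm; assumption)) (by first | assumption | (apply Ne.symm; assumption)) (by first | assumption | (apply Ne.symm; assumption)) (by first | assumption | (apply Ne.symm; assumption)), inv_inv]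

/-- The action of `K (i, j)` on `TT l ..` with `i` among the last letters is trivial. -/
lemma KK_TT_last (i j l m : Lt α) (h1 : i.1 ≠ j.1) (h2 : i.1 ≠ l.1)
    (h3 : i.1 ≠ m.1) (h4 : j.1 ≠ l.1) (h5 : j.1 ≠ m.1)
    (h6 : l.1 ≠ m.1) : Commute (KK E i j) (TT E l i m j) := by
  have k1 := KK_E R (x := l) (y := i) (z := j) (Ne.symm h2) (Ne.symm h4) h1
  have k2 : Commute (KK E i j) (E l m) := KK_E_comm R (Ne.symm h2) (Ne.symm h4) h3
  have k3 : Commute (KK E i j) (E l j) := KK_E_comm R (Ne.symm h2) (Ne.symm h4) h1
  have k4 : Commute (KK E i j) (MM E l m j) := cm_cm k2 k3
  have k5 : Commute (E l j) (TT E l i m j) := (TT_E R cb hn l i m j j (by first | assumption | (apply Ne.symm; assumption)) (by first | assumption | (apply Ne.symm; assumption)) (by first | assumption | (apply Ne.symm; assumption)) (by first | assumption | (apply Ne.symm; assumption)) (by first | assumption | (apply Ne.symm; assumption)) (by first | assumption | (apply Ne.symm; assumption)) (by first | assumption | (apply Ne.symm; assumption))).symm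
  have k6 : Commute (E l j) (MM E l m j) :=
    (MM_right R cb h6 (Ne.symm h4) (Ne.symm h5)).symm
  have e : KK E i j * TT E l i m j * (KK E i j)⁻¹ = TT E l i m j := by
    show KK E i j * cm (E l i) (MM E l m j) * (KK E i j)⁻¹ = TT E l i m j
    rw [cj_cm, k1, fix k4]
    have e2 : MM E l m j = (E l j)⁻¹ * MM E l m j * E l j := by
      rw [mul_assoc, ← k6.eq]; group
    have e3 := cj_cm (E l j)⁻¹ (E l i) (MM E l m j)
    rw [inv_inv, ← e2] at e3
    rw [← e3]
    show (E l j)⁻¹ * TT E l i m j * E l j = _
    rw [mul_assoc, ← k5.eq]; group
  exact comm_of_cj e

/-- W1 -/
lemma MM_DDx (i j k l m : Lt α) (h1 : i.1 ≠ j.1) (h2 : i.1 ≠ k.1)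
    (h3 : i.1 ≠ l.1) (h4 : i.1 ≠ m.1) (h5 : j.1 ≠ k.1)
    (h6 : j.1 ≠ l.1) (h7 : j.1 ≠ m.1) (h8 : k.1 ≠ l.1)
    (h9 : k.1 ≠ m.1) (h10 : l.1 ≠ m.1) :
    MM E l j m * DD E i l k * (MM E l j m)⁻¹ = (FF E i k j m)⁻¹ * DD E i l k := by
  have c1 := MM_KKx R cb hn i l j m (by first | assumption | (apply Ne.symm; assumption)) (by first | assumption | (apply Ne.symm; assumption)) (by first | assumption | (apply Ne.symm; assumption)) (by first | assumption | (apply Ne.symm; assumption)) (by first | assumption | (apply Ne.symm; assumption)) (by first | assumption | (apply Ne.symm; assumption))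
  have c2 := MM_KK_comm R l j m i k (by first | assumption | (apply Ne.symm; assumption)) (by first | assumption | (apply Ne.symm; assumption)) (by first | assumption | (apply Ne.symm; assumption)) (by first | assumption | (apply Ne.symm; assumption))
  have e : cm (DD E i j m) (KK E i k) = (FF E i k j m)⁻¹ := by
    unfold FF
    rw [cm_inv]
  show MM E l j m * cm (KK E i l) (KK E i k) * (MM E l j m)⁻¹ = _ * cm (KK E i l) (KK E i k)
  rw [cj_cm, c1, fix c2, cm_mul_left, e]
  rw [e]
  exact (FF_self R cb hn i k j m l (by first | assumption | (apply Ne.symm; assumption)) (by first | assumption | (apply Ne.symm; assumption)) (by first | assumption | (apply Ne.symm; assumption)) (by first | assumption | (apply Ne.symm; assumption)) (by first | assumption | (apply Ne.symm; assumption)) (by first | assumption | (apply Ne.symm; assumption)) (by first | assumption | (apply Ne.symm; assumption))).inv_left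

/-- W5 -/
lemma MM_TT5 (i j k l m : Lt α) (h1 : i.1 ≠ j.1) (h2 : i.1 ≠ k.1)
    (h3 : i.1 ≠ l.1) (h4 : i.1 ≠ m.1) (h5 : j.1 ≠ k.1)
    (h6 : j.1 ≠ l.1) (h7 : j.1 ≠ m.1) (h8 : k.1 ≠ l.1)
    (h9 : k.1 ≠ m.1) (h10 : l.1 ≠ m.1) :
    Commute (MM E l j i) (TT E m i l k) := by
  apply comm_of_cj
  have a1 := MM_E_comm R l j i m i (by first | assumption | (apply Ne.symm; assumption)) (by first | assumption | (apply Ne.symm; assumption)) (by first | assumption | (apply Ne.symm; assumption)) (by first | assumption | (apply Ne.symm; assumption))
  have a2 := MM_Ex R cb hn m l j i (by first | assumption | (apply Ne.symm; assumption)) (by first | assumption | (apply Ne.symm; assumption)) (by first | assumption | (apply Ne.symm; assumption)) (by first | assumption | (apply Ne.symm; assumption)) (by first | assumption | (apply Ne.symm; assumption)) (by first | assumption | (apply Ne.symm; assumption))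
  have a3 := MM_E_comm R l j i m k (by first | assumption | (apply Ne.symm; assumption)) (by first | assumption | (apply Ne.symm; assumption)) (by first | assumption | (apply Ne.symm; assumption)) (by first | assumption | (apply Ne.symm; assumption))
  have t1 := TT_E R cb hn m k j i l (by first | assumption | (apply Ne.symm; assumption)) (by first | assumption | (apply Ne.symm; assumption)) (by first | assumption | (apply Ne.symm; assumption)) (by first | assumption | (apply Ne.symm; assumption)) (by first | assumption | (apply Ne.symm; assumption)) (by first | assumption | (apply Ne.symm; assumption)) (by first | assumption | (apply Ne.symm; assumption))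
  have t2 := TT_E R cb hn m k j i i (by first | assumption | (apply Ne.symm; assumption)) (by first | assumption | (apply Ne.symm; assumption)) (by first | assumption | (apply Ne.symm; assumption)) (by first | assumption | (apply Ne.symm; assumption)) (by first | assumption | (apply Ne.symm; assumption)) (by first | assumption | (apply Ne.symm; assumption)) (by first | assumption | (apply Ne.symm; assumption))
  have t3 := TT_E R cb hn m k j i k (by first | assumption | (apply Ne.symm; assumption)) (by first | assumption | (apply Ne.symm; assumption)) (by first | assumption | (apply Ne.symm; assumption)) (by first | assumption | (apply Ne.symm; assumption)) (by first | assumption | (apply Ne.symm; assumption)) (by first | assumption | (apply Ne.symm; assumption)) (by first | assumption | (apply Ne.symm; assumption))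
  have e0 : cm (MM E m j i) (E m k) = (TT E m k j i)⁻¹ := by
    unfold TT; rw [cm_inv]
  have e1 : cm (E m l * MM E m j i) (E m k) = (TT E m k j i)⁻¹ * MM E m l k := by
    rw [cm_mul_left, e0]
    · rfl
    · rw [e0]; exact t1.inv_left
  have e2 : MM E l j i * MM E m l k * (MM E l j i)⁻¹ = (TT E m k j i)⁻¹ * MM E m l k := by
    show MM E l j i * cm (E m l) (E m k) * (MM E l j i)⁻¹ = _
    rw [cj_cm, a2, fix a3, e1]
  show MM E l j i * cm (E m i) (MM E m l k) * (MM E l j i)⁻¹ = _
  rw [cj_cm, fix a1, e2]
  exact cm_drop t2.inv_left (cm_cm t2.inv_left (cm_cm t1.inv_left t3.inv_left))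

/-- W7 -/
lemma TT_TT7 (i j k l m : Lt α) (h1 : i.1 ≠ j.1) (h2 : i.1 ≠ k.1)
    (h3 : i.1 ≠ l.1) (h4 : i.1 ≠ m.1) (h5 : j.1 ≠ k.1)
    (h6 : j.1 ≠ l.1) (h7 : j.1 ≠ m.1) (h8 : k.1 ≠ l.1)
    (h9 : k.1 ≠ m.1) (h10 : l.1 ≠ m.1) :
    Commute (TT E l m j i) (TT E m i l k) := by
  have e0 : TT E l m j i = cm (E l i) (MM E l m j) := (TT_cyc R cb hn l i m j (by first | assumption | (apply Ne.symm; assumption)) (by first | assumption | (apply Ne.symm; assumption)) (by first | assumption | (apply Ne.symm; assumption)) (by first | assumption | (apply Ne.symm; assumption)) (by first | assumption | (apply Ne.symm; assumption)) (by first | assumption | (apply Ne.symm; assumption))).symm ▸ rfl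
  have k6 := kappa R cb hn i j k m l (by first | assumption | (apply Ne.symm; assumption)) (by first | assumption | (apply Ne.symm; assumption)) (by first | assumption | (apply Ne.symm; assumption)) (by first | assumption | (apply Ne.symm; assumption)) (by first | assumption | (apply Ne.symm; assumption)) (by first | assumption | (apply Ne.symm; assumption)) (by first | assumption | (apply Ne.symm; assumption)) (by first | assumption | (apply Ne.symm; assumption)) (by first | assumption | (apply Ne.symm; assumption)) (by first | assumption | (apply Ne.symm; assumption))
  rw [TT_cyc R cb hn m i l k (by first | assumption | (apply Ne.symm; assumption)) (by first | assumption | (apply Ne.symm; assumption)) (by first | assumption | (apply Ne.symm; assumption)) (by first | assumption | (apply Ne.symm; assumption)) (by first | assumption | (apply Ne.symm; assumption)) (by first | assumption | (apply Ne.symm; assumption))] at k6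
  have f1 := FF_MM R cb hn m j k i l j m (by first | assumption | (apply Ne.symm; assumption)) (by first | assumption | (apply Ne.symm; assumption)) (by first | assumption | (apply Ne.symm; assumption)) (by first | assumption | (apply Ne.symm; assumption)) (by first | assumption | (apply Ne.symm; assumption)) (by first | assumption | (apply Ne.symm; assumption)) (by first | assumption | (apply Ne.symm; assumption)) (by first | assumption | (apply Ne.symm; assumption)) (by first | assumption | (apply Ne.symm; assumption))
  have f2 := FF_E R cb hn m j k i l i (by first | assumption | (apply Ne.symm; assumption)) (by first | assumption | (apply Ne.symm; assumption)) (by first | assumption | (apply Ne.symm; assumption)) (by first | assumption | (apply Ne.symm; assumption)) (by first | assumption | (apply Ne.symm; assumption)) (by first | assumption | (apply Ne.symm; assumption)) (by first | assumption | (apply Ne.symm; assumption)) (by first | assumption | (apply Ne.symm; assumption)) (by first | assumption | (apply Ne.symm; assumption)) (by first | assumption | (apply Ne.symm; assumption))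
  -- `E l i` commutes with `T2`
  have c : Commute (E l i) (TT E m i l k) := by
    apply comm_of_cj
    have b1 : Commute (E l i) (E m i) := cs R i l m
    have b2 : E l i * E m l * (E l i)⁻¹ = E m l * E m i := c1 R (Ne.symm h10) (Ne.symm h4) (Ne.symm h3)
    have b3 := EE_comm R l m i k (by first | assumption | (apply Ne.symm; assumption)) (by first | assumption | (apply Ne.symm; assumption)) (by first | assumption | (apply Ne.symm; assumption))
    have t1 := TT_E R cb hn m l i k l (by first | assumption | (apply Ne.symm; assumption)) (by first | assumption | (apply Ne.symm; assumption)) (by first | assumption | (apply Ne.symm; assumption)) (by first | assumption | (apply Ne.symm; assumption)) (by first | assumption | (apply Ne.symm; assumption)) (by first | assumption | (apply Ne.symm; assumption)) (by first | assumption | (apply Ne.symm; assumption))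
    have t2 := TT_E R cb hn m l i k i (by first | assumption | (apply Ne.symm; assumption)) (by first | assumption | (apply Ne.symm; assumption)) (by first | assumption | (apply Ne.symm; assumption)) (by first | assumption | (apply Ne.symm; assumption)) (by first | assumption | (apply Ne.symm; assumption)) (by first | assumption | (apply Ne.symm; assumption)) (by first | assumption | (apply Ne.symm; assumption))
    have t3 := TT_E R cb hn m l i k k (by first | assumption | (apply Ne.symm; assumption)) (by first | assumption | (apply Ne.symm; assumption)) (by first | assumption | (apply Ne.symm; assumption)) (by first | assumption | (apply Ne.symm; assumption)) (by first | assumption | (apply Ne.symm; assumption)) (by first | assumption | (apply Ne.symm; assumption)) (by first | assumption | (apply Ne.symm; assumption))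
    have u1 : Commute (MM E m i k) (E m i) := MM_left R cb (Ne.symm h4) (Ne.symm h9) h2
    have w1 := TT_E R cb hn m i l k i (by first | assumption | (apply Ne.symm; assumption)) (by first | assumption | (apply Ne.symm; assumption)) (by first | assumption | (apply Ne.symm; assumption)) (by first | assumption | (apply Ne.symm; assumption)) (by first | assumption | (apply Ne.symm; assumption)) (by first | assumption | (apply Ne.symm; assumption)) (by first | assumption | (apply Ne.symm; assumption))
    have w2 := TT_E R cb hn m i l k k (by first | assumption | (apply Ne.symm; assumption)) (by first | assumption | (apply Ne.symm; assumption)) (by first | assumption | (apply Ne.symm; assumption)) (by first | assumption | (apply Ne.symm; assumption)) (by first | assumption | (apply Ne.symm; assumption)) (by first | assumption | (apply Ne.symm; assumption)) (by first | assumption | (apply Ne.symm; assumption))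
    have e1 : cm (E m l * E m i) (E m k) = (TT E m l i k * MM E m i k) * MM E m l k := by
      unfold TT MM cm; group
    have e2 : E l i * MM E m l k * (E l i)⁻¹ = (TT E m l i k * MM E m i k) * MM E m l k := by
      show E l i * cm (E m l) (E m k) * (E l i)⁻¹ = _
      rw [cj_cm, b2, fix b3, e1]
    show E l i * cm (E m i) (MM E m l k) * (E l i)⁻¹ = _
    rw [cj_cm, fix b1, e2]
    refine cm_drop (t2.mul_left u1) ?_
    show Commute (TT E m l i k * MM E m i k) (TT E m i l k)
    refine Commute.mul_left ?_ (cm_cm w1 w2).symm
    exact cm_cm t2 (cm_cm t1 t3)
  rw [e0]
  refine comm_act (z := (FF E m j k i * FF E m j k i)⁻¹) ?_ c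
    ((f2.symm.mul_right f2.symm).inv_right) ?_
  · have e1 : MM E l m j = (MM E l j m)⁻¹ := MM_swap _ _ _
    rw [e1, inv_inv]
    have f3 : Commute (FF E m j k i * FF E m j k i) (MM E l j m) := f1.mul_left f1
    set n := MM E l j m
    set z := FF E m j k i * FF E m j k i
    set X := TT E m i l k
    have h11 : n * X = X * z * n := of_cj k6
    have h12 : n * (X * z⁻¹) = X * n := by
      calc n * (X * z⁻¹) = (n * X) * z⁻¹ := by group
        _ = X * (z * n) * z⁻¹ := by rw [h11]; group
        _ = X * (n * z) * z⁻¹ := by rw [f3.eq]
        _ = _ := by group
    calc n⁻¹ * X * n = n⁻¹ * (X * n) := by group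
      _ = n⁻¹ * (n * (X * z⁻¹)) := by rw [h12]
      _ = _ := by group
  · have e1 : MM E l m j = (MM E l j m)⁻¹ := MM_swap _ _ _
    rw [e1]
    exact ((f1.mul_left f1).inv_inv).symm

/-- W8 -/
lemma TT_DD8 (i j k l m : Lt α) (h1 : i.1 ≠ j.1) (h2 : i.1 ≠ k.1)
    (h3 : i.1 ≠ l.1) (h4 : i.1 ≠ m.1) (h5 : j.1 ≠ k.1)
    (h6 : j.1 ≠ l.1) (h7 : j.1 ≠ m.1) (h8 : k.1 ≠ l.1)
    (h9 : k.1 ≠ m.1) (h10 : l.1 ≠ m.1) :
    Commute (DD E i l k) (TT E l m j i) := by
  have r := MM_KKx R cb hn i j l k (by first | assumption | (apply Ne.symm; assumption)) (by first | assumption | (apply Ne.symm; assumption)) (by first | assumption | (apply Ne.symm; assumption)) (by first | assumption | (apply Ne.symm; assumption)) (by first | assumption | (apply Ne.symm; assumption)) (by first | assumption | (apply Ne.symm; assumption))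
  have e0 : DD E i l k = cm (KK E i j)⁻¹ (MM E j l k) := by
    have : DD E i l k = (KK E i j)⁻¹ * (KK E i j * DD E i l k) := by group
    rw [this, ← r]; unfold cm; group
  have c := KK_TT_last R cb hn i j l m (by first | assumption | (apply Ne.symm; assumption)) (by first | assumption | (apply Ne.symm; assumption)) (by first | assumption | (apply Ne.symm; assumption)) (by first | assumption | (apply Ne.symm; assumption)) (by first | assumption | (apply Ne.symm; assumption)) (by first | assumption | (apply Ne.symm; assumption))
  have t1 : TT E l i m j = TT E l m j i := (TT_cyc R cb hn l i m j (by first | assumption | (apply Ne.symm; assumption)) (by first | assumption | (apply Ne.symm; assumption)) (by first | assumption | (apply Ne.symm; assumption)) (by first | assumption | (apply Ne.symm; assumption)) (by first | assumption | (apply Ne.symm; assumption)) (by first | assumption | (apply Ne.symm; assumption))).symm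
  rw [t1] at c
  have k6 := kappa R cb hn m k i l j (by first | assumption | (apply Ne.symm; assumption)) (by first | assumption | (apply Ne.symm; assumption)) (by first | assumption | (apply Ne.symm; assumption)) (by first | assumption | (apply Ne.symm; assumption)) (by first | assumption | (apply Ne.symm; assumption)) (by first | assumption | (apply Ne.symm; assumption)) (by first | assumption | (apply Ne.symm; assumption)) (by first | assumption | (apply Ne.symm; assumption)) (by first | assumption | (apply Ne.symm; assumption)) (by first | assumption | (apply Ne.symm; assumption))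
  have t2 : TT E l j i m = TT E l m j i := TT_cyc R cb hn l m j i (by first | assumption | (apply Ne.symm; assumption)) (by first | assumption | (apply Ne.symm; assumption)) (by first | assumption | (apply Ne.symm; assumption)) (by first | assumption | (apply Ne.symm; assumption)) (by first | assumption | (apply Ne.symm; assumption)) (by first | assumption | (apply Ne.symm; assumption))
  rw [t2] at k6
  have f1 := FF_MM R cb hn l k i m j k l (by first | assumption | (apply Ne.symm; assumption)) (by first | assumption | (apply Ne.symm; assumption)) (by first | assumption | (apply Ne.symm; assumption)) (by first | assumption | (apply Ne.symm; assumption)) (by first | assumption | (apply Ne.symm; assumption)) (by first | assumption | (apply Ne.symm; assumption)) (by first | assumption | (apply Ne.symm; assumption)) (by first | assumption | (apply Ne.symm; assumption)) (by first | assumption | (apply Ne.symm; assumption))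
  have f2 := FF_KK R cb hn l k i m i j (by first | assumption | (apply Ne.symm; assumption)) (by first | assumption | (apply Ne.symm; assumption)) (by first | assumption | (apply Ne.symm; assumption)) (by first | assumption | (apply Ne.symm; assumption)) (by first | assumption | (apply Ne.symm; assumption)) (by first | assumption | (apply Ne.symm; assumption)) (by first | assumption | (apply Ne.symm; assumption))
  have e1 : MM E j l k = (MM E j k l)⁻¹ := MM_swap _ _ _
  rw [e0, e1]
  have f3 : Commute (FF E l k i m * FF E l k i m) (MM E j k l) := f1.mul_left f1
  refine comm_act (z := (FF E l k i m * FF E l k i m)⁻¹) ?_ c.inv_left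
    ((f2.mul_left f2).inv_inv).symm f3.inv_inv.symm
  rw [inv_inv]
  set n := MM E j k l
  set z := FF E l k i m * FF E l k i m
  set X := TT E l m j i
  have h11 : n * X = X * z * n := of_cj k6
  have h12 : n * (X * z⁻¹) = X * n := by
    calc n * (X * z⁻¹) = (n * X) * z⁻¹ := by group
      _ = X * (z * n) * z⁻¹ := by rw [h11]; group
      _ = X * (n * z) * z⁻¹ := by rw [f3.eq]
      _ = _ := by group
  calc n⁻¹ * X * n = n⁻¹ * (X * n) := by group
    _ = n⁻¹ * (n * (X * z⁻¹)) := by rw [h12]
    _ = _ := by group

lemma FF_FF (p a b c q i j k : Lt α) (h1 : p.1 ≠ a.1)
    (h2 : p.1 ≠ b.1) (h3 : p.1 ≠ c.1) (h4 : a.1 ≠ b.1)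
    (h5 : a.1 ≠ c.1) (h6 : b.1 ≠ c.1) (hij : q.1 ≠ i.1)
    (hik : q.1 ≠ j.1) (hil : q.1 ≠ k.1) :
    Commute (FF E p a b c) (FF E q i j k) :=
  cm_cm (FF_KK R cb hn p a b c q i (by first | assumption | (apply Ne.symm; assumption)) (by first | assumption | (apply Ne.symm; assumption)) (by first | assumption | (apply Ne.symm; assumption)) (by first | assumption | (apply Ne.symm; assumption)) (by first | assumption | (apply Ne.symm; assumption)) (by first | assumption | (apply Ne.symm; assumption)) (by first | assumption | (apply Ne.symm; assumption))) (FF_DD R cb hn p a b c q j k (by first | assumption | (apply Ne.symm; assumption)) (by first | assumption | (apply Ne.symm; assumption)) (by first | assumption | (apply Ne.symm; assumption)) (by first | assumption | (apply Ne.symm; assumption)) (by first | assumption | (apply Ne.symm; assumption)) (by first | assumption | (apply Ne.symm; assumption)) (by first | assumption | (apply Ne.symm; assumption)) (by first | assumption | (apply Ne.symm; assumption)))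

omit R cb [Group P] [DecidableEq α] in
lemma fresh (a b c d : Lt α) : ∃ m : Lt α, m.1 ≠ a.1 ∧ m.1 ≠ b.1 ∧ m.1 ≠ c.1 ∧ m.1 ≠ d.1 := by
  classical
  have hc : ({a.1, b.1, c.1, d.1} : Finset α).card ≤ 4 := Finset.card_le_four
  have : ∃ x : α, x ∉ ({a.1, b.1, c.1, d.1} : Finset α) := by
    by_contra hcon
    push Not at hcon
    have : (Finset.univ : Finset α) ⊆ {a.1, b.1, c.1, d.1} := fun x _ => hcon x
    have h2 := Finset.card_le_card this
    rw [Finset.card_univ] at h2
    omega
  obtain ⟨x, hx⟩ := this
  simp only [Finset.mem_insert, Finset.mem_singleton, not_or] at hx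
  exact ⟨(x, true), hx.1, hx.2.1, hx.2.2.1, hx.2.2.2⟩

/-- omega with the fifth letter -/
lemma omega5 (i j k l m : Lt α) (h1 : i.1 ≠ j.1) (h2 : i.1 ≠ k.1)
    (h3 : i.1 ≠ l.1) (h4 : i.1 ≠ m.1) (h5 : j.1 ≠ k.1)
    (h6 : j.1 ≠ l.1) (h7 : j.1 ≠ m.1) (h8 : k.1 ≠ l.1)
    (h9 : k.1 ≠ m.1) (h10 : l.1 ≠ m.1) :
    Commute (DD E i l k) (MM E l j i) := by
  have W1 := MM_DDx R cb hn i j k l m (by first | assumption | (apply Ne.symm; assumption)) (by first | assumption | (apply Ne.symm; assumption)) (by first | assumption | (apply Ne.symm; assumption)) (by first | assumption | (apply Ne.symm; assumption)) (by first | assumption | (apply Ne.symm; assumption)) (by first | assumption | (apply Ne.symm; assumption)) (by first | assumption | (apply Ne.symm; assumption)) (by first | assumption | (apply Ne.symm; assumption)) (by first | assumption | (apply Ne.symm; assumption)) (by first | assumption | (apply Ne.symm; assumption))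
  have q1 : FF E i k j m = FF E l k j m := FF_indep R cb hn i l k j m (by first | assumption | (apply Ne.symm; assumption)) (by first | assumption | (apply Ne.symm; assumption)) (by first | assumption | (apply Ne.symm; assumption)) (by first | assumption | (apply Ne.symm; assumption)) (by first | assumption | (apply Ne.symm; assumption)) (by first | assumption | (apply Ne.symm; assumption)) (by first | assumption | (apply Ne.symm; assumption)) (by first | assumption | (apply Ne.symm; assumption)) (by first | assumption | (apply Ne.symm; assumption)) (by first | assumption | (apply Ne.symm; assumption))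
  have q2 : FF E l k j m = FF E l m k j := FF_cyc R cb hn l m k j (by first | assumption | (apply Ne.symm; assumption)) (by first | assumption | (apply Ne.symm; assumption)) (by first | assumption | (apply Ne.symm; assumption)) (by first | assumption | (apply Ne.symm; assumption)) (by first | assumption | (apply Ne.symm; assumption)) (by first | assumption | (apply Ne.symm; assumption))
  rw [q1, q2] at W1
  -- W2
  have a1 := EE_comm R m l i j (by first | assumption | (apply Ne.symm; assumption)) (by first | assumption | (apply Ne.symm; assumption)) (by first | assumption | (apply Ne.symm; assumption))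
  have a2 : E m i * E l m * (E m i)⁻¹ = E l m * E l i :=
    c1 R h10 (Ne.symm h3) (Ne.symm h4)
  have W2 : E m i * MM E l j m * (E m i)⁻¹ = MM E l j m * TT E l m j i * MM E l j i := by
    show E m i * cm (E l j) (E l m) * (E m i)⁻¹ = _
    rw [cj_cm, fix a1, a2]
    unfold TT MM cm; group
  -- W3
  have W3 : E m i * DD E i l k * (E m i)⁻¹ = (TT E m i l k)⁻¹ * DD E i l k :=
    flip (DD_E R cb hn m i l k (by first | assumption | (apply Ne.symm; assumption)) (by first | assumption | (apply Ne.symm; assumption)) (by first | assumption | (apply Ne.symm; assumption)) (by first | assumption | (apply Ne.symm; assumption)) (by first | assumption | (apply Ne.symm; assumption)) (by first | assumption | (apply Ne.symm; assumption))) (TT_E R cb hn m i l k i (by first | assumption | (apply Ne.symm; assumption)) (by first | assumption | (apply Ne.symm; assumption)) (by first | assumption | (apply Ne.symm; assumption)) (by first | assumption | (apply Ne.symm; assumption)) (by first | assumption | (apply Ne.symm; assumption)) (by first | assumption | (apply Ne.symm; assumption)) (by first | assumption | (apply Ne.symm; assumption)))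
  -- W4
  have W4 : E m i * FF E l m k j * (E m i)⁻¹ = FF E l m k j * FF E l i k j :=
    FF_conj R cb hn l m k j i (by first | assumption | (apply Ne.symm; assumption)) (by first | assumption | (apply Ne.symm; assumption)) (by first | assumption | (apply Ne.symm; assumption)) (by first | assumption | (apply Ne.symm; assumption)) (by first | assumption | (apply Ne.symm; assumption)) (by first | assumption | (apply Ne.symm; assumption)) (by first | assumption | (apply Ne.symm; assumption)) (by first | assumption | (apply Ne.symm; assumption)) (by first | assumption | (apply Ne.symm; assumption)) (by first | assumption | (apply Ne.symm; assumption))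
  -- conjugate W1
  have W : (MM E l j m * TT E l m j i * MM E l j i) * ((TT E m i l k)⁻¹ * DD E i l k) *
      (MM E l j m * TT E l m j i * MM E l j i)⁻¹ =
      (FF E l m k j * FF E l i k j)⁻¹ * ((TT E m i l k)⁻¹ * DD E i l k) := by
    have e := congrArg (fun t => E m i * t * (E m i)⁻¹) W1
    have e1 : E m i * (MM E l j m * DD E i l k * (MM E l j m)⁻¹) * (E m i)⁻¹ =
        (E m i * MM E l j m * (E m i)⁻¹) * (E m i * DD E i l k * (E m i)⁻¹) *
        (E m i * MM E l j m * (E m i)⁻¹)⁻¹ := by group
    have e2 : E m i * ((FF E l m k j)⁻¹ * DD E i l k) * (E m i)⁻¹ =
        (E m i * FF E l m k j * (E m i)⁻¹)⁻¹ * (E m i * DD E i l k * (E m i)⁻¹) := by group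
    rw [e1, e2, W2, W3, W4] at e
    exact e
  -- W5 .. W8
  have W5 := MM_TT5 R cb hn i j k l m (by first | assumption | (apply Ne.symm; assumption)) (by first | assumption | (apply Ne.symm; assumption)) (by first | assumption | (apply Ne.symm; assumption)) (by first | assumption | (apply Ne.symm; assumption)) (by first | assumption | (apply Ne.symm; assumption)) (by first | assumption | (apply Ne.symm; assumption)) (by first | assumption | (apply Ne.symm; assumption)) (by first | assumption | (apply Ne.symm; assumption)) (by first | assumption | (apply Ne.symm; assumption)) (by first | assumption | (apply Ne.symm; assumption))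
  have W6 := kappa R cb hn i j k m l (by first | assumption | (apply Ne.symm; assumption)) (by first | assumption | (apply Ne.symm; assumption)) (by first | assumption | (apply Ne.symm; assumption)) (by first | assumption | (apply Ne.symm; assumption)) (by first | assumption | (apply Ne.symm; assumption)) (by first | assumption | (apply Ne.symm; assumption)) (by first | assumption | (apply Ne.symm; assumption)) (by first | assumption | (apply Ne.symm; assumption)) (by first | assumption | (apply Ne.symm; assumption)) (by first | assumption | (apply Ne.symm; assumption))
  rw [TT_cyc R cb hn m i l k (by first | assumption | (apply Ne.symm; assumption)) (by first | assumption | (apply Ne.symm; assumption)) (by first | assumption | (apply Ne.symm; assumption)) (by first | assumption | (apply Ne.symm; assumption)) (by first | assumption | (apply Ne.symm; assumption)) (by first | assumption | (apply Ne.symm; assumption)), FF_indep R cb hn m l j k i (by first | assumption | (apply Ne.symm; assumption)) (by first | assumption | (apply Ne.symm; assumption)) (by first | assumption | (apply Ne.symm; assumption)) (by first | assumption | (apply Ne.symm;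 assumption)) (by first | assumption | (apply Ne.symm; assumption)) (by first | assumption | (apply Ne.symm; assumption)) (by first | assumption | (apply Ne.symm; assumption)) (by first | assumption | (apply Ne.symm; assumption)) (by first | assumption | (apply Ne.symm; assumption)) (by first | assumption | (apply Ne.symm; assumption))] at W6
  have W7 := TT_TT7 R cb hn i j k l m (by first | assumption | (apply Ne.symm; assumption)) (by first | assumption | (apply Ne.symm; assumption)) (by first | assumption | (apply Ne.symm; assumption)) (by first | assumption | (apply Ne.symm; assumption)) (by first | assumption | (apply Ne.symm; assumption)) (by first | assumption | (apply Ne.symm; assumption)) (by first | assumption | (apply Ne.symm; assumption)) (by first | assumption | (apply Ne.symm; assumption)) (by first | assumption | (apply Ne.symm; assumption)) (by first | assumption | (apply Ne.symm; assumption))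
  have W8 := TT_DD8 R cb hn i j k l m (by first | assumption | (apply Ne.symm; assumption)) (by first | assumption | (apply Ne.symm; assumption)) (by first | assumption | (apply Ne.symm; assumption)) (by first | assumption | (apply Ne.symm; assumption)) (by first | assumption | (apply Ne.symm; assumption)) (by first | assumption | (apply Ne.symm; assumption)) (by first | assumption | (apply Ne.symm; assumption)) (by first | assumption | (apply Ne.symm; assumption)) (by first | assumption | (apply Ne.symm; assumption)) (by first | assumption | (apply Ne.symm; assumption))
  -- signs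
  have s1 : FF E l i k j = (FF E l j k i)⁻¹ := by
    have := FF_swap12 R cb hn l k i j (by first | assumption | (apply Ne.symm; assumption)) (by first | assumption | (apply Ne.symm; assumption)) (by first | assumption | (apply Ne.symm; assumption)) (by first | assumption | (apply Ne.symm; assumption)) (by first | assumption | (apply Ne.symm; assumption)) (by first | assumption | (apply Ne.symm; assumption))
    rw [this, FF_cyc R cb hn l j k i (by first | assumption | (apply Ne.symm; assumption)) (by first | assumption | (apply Ne.symm; assumption)) (by first | assumption | (apply Ne.symm; assumption)) (by first | assumption | (apply Ne.symm; assumption)) (by first | assumption | (apply Ne.symm; assumption)) (by first | assumption | (apply Ne.symm; assumption))]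
  rw [s1] at W
  have s3 := FF_cube R cb hn l j k i (by first | assumption | (apply Ne.symm; assumption)) (by first | assumption | (apply Ne.symm; assumption)) (by first | assumption | (apply Ne.symm; assumption)) (by first | assumption | (apply Ne.symm; assumption)) (by first | assumption | (apply Ne.symm; assumption)) (by first | assumption | (apply Ne.symm; assumption))
  -- commutations of FF
  have u1 := FF_TT R cb hn l m k j m i l k (by first | assumption | (apply Ne.symm; assumption)) (by first | assumption | (apply Ne.symm; assumption)) (by first | assumption | (apply Ne.symm; assumption)) (by first | assumption | (apply Ne.symm; assumption)) (by first | assumption | (apply Ne.symm; assumption)) (by first | assumption | (apply Ne.symm; assumption)) (by first | assumption | (apply Ne.symm; assumption)) (by first | assumption | (apply Ne.symm; assumption)) (by first | assumption | (apply Ne.symm; assumption)) (by first | assumption | (apply Ne.symm; assumption)) (by first | assumption | (apply Ne.symm; assumption)) (by first | assumption | (apply Ne.symm; assumption))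
  have u2 := FF_TT R cb hn l j k i m i l k (by first | assumption | (apply Ne.symm; assumption)) (by first | assumption | (apply Ne.symm; assumption)) (by first | assumption | (apply Ne.symm; assumption)) (by first | assumption | (apply Ne.symm; assumption)) (by first | assumption | (apply Ne.symm; assumption)) (by first | assumption | (apply Ne.symm; assumption)) (by first | assumption | (apply Ne.symm; assumption)) (by first | assumption | (apply Ne.symm; assumption)) (by first | assumption | (apply Ne.symm; assumption)) (by first | assumption | (apply Ne.symm; assumption)) (by first | assumption | (apply Ne.symm; assumption)) (by first | assumption | (apply Ne.symm; assumption))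
  have u3 := FF_FF R cb hn l m k j l j k i (by first | assumption | (apply Ne.symm; assumption)) (by first | assumption | (apply Ne.symm; assumption)) (by first | assumption | (apply Ne.symm; assumption)) (by first | assumption | (apply Ne.symm; assumption)) (by first | assumption | (apply Ne.symm; assumption)) (by first | assumption | (apply Ne.symm; assumption)) (by first | assumption | (apply Ne.symm; assumption)) (by first | assumption | (apply Ne.symm; assumption)) (by first | assumption | (apply Ne.symm; assumption))
  have u4 := FF_DD R cb hn l m k j i l k (by first | assumption | (apply Ne.symm; assumption)) (by first | assumption | (apply Ne.symm; assumption)) (by first | assumption | (apply Ne.symm; assumption)) (by first | assumption | (apply Ne.symm; assumption)) (by first | assumption | (apply Ne.symm; assumption)) (by first | assumption | (apply Ne.symm; assumption)) (by first | assumption | (apply Ne.symm; assumption)) (by first | assumption | (apply Ne.symm; assumption))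
  have u5 := FF_DD R cb hn l j k i i l k (by first | assumption | (apply Ne.symm; assumption)) (by first | assumption | (apply Ne.symm; assumption)) (by first | assumption | (apply Ne.symm; assumption)) (by first | assumption | (apply Ne.symm; assumption)) (by first | assumption | (apply Ne.symm; assumption)) (by first | assumption | (apply Ne.symm; assumption)) (by first | assumption | (apply Ne.symm; assumption)) (by first | assumption | (apply Ne.symm; assumption))
  set M1 := MM E l j m
  set M2 := MM E l j i
  set T1 := TT E l m j i
  set T2 := TT E m i l k
  set D := DD E i l k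
  set Φ := FF E l m k j
  set ψ := FF E l j k i
  -- z
  have hz : M2 * D * M2⁻¹ = cm M2 D * D := by unfold cm; group
  have e3 : (M1 * T1 * M2) * (T2⁻¹ * D) * (M1 * T1 * M2)⁻¹ =
      (T2 * (ψ * ψ))⁻¹ * ((M1 * T1) * cm M2 D * (M1 * T1)⁻¹) * (Φ⁻¹ * D) := by
    calc (M1 * T1 * M2) * (T2⁻¹ * D) * (M1 * T1 * M2)⁻¹
        = M1 * (T1 * ((M2 * T2 * M2⁻¹)⁻¹ * (M2 * D * M2⁻¹)) * T1⁻¹) * M1⁻¹ := by group
      _ = M1 * (T1 * (T2⁻¹ * (cm M2 D * D)) * T1⁻¹) * M1⁻¹ := by rw [fix W5, hz]
      _ = M1 * ((T1 * T2 * T1⁻¹)⁻¹ * (T1 * cm M2 D * T1⁻¹) * (T1 * D * T1⁻¹)) * M1⁻¹ := by group
      _ = M1 * (T2⁻¹ * (T1 * cm M2 D * T1⁻¹) * D) * M1⁻¹ := by rw [fix W7, fix W8.symm]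
      _ = (M1 * T2 * M1⁻¹)⁻¹ * ((M1 * T1) * cm M2 D * (M1 * T1)⁻¹) * (M1 * D * M1⁻¹) := by group
      _ = _ := by rw [W6, W1]
  rw [e3] at W
  have e4 : (M1 * T1) * cm M2 D * (M1 * T1)⁻¹ = 1 := by
    have h11 : (M1 * T1) * cm M2 D * (M1 * T1)⁻¹ =
        (T2 * (ψ * ψ)) * ((Φ * ψ⁻¹)⁻¹ * (T2⁻¹ * D)) * (Φ⁻¹ * D)⁻¹ := by
      rw [← W]; group
    rw [h11]
    have c1 : Commute ((ψ * ψ) * (Φ * ψ⁻¹)⁻¹) T2⁻¹ :=
      ((u2.mul_left u2).mul_left ((u1.mul_left u2.inv_left).inv_left)).inv_right
    calc (T2 * (ψ * ψ)) * ((Φ * ψ⁻¹)⁻¹ * (T2⁻¹ * D)) * (Φ⁻¹ * D)⁻¹
        = T2 * (((ψ * ψ) * (Φ * ψ⁻¹)⁻¹) * T2⁻¹) * Φ := by group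
      _ = T2 * (T2⁻¹ * ((ψ * ψ) * (Φ * ψ⁻¹)⁻¹)) * Φ := by rw [c1.eq]
      _ = (ψ * ψ * ψ) * (Φ⁻¹ * Φ) := by group
      _ = 1 := by rw [s3]; group
  have e5 : cm M2 D = 1 := by
    have : cm M2 D = (M1 * T1)⁻¹ * ((M1 * T1) * cm M2 D * (M1 * T1)⁻¹) * (M1 * T1) := by group
    rw [this, e4]; group
  have e6 : M2 * D * M2⁻¹ = D := by rw [hz, e5, one_mul]
  exact (comm_of_cj e6).symm

/-- omega -/
lemma omega' (i j k l : Lt α) (h1 : i.1 ≠ j.1) (h2 : i.1 ≠ k.1)
    (h3 : i.1 ≠ l.1) (h5 : j.1 ≠ k.1)
    (h6 : j.1 ≠ l.1) (h8 : k.1 ≠ l.1) :
    Commute (DD E i l k) (MM E l j i) := by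
  obtain ⟨m, m1, m2, m3, m4⟩ := fresh hn i j k l
  exact omega5 R cb hn i j k l m (by first | assumption | (apply Ne.symm; assumption)) (by first | assumption | (apply Ne.symm; assumption)) (by first | assumption | (apply Ne.symm; assumption)) (by first | assumption | (apply Ne.symm; assumption)) (by first | assumption | (apply Ne.symm; assumption)) (by first | assumption | (apply Ne.symm; assumption)) (by first | assumption | (apply Ne.symm; assumption)) (by first | assumption | (apply Ne.symm; assumption)) (by first | assumption | (apply Ne.symm; assumption)) (by first | assumption | (apply Ne.symm; assumption))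

/-- gamma -/
lemma gamma (i j k p : Lt α) (h1 : i.1 ≠ j.1) (h2 : i.1 ≠ k.1)
    (h5 : j.1 ≠ k.1) (h6 : p.1 ≠ i.1)
    (h7 : p.1 ≠ j.1) (h8 : p.1 ≠ k.1) :
    DD E i j k * KK E j i * (DD E i j k)⁻¹ = FF E p i j k * KK E j i := by
  obtain ⟨m, m1, m2, m3, m4⟩ := fresh hn i j k p
  have a0 := DD_KK R cb hn j i m k (by first | assumption | (apply Ne.symm; assumption)) (by first | assumption | (apply Ne.symm; assumption)) (by first | assumption | (apply Ne.symm; assumption)) (by first | assumption | (apply Ne.symm; assumption)) (by first | assumption | (apply Ne.symm; assumption)) (by first | assumption | (apply Ne.symm; assumption))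
  rw [FF_indep R cb hn j p i m k (by first | assumption | (apply Ne.symm; assumption)) (by first | assumption | (apply Ne.symm; assumption)) (by first | assumption | (apply Ne.symm; assumption)) (by first | assumption | (apply Ne.symm; assumption)) (by first | assumption | (apply Ne.symm; assumption)) (by first | assumption | (apply Ne.symm; assumption)) (by first | assumption | (apply Ne.symm; assumption)) (by first | assumption | (apply Ne.symm; assumption)) (by first | assumption | (apply Ne.symm; assumption)) (by first | assumption | (apply Ne.symm; assumption))] at a0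
  -- conjugation by `E m j`
  have b1 : E m j * KK E i m * (E m j)⁻¹ = KK E i m * KK E i j :=
    E_KK R (Ne.symm m1) h1 m2
  have b2 : Commute (E m j) (KK E i k) := (EE_comm R m i j k (by first | assumption | (apply Ne.symm; assumption)) (by first | assumption | (apply Ne.symm; assumption)) (by first | assumption | (apply Ne.symm; assumption))).mul_right (EE_comm R m (nv i) j k (by first | assumption | (apply Ne.symm; assumption)) (by first | assumption | (apply Ne.symm; assumption)) (by first | assumption | (apply Ne.symm; assumption)))
  have b3 : E m j * DD E i m k * (E m j)⁻¹ = FF E i m j k * DD E i j k * DD E i m k := by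
    show E m j * cm (KK E i m) (KK E i k) * (E m j)⁻¹ = _
    rw [cj_cm, b1, fix b2]
    unfold FF DD cm; group
  have b4 : E m j * KK E j i * (E m j)⁻¹ = MM E m j (nv i) * KK E j i :=
    E_KK_third R m2 m1 (Ne.symm h1)
  have b5 : MM E m j (nv i) = (MM E m j i)⁻¹ := MM_nv3 R cb m2 m1 (Ne.symm h1)
  rw [b5] at b4
  have b6 : FF E p i m k = (FF E p m i k)⁻¹ := FF_swap12 R cb hn p m i k (by first | assumption | (apply Ne.symm; assumption)) (by first | assumption | (apply Ne.symm; assumption)) (by first | assumption | (apply Ne.symm; assumption)) (by first | assumption | (apply Ne.symm; assumption)) (by first | assumption | (apply Ne.symm; assumption)) (by first | assumption | (apply Ne.symm; assumption))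
  have b7 := FF_conj R cb hn p m i k j (by first | assumption | (apply Ne.symm; assumption)) (by first | assumption | (apply Ne.symm; assumption)) (by first | assumption | (apply Ne.symm; assumption)) (by first | assumption | (apply Ne.symm; assumption)) (by first | assumption | (apply Ne.symm; assumption)) (by first | assumption | (apply Ne.symm; assumption)) (by first | assumption | (apply Ne.symm; assumption)) (by first | assumption | (apply Ne.symm; assumption)) (by first | assumption | (apply Ne.symm; assumption)) (by first | assumption | (apply Ne.symm; assumption))
  have b8 : FF E p j i k = (FF E p i j k)⁻¹ := FF_swap12 R cb hn p i j k (by first | assumption | (apply Ne.symm; assumption)) (by first | assumption | (apply Ne.symm; assumption)) (by first | assumption | (apply Ne.symm; assumption)) (by first | assumption | (apply Ne.symm; assumption)) (by first | assumption | (apply Ne.symm; assumption)) (by first | assumption | (apply Ne.symm; assumption))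
  have b9 : E m j * FF E p i m k * (E m j)⁻¹ = FF E p i j k * FF E p i m k := by
    rw [b6, cj_inv, b7, b8, mul_inv_rev, inv_inv]
  -- the conjugated relation
  have V : (FF E i m j k * DD E i j k * DD E i m k) * ((MM E m j i)⁻¹ * KK E j i) *
      (FF E i m j k * DD E i j k * DD E i m k)⁻¹ =
      (FF E p i j k * FF E p i m k) * ((MM E m j i)⁻¹ * KK E j i) := by
    have e := congrArg (fun t => E m j * t * (E m j)⁻¹) a0
    have e1 : E m j * (DD E i m k * KK E j i * (DD E i m k)⁻¹) * (E m j)⁻¹ =
        (E m j * DD E i m k * (E m j)⁻¹) * (E m j * KK E j i * (E m j)⁻¹) *
        (E m j * DD E i m k * (E m j)⁻¹)⁻¹ := by group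
    have e2 : E m j * (FF E p i m k * KK E j i) * (E m j)⁻¹ =
        (E m j * FF E p i m k * (E m j)⁻¹) * (E m j * KK E j i * (E m j)⁻¹) := by group
    rw [e1, e2, b3, b4, b9] at e
    exact e
  -- commutations
  have c1 := FF_MM R cb hn i m j k m j i (by first | assumption | (apply Ne.symm; assumption)) (by first | assumption | (apply Ne.symm; assumption)) (by first | assumption | (apply Ne.symm; assumption)) (by first | assumption | (apply Ne.symm; assumption)) (by first | assumption | (apply Ne.symm; assumption)) (by first | assumption | (apply Ne.symm; assumption)) (by first | assumption | (apply Ne.symm; assumption)) (by first | assumption | (apply Ne.symm; assumption)) (by first | assumption | (apply Ne.symm; assumption))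
  have c2 := FF_KK R cb hn i m j k j i (by first | assumption | (apply Ne.symm; assumption)) (by first | assumption | (apply Ne.symm; assumption)) (by first | assumption | (apply Ne.symm; assumption)) (by first | assumption | (apply Ne.symm; assumption)) (by first | assumption | (apply Ne.symm; assumption)) (by first | assumption | (apply Ne.symm; assumption)) (by first | assumption | (apply Ne.symm; assumption))
  have c5 : Commute (DD E i m k) (MM E m j i) := omega' R cb hn i j k m (by first | assumption | (apply Ne.symm; assumption)) (by first | assumption | (apply Ne.symm; assumption)) (by first | assumption | (apply Ne.symm; assumption)) (by first | assumption | (apply Ne.symm; assumption)) (by first | assumption | (apply Ne.symm; assumption)) (by first | assumption | (apply Ne.symm; assumption))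
  have c6 : Commute (DD E i j k) (MM E m j i) := by
    apply comm_of_cj
    have d1 := DD_E R cb hn m i j k (by first | assumption | (apply Ne.symm; assumption)) (by first | assumption | (apply Ne.symm; assumption)) (by first | assumption | (apply Ne.symm; assumption)) (by first | assumption | (apply Ne.symm; assumption)) (by first | assumption | (apply Ne.symm; assumption)) (by first | assumption | (apply Ne.symm; assumption))
    have d2 := DD_E_comm R cb hn m i j k j (by first | assumption | (apply Ne.symm; assumption)) (by first | assumption | (apply Ne.symm; assumption)) (by first | assumption | (apply Ne.symm; assumption)) (by first | assumption | (apply Ne.symm; assumption)) (by first | assumption | (apply Ne.symm; assumption)) (by first | assumption | (apply Ne.symm; assumption))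
    have t1 := TT_E R cb hn m i j k j (by first | assumption | (apply Ne.symm; assumption)) (by first | assumption | (apply Ne.symm; assumption)) (by first | assumption | (apply Ne.symm; assumption)) (by first | assumption | (apply Ne.symm; assumption)) (by first | assumption | (apply Ne.symm; assumption)) (by first | assumption | (apply Ne.symm; assumption)) (by first | assumption | (apply Ne.symm; assumption))
    have t2 := TT_E R cb hn m i j k i (by first | assumption | (apply Ne.symm; assumption)) (by first | assumption | (apply Ne.symm; assumption)) (by first | assumption | (apply Ne.symm; assumption)) (by first | assumption | (apply Ne.symm; assumption)) (by first | assumption | (apply Ne.symm; assumption)) (by first | assumption | (apply Ne.symm; assumption)) (by first | assumption | (apply Ne.symm; assumption))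
    show DD E i j k * cm (E m j) (E m i) * (DD E i j k)⁻¹ = _
    rw [cj_cm, d1, fix d2]
    exact cm_drop t1 (cm_cm t1 t2)
  have c7 := FF_DD R cb hn p i m k i j k (by first | assumption | (apply Ne.symm; assumption)) (by first | assumption | (apply Ne.symm; assumption)) (by first | assumption | (apply Ne.symm; assumption)) (by first | assumption | (apply Ne.symm; assumption)) (by first | assumption | (apply Ne.symm; assumption)) (by first | assumption | (apply Ne.symm; assumption)) (by first | assumption | (apply Ne.symm; assumption)) (by first | assumption | (apply Ne.symm; assumption))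
  have c8 := FF_MM R cb hn p i j k m j i (by first | assumption | (apply Ne.symm; assumption)) (by first | assumption | (apply Ne.symm; assumption)) (by first | assumption | (apply Ne.symm; assumption)) (by first | assumption | (apply Ne.symm; assumption)) (by first | assumption | (apply Ne.symm; assumption)) (by first | assumption | (apply Ne.symm; assumption)) (by first | assumption | (apply Ne.symm; assumption)) (by first | assumption | (apply Ne.symm; assumption)) (by first | assumption | (apply Ne.symm; assumption))
  have c9 := FF_MM R cb hn p i m k m j i (by first | assumption | (apply Ne.symm; assumption)) (by first | assumption | (apply Ne.symm; assumption)) (by first | assumption | (apply Ne.symm; assumption)) (by first | assumption | (apply Ne.symm; assumption)) (by first | assumption | (apply Ne.symm; assumption)) (by first | assumption | (apply Ne.symm; assumption)) (by first | assumption | (apply Ne.symm; assumption)) (by first | assumption | (apply Ne.symm; assumption)) (by first | assumption | (apply Ne.symm; assumption))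
  have c10 := FF_FF R cb hn p i j k p i m k (by first | assumption | (apply Ne.symm; assumption)) (by first | assumption | (apply Ne.symm; assumption)) (by first | assumption | (apply Ne.symm; assumption)) (by first | assumption | (apply Ne.symm; assumption)) (by first | assumption | (apply Ne.symm; assumption)) (by first | assumption | (apply Ne.symm; assumption)) (by first | assumption | (apply Ne.symm; assumption)) (by first | assumption | (apply Ne.symm; assumption)) (by first | assumption | (apply Ne.symm; assumption))
  set D1 := DD E i j k
  set D2 := DD E i m k
  set μ := MM E m j i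
  set K := KK E j i
  set φ := FF E i m j k
  set f1 := FF E p i j k
  set f2 := FF E p i m k
  have e1 : (φ * D1 * D2) * (μ⁻¹ * K) * (φ * D1 * D2)⁻¹ =
      φ * ((D1 * μ * D1⁻¹)⁻¹ * (D1 * f2 * D1⁻¹) * (D1 * K * D1⁻¹)) * φ⁻¹ := by
    calc (φ * D1 * D2) * (μ⁻¹ * K) * (φ * D1 * D2)⁻¹
        = φ * (D1 * ((D2 * μ * D2⁻¹)⁻¹ * (D2 * K * D2⁻¹)) * D1⁻¹) * φ⁻¹ := by group
      _ = φ * (D1 * (μ⁻¹ * (f2 * K)) * D1⁻¹) * φ⁻¹ := by rw [fix c5, a0]
      _ = _ := by group
  rw [e1, fix c6, fix c7.symm] at V
  have e2 : D1 * K * D1⁻¹ = f2⁻¹ * μ * (φ⁻¹ * ((f1 * f2) * (μ⁻¹ * K)) * φ) := by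
    rw [← V]; group
  have c11 := FF_FF R cb hn i m j k p i j k (by first | assumption | (apply Ne.symm; assumption)) (by first | assumption | (apply Ne.symm; assumption)) (by first | assumption | (apply Ne.symm; assumption)) (by first | assumption | (apply Ne.symm; assumption)) (by first | assumption | (apply Ne.symm; assumption)) (by first | assumption | (apply Ne.symm; assumption)) (by first | assumption | (apply Ne.symm; assumption)) (by first | assumption | (apply Ne.symm; assumption)) (by first | assumption | (apply Ne.symm; assumption))
  have c12 := FF_FF R cb hn i m j k p i m k (by first | assumption | (apply Ne.symm; assumption)) (by first | assumption | (apply Ne.symm; assumption)) (by first | assumption | (apply Ne.symm; assumption)) (by first | assumption | (apply Ne.symm; assumption)) (by first | assumption | (apply Ne.symm; assumption)) (by first | assumption | (apply Ne.symm; assumption)) (by first | assumption | (apply Ne.symm; assumption)) (by first | assumption | (apply Ne.symm; assumption)) (by first | assumption | (apply Ne.symm; assumption))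
  have c13 : Commute φ⁻¹ ((f1 * f2) * (μ⁻¹ * K)) :=
    ((c11.mul_right c12).mul_right (c1.inv_right.mul_right c2)).inv_left
  rw [e2, c13.eq, inv_mul_cancel_right]
  have c14 : Commute μ (f1 * f2) := (c8.symm.mul_right c9.symm)
  calc f2⁻¹ * μ * (f1 * f2 * (μ⁻¹ * K)) = f2⁻¹ * (μ * (f1 * f2)) * μ⁻¹ * K := by group
    _ = f2⁻¹ * ((f1 * f2) * μ) * μ⁻¹ * K := by rw [c14.eq]
    _ = f2⁻¹ * (f2 * f1) * K := by rw [c10.eq]; group
    _ = f1 * K := by group

end

end Pool.Agent.TH271.CV
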