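import Pool.Agent.TH271.CU.Abel
import Pool.Agent.TH271.CV.Act
import Pool.Agent.TH271.CV.Key

set_option autoImplicit false
set_option linter.unusedSectionVars false
set_option linter.unusedVariables false

namespace Pool.Agent.TH271.CV
open Pool.Agent.Helper156.OF Pool.Agent.TH271.CU

section grp

variable {G : Type} [Group G]

lemma kkn_of_cm {a b : G} (h : cm a b = 1) : Commute a b := by
  show a * b = b * a
  have e : cm a b * (b * a) = a * b := by unfold cm; group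
  rw [← e, h, one_mul]

lemma kkn_of_conj {a b : G} (h : a * b * a⁻¹ = b) : Commute a b := by
  show a * b = b * a
  calc a * b = a * b * a⁻¹ * a := by group
    _ = b * a := by rw [h]

lemma kkn_comm_cm {g a b : G} (ha : Commute g a) (hb : Commute g b) : Commute g (cm a b) := by
  unfold cm
  exact ((ha.mul_right hb).mul_right ha.inv_right).mul_right hb.inv_right

lemma kkn_conj4 {g A B u d : G} (hd : u * A * u⁻¹ * A⁻¹ = d) (hu : Commute u d)
    (hA : Commute A d) (hB : Commute B d) (h1 : g * A * g⁻¹ = u⁻¹ * A * u) (h2 : Commute g B) :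
    Commute g (cm A B) := by
  have e1 : u⁻¹ * A * u = d⁻¹ * A := by
    have e2 : u * A * u⁻¹ = d * A := by rw [← hd]; group
    have e3 : d⁻¹ * u = u * d⁻¹ := (hu.inv_right).eq.symm
    calc u⁻¹ * A * u = u⁻¹ * d⁻¹ * (d * A) * u := by group
      _ = u⁻¹ * (d⁻¹ * u) * A := by rw [← e2]; group
      _ = d⁻¹ * A := by rw [e3]; group
  have e4 : A⁻¹ * d = d * A⁻¹ := (hA.inv_left).eq
  have e5 : B⁻¹ * d = d * B⁻¹ := (hB.inv_left).eq
  have e6 : B * d = d * B := hB.eq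
  have e7 : A * d = d * A := hA.eq
  apply kkn_of_conj
  calc g * cm A B * g⁻¹ = (g * A * g⁻¹) * (g * B * g⁻¹) * (g * A * g⁻¹)⁻¹ * (g * B * g⁻¹)⁻¹ := by
        unfold cm; group
    _ = (d⁻¹ * A) * B * (d⁻¹ * A)⁻¹ * B⁻¹ := by rw [h1, e1, h2.eq]; group
    _ = d⁻¹ * A * B * (A⁻¹ * d) * B⁻¹ := by group
    _ = d⁻¹ * A * (B * d) * A⁻¹ * B⁻¹ := by rw [e4]; group
    _ = d⁻¹ * (A * d) * B * A⁻¹ * B⁻¹ := by rw [e6]; group
    _ = cm A B := by rw [e7]; unfold cm; group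

lemma kkn_t4 {g A M e t : G} (h1 : g * A * g⁻¹ = e⁻¹ * A * e) (h2 : Commute g M)
    (h3 : e * M * e⁻¹ = t * M) (h4 : Commute t A) (h5 : Commute t M)
    (h6 : Commute (cm A M) e) : Commute g (cm A M) := by
  have h7 : Commute t (cm A M) := kkn_comm_cm h4 h5
  apply kkn_of_conj
  calc g * cm A M * g⁻¹ = (g * A * g⁻¹) * (g * M * g⁻¹) * (g * A * g⁻¹)⁻¹ * (g * M * g⁻¹)⁻¹ := by
        unfold cm; group
    _ = (e⁻¹ * A * e) * M * (e⁻¹ * A * e)⁻¹ * M⁻¹ := by rw [h1, h2.eq]; group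
    _ = e⁻¹ * (A * (e * M * e⁻¹) * A⁻¹ * (e * M * e⁻¹)⁻¹) * e := by group
    _ = e⁻¹ * ((A * t) * M * A⁻¹ * M⁻¹ * t⁻¹) * e := by rw [h3]; group
    _ = e⁻¹ * (t * cm A M * t⁻¹) * e := by rw [← h4.eq]; unfold cm; group
    _ = e⁻¹ * (cm A M * e) := by rw [h7.eq]; group
    _ = cm A M := by rw [h6.eq]; group

lemma kkn_t5 {k K M D : G} (h1 : M * k * M⁻¹ = k * D) (h2 : Commute K k) (h3 : Commute K D)
    (h4 : Commute D (cm K M)) : Commute k (cm K M) := by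
  have e1 : k⁻¹ * M * k = D * M := by
    calc k⁻¹ * M * k = k⁻¹ * (M * k * M⁻¹) * M := by group
      _ = D * M := by rw [h1]; group
  have e2 : k⁻¹ * K * k = K := by rw [mul_assoc, h2.eq]; group
  have e3 : Commute k⁻¹ (cm K M) := by
    apply kkn_of_conj
    calc k⁻¹ * cm K M * (k⁻¹)⁻¹ = (k⁻¹ * K * k) * (k⁻¹ * M * k) * (k⁻¹ * K * k)⁻¹ *
          (k⁻¹ * M * k)⁻¹ := by unfold cm; group
      _ = (K * D) * M * K⁻¹ * M⁻¹ * D⁻¹ := by rw [e1, e2]; group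
      _ = D * cm K M * D⁻¹ := by rw [h3.eq]; unfold cm; group
      _ = cm K M := by rw [h4.eq]; group
  simpa using e3.inv_left

end grp

section

variable {α P : Type} [DecidableEq α] [Fintype α] [Group P]
variable {W : SP α →* P} {E : Lt α → Lt α → P}

omit [Group P] in
lemma kkn_fresh (hn : 5 ≤ Fintype.card α) (a b c : Lt α) :
    ∃ p : Lt α, p.1 ≠ a.1 ∧ p.1 ≠ b.1 ∧ p.1 ≠ c.1 := by
  by_contra hh
  push Not at hh
  have hs : (Finset.univ : Finset α) ⊆ {a.1, b.1, c.1} := by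
    intro i _
    simp only [Finset.mem_insert, Finset.mem_singleton]
    by_contra h
    push Not at h
    exact h.2.2 (hh (i, true) h.1 h.2.1)
  have h3 := (Finset.card_le_card hs).trans Finset.card_le_three
  rw [Finset.card_univ] at h3
  omega

variable (R : Rel W E)

include R

lemma kkn_conj {x y z : Lt α} (h1 : x.1 ≠ y.1) (h2 : x.1 ≠ z.1) (h3 : y.1 ≠ z.1) :
    KK E y z * KK E x y * (KK E y z)⁻¹ = (KK E x z)⁻¹ * KK E x y * KK E x z := by
  have k1 := KK_E R h1 h2 h3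
  have k2 := KK_E R (x := nv x) (y := y) (z := z) h1 h2 h3
  have k3 := conj_split (u := E x z) (u' := E (nv x) z) (A := E x y) (A' := E (nv x) y)
    (cs R z _ _) (RL R h2 h1) (RL' R h2 h1) (cs R y _ _)
  calc KK E y z * KK E x y * (KK E y z)⁻¹
      = (KK E y z * E x y * (KK E y z)⁻¹) * (KK E y z * E (nv x) y * (KK E y z)⁻¹) := by
        unfold KK; group
    _ = (KK E x z)⁻¹ * KK E x y * KK E x z := by rw [k1, k2, k3]; rfl

lemma kkn_fst {p y : Lt α} (h : p.1 = y.1) (q : Lt α) : KK E p q = KK E y q := by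
  rcases fst_eq_iff.1 h with h | h
  · rw [h]
  · rw [h, KK_nv R]

lemma kkn_snd {q y : Lt α} (h : q.1 = y.1) (p : Lt α) {t : P} (ht : Commute (KK E p y) t) :
    Commute (KK E p q) t := by
  rcases fst_eq_iff.1 h with h | h
  · rw [h]; exact ht
  · rw [h, KK_nv' R]; exact ht.inv_left

lemma kkn_KK_comm {p q y a : Lt α} (hyp : y.1 ≠ p.1) (hyq : y.1 ≠ q.1) (hpa : p.1 ≠ a.1) :
    Commute (KK E p q) (KK E y a) := by
  show Commute (KK E p q) (E y a * E (nv y) a)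
  exact (KK_E_comm R hyp hyq hpa).mul_right (KK_E_comm R (x := nv y) hyp hyq hpa)

end

section

variable {α P : Type} [DecidableEq α] [Fintype α] [Group P]
variable {W : SP α →* P} {E : Lt α → Lt α → P}
variable (R : Rel W E) (cb : ∀ x a : Lt α, E x a * E x a * E x a = 1)
  (hn : 5 ≤ Fintype.card α)
  (hF : ∀ p a b c : Lt α, p.1 ≠ a.1 → p.1 ≠ b.1 → p.1 ≠ c.1 → a.1 ≠ b.1 → a.1 ≠ c.1 →
    b.1 ≠ c.1 → FF E p a b c = 1)

include R cb hn hF

lemma TT_nv (x a b c : Lt α) (h1 : x.1 ≠ a.1) (h2 : x.1 ≠ b.1)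
    (h3 : x.1 ≠ c.1) (h4 : a.1 ≠ b.1) (h5 : a.1 ≠ c.1)
    (h6 : b.1 ≠ c.1) : TT E (nv x) a b c = (TT E x a b c)⁻¹ := by
  have h := FF_eq R x a b c h1 h2 h3
  rw [hF x a b c h1 h2 h3 h4 h5 h6] at h
  exact eq_inv_of_mul_eq_one_right h.symm

lemma kkn_D1 (q y a b : Lt α) (hyq : y.1 ≠ q.1) (h1 : y.1 ≠ a.1) (h2 : y.1 ≠ b.1)
    (h3 : a.1 ≠ b.1) : Commute (KK E y q) (DD E y a b) := by
  by_cases hqa : q.1 = a.1
  · exact kkn_snd R hqa y (DD_left R cb hn y a b h1 h2 h3).symm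
  by_cases hqb : q.1 = b.1
  · exact kkn_snd R hqb y (DD_right R cb hn y a b h1 h2 h3).symm
  · exact kkn_of_cm (hF y q a b hyq h1 h2 hqa hqb h3)

lemma kkn_D4 (q y a b : Lt α) (haq : a.1 ≠ q.1) (hyq : y.1 ≠ q.1) (h1 : y.1 ≠ a.1)
    (h2 : y.1 ≠ b.1) (h3 : a.1 ≠ b.1) : Commute (KK E a q) (DD E y a b) := by
  have hqa : q.1 ≠ a.1 := Ne.symm haq
  exact kkn_conj4 (g := KK E a q) (A := KK E y a) (B := KK E y b) (u := KK E y q)
    (d := DD E y q a) rfl (kkn_D1 R cb hn hF q y q a hyq hyq h1 hqa)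
    (kkn_D1 R cb hn hF a y q a h1 hyq h1 hqa) (kkn_D1 R cb hn hF b y q a h2 hyq h1 hqa)
    (kkn_conj R h1 hyq haq) (kkn_KK_comm R h1 hyq h3)

lemma kkn_D5 (y a b : Lt α) (h1 : y.1 ≠ a.1) (h2 : y.1 ≠ b.1) (h3 : a.1 ≠ b.1) :
    Commute (KK E a y) (DD E y a b) := by
  obtain ⟨p, p1, p2, p3⟩ := kkn_fresh hn y a b
  have h := gamma R cb hn y a b p h1 h2 h3 p1 p2 p3
  rw [hF p y a b p1 p2 p3 h1 h2 h3, one_mul] at h
  exact (kkn_of_conj h).symm

lemma KK_DD (p q y a b : Lt α) (hpq : p.1 ≠ q.1) (h1 : y.1 ≠ a.1)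
    (h2 : y.1 ≠ b.1) (h3 : a.1 ≠ b.1) :
    Commute (KK E p q) (DD E y a b) := by
  by_cases hpy : p.1 = y.1
  · rw [kkn_fst R hpy q]
    exact kkn_D1 R cb hn hF q y a b (hpy ▸ hpq) h1 h2 h3
  by_cases hqy : q.1 = y.1
  · refine kkn_snd R hqy p ?_
    by_cases hpa : p.1 = a.1
    · rw [kkn_fst R hpa y]
      exact kkn_D5 R cb hn hF y a b h1 h2 h3
    by_cases hpb : p.1 = b.1
    · rw [kkn_fst R hpb y]
      have h := kkn_D5 R cb hn hF y b a h2 h1 (Ne.symm h3)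
      rw [DD_swap (E := E) y a b] at h
      simpa using h.inv_right
    · have h := DD_KK R cb hn p y a b hpy hpa hpb h1 h2 h3
      rw [hF p y a b hpy hpa hpb h1 h2 h3, one_mul] at h
      exact (kkn_of_conj h).symm
  by_cases hpa : p.1 = a.1
  · rw [kkn_fst R hpa q]
    exact kkn_D4 R cb hn hF q y a b (hpa ▸ hpq) (Ne.symm hqy) h1 h2 h3
  by_cases hpb : p.1 = b.1
  · rw [kkn_fst R hpb q]
    have h := kkn_D4 R cb hn hF q y b a (hpb ▸ hpq) (Ne.symm hqy) h2 h1 (Ne.symm h3)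
    rw [DD_swap (E := E) y a b] at h
    simpa using h.inv_right
  · exact kkn_comm_cm (kkn_KK_comm R (Ne.symm hpy) (Ne.symm hqy) hpa)
      (kkn_KK_comm R (Ne.symm hpy) (Ne.symm hqy) hpb)

lemma kkn_T4 (q x a b c : Lt α) (haq : a.1 ≠ q.1) (hxq : x.1 ≠ q.1) (h1 : x.1 ≠ a.1)
    (h2 : x.1 ≠ b.1) (h3 : x.1 ≠ c.1) (h4 : a.1 ≠ b.1) (h5 : a.1 ≠ c.1)
    (h6 : b.1 ≠ c.1) : Commute (KK E a q) (TT E x a b c) := by
  have k1 := KK_E R h1 hxq haq
  have kb : Commute (KK E a q) (E x b) := KK_E_comm R h1 hxq h4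
  have kc : Commute (KK E a q) (E x c) := KK_E_comm R h1 hxq h5
  have k2 : Commute (KK E a q) (MM E x b c) := kkn_comm_cm kb kc
  have k6 : Commute (cm (E x a) (MM E x b c)) (E x q) := TT_E R cb hn x a b c q h1 h2 h3 h4 h5 h6 hxq
  by_cases hqb : q.1 = b.1
  · have hM : Commute (MM E x b c) (E x q) := by
      rcases fst_eq_iff.1 hqb with h | h
      · rw [h]; exact MM_left R cb h2 h3 h6
      · rw [h, R.e1]; exact (MM_left R cb h2 h3 h6).inv_right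
    exact kkn_t4 (t := 1) k1 k2 (by rw [← hM.eq]; group) (Commute.one_left _)
      (Commute.one_left _) k6
  by_cases hqc : q.1 = c.1
  · have hM : Commute (MM E x b c) (E x q) := by
      rcases fst_eq_iff.1 hqc with h | h
      · rw [h]; exact MM_right R cb h2 h3 h6
      · rw [h, R.e1]; exact (MM_right R cb h2 h3 h6).inv_right
    exact kkn_t4 (t := 1) k1 k2 (by rw [← hM.eq]; group) (Commute.one_left _)
      (Commute.one_left _) k6
  · have ta := TT_E R cb hn x q b c a hxq h2 h3 hqb hqc h6 h1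
    have tb := TT_E R cb hn x q b c b hxq h2 h3 hqb hqc h6 h2
    have tc := TT_E R cb hn x q b c c hxq h2 h3 hqb hqc h6 h3
    have tM : Commute (TT E x q b c) (MM E x b c) := kkn_comm_cm tb tc
    exact kkn_t4 (t := TT E x q b c) k1 k2 (by unfold TT cm; group) ta tM k6

lemma kkn_T5 (x a b c : Lt α) (h1 : x.1 ≠ a.1)
    (h2 : x.1 ≠ b.1) (h3 : x.1 ≠ c.1) (h4 : a.1 ≠ b.1) (h5 : a.1 ≠ c.1)
    (h6 : b.1 ≠ c.1) : Commute (KK E a x) (TT E x a b c) := by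
  have m1 : Commute (MM E x b c) (E (nv x) a) := MM_nvE R h2 h3 h1
  have eT : TT E x a b c = cm (KK E x a) (MM E x b c) := by
    show E x a * MM E x b c * (E x a)⁻¹ * (MM E x b c)⁻¹ =
      (E x a * E (nv x) a) * MM E x b c * (E x a * E (nv x) a)⁻¹ * (MM E x b c)⁻¹
    calc E x a * MM E x b c * (E x a)⁻¹ * (MM E x b c)⁻¹
        = E x a * (MM E x b c * E (nv x) a) * (E (nv x) a)⁻¹ * (E x a)⁻¹ * (MM E x b c)⁻¹ := by
          group
      _ = _ := by rw [m1.eq]; group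
  have hD : Commute (DD E a b c) (TT E x a b c) :=
    (kkn_comm_cm (kkn_T4 R cb hn hF b x a b c h4 h2 h1 h2 h3 h4 h5 h6).symm
      (kkn_T4 R cb hn hF c x a b c h5 h3 h1 h2 h3 h4 h5 h6).symm).symm
  rw [eT] at hD ⊢
  exact kkn_t5 (MM_KKx R cb hn a x b c (Ne.symm h1) h4 h5 h2 h3 h6) (KK_opp R cb h1)
    (KK_DD R cb hn hF x a a b c h1 h4 h5 h6) hD

lemma KK_TT (p q x a b c : Lt α) (hpq : p.1 ≠ q.1) (h1 : x.1 ≠ a.1)
    (h2 : x.1 ≠ b.1) (h3 : x.1 ≠ c.1) (h4 : a.1 ≠ b.1)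
    (h5 : a.1 ≠ c.1) (h6 : b.1 ≠ c.1) :
    Commute (KK E p q) (TT E x a b c) := by
  by_cases hpx : p.1 = x.1
  · rw [kkn_fst R hpx q]
    have hxq : x.1 ≠ q.1 := hpx ▸ hpq
    exact ((TT_E R cb hn x a b c q h1 h2 h3 h4 h5 h6 hxq).mul_right
      (TT_nvE R cb hn x a b c q h1 h2 h3 hxq)).symm
  have s12 := TT_swap12 R cb hn x a b c h1 h2 h3 h4 h5 h6
  have s12' := TT_swap12 R cb hn x a c b h1 h3 h2 h5 h4 (Ne.symm h6)
  have s23 := TT_swap23 R cb hn x a b c h1 h2 h3 h4 h5 h6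
  rw [s23, inv_inv] at s12'
  by_cases hqx : q.1 = x.1
  · refine kkn_snd R hqx p ?_
    by_cases hpa : p.1 = a.1
    · rw [kkn_fst R hpa x]
      exact kkn_T5 R cb hn hF x a b c h1 h2 h3 h4 h5 h6
    by_cases hpb : p.1 = b.1
    · rw [kkn_fst R hpb x]
      have h := kkn_T5 R cb hn hF x b a c h2 h1 h3 (Ne.symm h4) h6 h5
      rw [s12] at h
      simpa using h.inv_right
    by_cases hpc : p.1 = c.1
    · rw [kkn_fst R hpc x]
      have h := kkn_T5 R cb hn hF x c a b h3 h1 h2 (Ne.symm h5) (Ne.symm h6) h4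
      rw [s12'] at h
      exact h
    · have h := TT_KKx R cb hn p x a b c hpx hpa hpb hpc h1 h2 h3 h4 h5 h6
      rw [hF p a b c hpa hpb hpc h4 h5 h6, mul_one] at h
      exact (kkn_of_conj h).symm
  have hxq : x.1 ≠ q.1 := Ne.symm hqx
  by_cases hpa : p.1 = a.1
  · rw [kkn_fst R hpa q]
    exact kkn_T4 R cb hn hF q x a b c (hpa ▸ hpq) hxq h1 h2 h3 h4 h5 h6
  by_cases hpb : p.1 = b.1
  · rw [kkn_fst R hpb q]
    have h := kkn_T4 R cb hn hF q x b a c (hpb ▸ hpq) hxq h2 h1 h3 (Ne.symm h4) h6 h5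
    rw [s12] at h
    simpa using h.inv_right
  by_cases hpc : p.1 = c.1
  · rw [kkn_fst R hpc q]
    have h := kkn_T4 R cb hn hF q x c a b (hpc ▸ hpq) hxq h3 h1 h2 (Ne.symm h5) (Ne.symm h6) h4
    rw [s12'] at h
    exact h
  · have ca : Commute (KK E p q) (E x a) := KK_E_comm R (Ne.symm hpx) hxq hpa
    have cb' : Commute (KK E p q) (E x b) := KK_E_comm R (Ne.symm hpx) hxq hpb
    have cc : Commute (KK E p q) (E x c) := KK_E_comm R (Ne.symm hpx) hxq hpc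
    exact kkn_comm_cm ca (kkn_comm_cm cb' cc)

end

end Pool.Agent.TH271.CV
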