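import Pool.Agent.TH271.CV.Key
import Pool.Agent.TH271.CV.KKN

set_option autoImplicit false
set_option linter.unusedSectionVars false
set_option linter.unusedVariables false

namespace Pool.Agent.TH271.CV
open Pool.Agent.Helper156.OF Pool.Agent.TH271.CU

namespace EDD

section grp

variable {G : Type} [Group G]

lemma edd_conj_cm (g a b : G) : g * cm a b * g⁻¹ = cm (g * a * g⁻¹) (g * b * g⁻¹) := by
  unfold cm; group

lemma edd_conj {g a : G} (h : Commute a g) : g * a * g⁻¹ = a := by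
  rw [← h.eq, mul_inv_cancel_right]

lemma edd_comm_cm {s a b : G} (ha : Commute a s) (hb : Commute b s) : Commute (cm a b) s :=
  ((ha.mul_left hb).mul_left ha.inv_left).mul_left hb.inv_left

lemma edd_cm_one {a b : G} (h : Commute a b) : cm a b = 1 := by
  unfold cm; rw [h.eq]; group

lemma edd_mul_right {a b c : G} (h : Commute b (cm a c)) : cm a (b * c) = cm a b * cm a c := by
  have e : cm a (b * c) = cm a b * (b * cm a c * b⁻¹) := by unfold cm; group
  rw [e, edd_conj h.symm]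

lemma edd_mul_left {a b c : G} (h : Commute a (cm b c)) : cm (a * b) c = cm b c * cm a c := by
  have e : cm (a * b) c = (a * cm b c * a⁻¹) * cm a c := by unfold cm; group
  rw [e, edd_conj h.symm]

/-- The last step of the main case. -/
lemma edd_final {k1 k2 k3 m d1 d2 d3 : G} (h1 : Commute k1 m) (h2 : k2⁻¹ * m * k2 = m * d1)
    (h3 : cm k2 k3 = d2) (h4 : cm k1 k3 = d3) (k1d1 : Commute k1 d1) (k1d2 : Commute k1 d2)
    (k2d1 : Commute k2 d1) (md1 : Commute m d1) (md2 : Commute m d2) (md3 : Commute m d3) :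
    cm (k1 * k2) (m * k3) = d1⁻¹ * d2 * d3 := by
  have e2 : k2 * m * k2⁻¹ = m * d1⁻¹ := by
    have e : m = k2 * m * k2⁻¹ * d1 := by
      calc m = k2 * (k2⁻¹ * m * k2) * k2⁻¹ := by group
        _ = k2 * m * k2⁻¹ * (k2 * d1 * k2⁻¹) := by rw [h2]; group
        _ = _ := by rw [edd_conj k2d1.symm]
    calc k2 * m * k2⁻¹ = k2 * m * k2⁻¹ * d1 * d1⁻¹ := by group
      _ = _ := by rw [← e]
  have e3 : k2 * k3 * k2⁻¹ = d2 * k3 := by rw [← h3]; unfold cm; group
  have e4 : k1 * k3 * k1⁻¹ = d3 * k3 := by rw [← h4]; unfold cm; group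
  have e5 : k1 * (m * d1⁻¹ * d2) * k1⁻¹ = m * d1⁻¹ * d2 :=
    edd_conj ((h1.mul_right k1d1.inv_right).mul_right k1d2).symm
  have e6 : m * (d1⁻¹ * d2 * d3) * m⁻¹ = d1⁻¹ * d2 * d3 :=
    edd_conj ((md1.inv_right.mul_right md2).mul_right md3).symm
  calc cm (k1 * k2) (m * k3)
      = k1 * ((k2 * m * k2⁻¹) * (k2 * k3 * k2⁻¹)) * k1⁻¹ * (m * k3)⁻¹ := by unfold cm; group
    _ = k1 * (m * d1⁻¹ * d2 * k3) * k1⁻¹ * (m * k3)⁻¹ := by rw [e2, e3]; group
    _ = (k1 * (m * d1⁻¹ * d2) * k1⁻¹) * (k1 * k3 * k1⁻¹) * (m * k3)⁻¹ := by group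
    _ = m * (d1⁻¹ * d2 * d3) * m⁻¹ := by rw [e5, e4]; group
    _ = _ := e6

lemma edd_split {u u' A A' : G} (h1 : Commute u u') (h2 : Commute u A') (h3 : Commute u' A)
    (h4 : Commute A A') :
    (u⁻¹ * A * u) * (u'⁻¹ * A' * u') = (u * u')⁻¹ * (A * A') * (u * u') := by
  have e1 : u * u'⁻¹ = u'⁻¹ * u := (h1.inv_right).eq
  have e2 : A * u'⁻¹ = u'⁻¹ * A := (h3.symm.inv_right).eq
  have e3 : u * A' = A' * u := h2.eq
  have e4 : u⁻¹ * u'⁻¹ = u'⁻¹ * u⁻¹ := (h1.inv_inv).eq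
  calc (u⁻¹ * A * u) * (u'⁻¹ * A' * u') = u⁻¹ * A * (u * u'⁻¹) * A' * u' := by group
    _ = u⁻¹ * (A * u'⁻¹) * (u * A') * u' := by rw [e1]; group
    _ = (u⁻¹ * u'⁻¹) * A * A' * u * u' := by rw [e2, e3]; group
    _ = _ := by rw [e4]; group

end grp

section

variable {α P : Type} [DecidableEq α] [Fintype α] [Group P]
variable {W : SP α →* P} {E : Lt α → Lt α → P}

lemma edd_mem_DD {y a b : Lt α} (h1 : y.1 ≠ a.1) (h2 : y.1 ≠ b.1) (h3 : a.1 ≠ b.1) :
    DD E y a b ∈ N2 E :=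
  Subgroup.subset_closure (Or.inl ⟨y, a, b, h1, h2, h3, rfl⟩)

lemma edd_mem_TT {x a b c : Lt α} (h1 : x.1 ≠ a.1) (h2 : x.1 ≠ b.1) (h3 : x.1 ≠ c.1)
    (h4 : a.1 ≠ b.1) (h5 : a.1 ≠ c.1) (h6 : b.1 ≠ c.1) : TT E x a b c ∈ N2 E :=
  Subgroup.subset_closure (Or.inr ⟨x, a, b, c, h1, h2, h3, h4, h5, h6, rfl⟩)

variable (R : Rel W E)

include R

lemma edd_MM_nvE {x y z w : Lt α} (h1 : x.1 ≠ y.1) (h2 : x.1 ≠ z.1) (h3 : x.1 ≠ w.1) :
    Commute (MM E x y z) (E (nv x) w) := by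
  unfold MM
  exact (((RL R h1 h3).mul_left (RL R h2 h3)).mul_left (RL R h1 h3).inv_left).mul_left
    (RL R h2 h3).inv_left

/-- Conjugation of `KK E a y` by `KK E y b`. -/
lemma edd_KK_conj {a y b : Lt α} (h1 : a.1 ≠ y.1) (h2 : a.1 ≠ b.1) (h3 : y.1 ≠ b.1) :
    KK E y b * KK E a y * (KK E y b)⁻¹ = (KK E a b)⁻¹ * KK E a y * KK E a b := by
  have k1 := KK_E R (x := a) (y := y) (z := b) h1 h2 h3
  have k2 := KK_E R (x := nv a) (y := y) (z := b) h1 h2 h3
  have k3 := edd_split (u := E a b) (u' := E (nv a) b) (A := E a y) (A' := E (nv a) y)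
    (cs R b _ _) (RL R h2 h1) (RL' R h2 h1) (cs R y _ _)
  calc KK E y b * KK E a y * (KK E y b)⁻¹
      = (KK E y b * E a y * (KK E y b)⁻¹) * (KK E y b * E (nv a) y * (KK E y b)⁻¹) := by
        have : KK E a y = E a y * E (nv a) y := rfl
        rw [this]; group
    _ = _ := by rw [k1, k2, k3]; rfl

/-- The commutator of `KK E a y` and `KK E y b`. -/
lemma edd_cm_KK {a y b : Lt α} (h1 : a.1 ≠ y.1) (h2 : a.1 ≠ b.1) (h3 : y.1 ≠ b.1) :
    cm (KK E a y) (KK E y b) = DD E a y (nv b) := by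
  have e := edd_KK_conj R h1 h2 h3
  have e1 : cm (KK E a y) (KK E y b) =
      KK E a y * (KK E y b * KK E a y * (KK E y b)⁻¹)⁻¹ := by unfold cm; group
  rw [e1, e]
  unfold DD
  rw [KK_nv' R a b]
  unfold cm
  group

end

end EDD

open EDD

section

variable {α P : Type} [DecidableEq α] [Fintype α] [Group P]
variable {W : SP α →* P} {E : Lt α → Lt α → P}
variable (R : Rel W E) (cb : ∀ x a : Lt α, E x a * E x a * E x a = 1)
  (hn : 5 ≤ Fintype.card α)
  (hF : ∀ p a b c : Lt α, p.1 ≠ a.1 → p.1 ≠ b.1 → p.1 ≠ c.1 → a.1 ≠ b.1 → a.1 ≠ c.1 →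
    b.1 ≠ c.1 → FF E p a b c = 1)

include R cb hn hF

lemma edd_MM3 (y a b : Lt α) (h1 : y.1 ≠ a.1) (h2 : y.1 ≠ b.1) (h3 : a.1 ≠ b.1) :
    Commute (DD E y a b) (MM E a b y) := by
  obtain ⟨w, hw⟩ : ∃ w : α, w ∉ ({y.1, a.1, b.1} : Finset α) := by
    by_contra hcon
    push_neg at hcon
    have h5 : (Finset.univ : Finset α) ⊆ {y.1, a.1, b.1} := fun x _ => hcon x
    have h6 := (Finset.card_le_card h5).trans Finset.card_le_three
    rw [Finset.card_univ] at h6
    omega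
  simp only [Finset.mem_insert, Finset.mem_singleton, not_or] at hw
  obtain ⟨wy, wa, wb⟩ := hw
  have hω := omega' R cb hn y b (w, true) a h2 (Ne.symm wy) h1 (Ne.symm wb) (Ne.symm h3)
    wa
  have hne : ((w, true) : Lt α) ≠ a := fun h => wa (by rw [← h])
  have hM : Commute (MM E a b y) (E (w, true) b) := by
    have e1 : Commute (E a b) (E (w, true) b) := cs R b a (w, true)
    have e2 : Commute (E a y) (E (w, true) b) := (R.e2 (w, true) a b y hne wy h3).symm
    exact edd_comm_cm e1 e2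
  have hD : E (w, true) b * DD E y a (w, true) * (E (w, true) b)⁻¹ =
      DD E y a (w, true) * DD E y a b := by
    unfold DD
    rw [edd_conj_cm, edd_conj (KK_E_comm R (y := y) (z := a) (x := (w, true)) (w := b) wy wa h2),
      E_KK R (y := y) (z := (w, true)) (w := b) (Ne.symm wy) h2 wb]
    exact edd_mul_right (KK_DD R cb hn hF y (w, true) y a b (Ne.symm wy) h1 h2 h3)
  have h5 : Commute (DD E y a (w, true) * DD E y a b) (MM E a b y) := by
    rw [← hD]
    have h6 : MM E a b y = E (w, true) b * MM E a b y * (E (w, true) b)⁻¹ :=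
      (edd_conj hM).symm
    rw [h6]
    show _ * _ = _ * _
    have h7 := hω.eq
    calc E (w, true) b * DD E y a (w, true) * (E (w, true) b)⁻¹ *
          (E (w, true) b * MM E a b y * (E (w, true) b)⁻¹)
        = E (w, true) b * (DD E y a (w, true) * MM E a b y) * (E (w, true) b)⁻¹ := by group
      _ = E (w, true) b * (MM E a b y * DD E y a (w, true)) * (E (w, true) b)⁻¹ := by rw [h7]
      _ = _ := by group
  have h8 : DD E y a b = (DD E y a (w, true))⁻¹ * (DD E y a (w, true) * DD E y a b) := by group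
  rw [h8]
  exact hω.inv_left.mul_left h5

lemma DD_MM3 (y a b : Lt α) (h1 : y.1 ≠ a.1)
    (h2 : y.1 ≠ b.1) (h3 : a.1 ≠ b.1) :
    Commute (DD E y a b) (MM E a b y) := edd_MM3 R cb hn hF y a b h1 h2 h3

/-- Conjugation by `E y q`. -/
lemma edd_one (q y a b : Lt α) (hq : y.1 ≠ q.1) (h1 : y.1 ≠ a.1) (h2 : y.1 ≠ b.1)
    (h3 : a.1 ≠ b.1) : E y q * DD E y a b * (E y q)⁻¹ ∈ N2 E := by
  have hT : TT E y q a b ∈ N2 E := by
    by_cases hqa : q.1 = a.1
    · have : Commute (E y q) (MM E y a b) := by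
        have h5 := (MM_left R cb h1 h2 h3).symm
        rcases fst_eq_iff.1 hqa with rfl | rfl
        · exact h5
        · rw [R.e1]; exact h5.inv_left
      unfold TT
      rw [edd_cm_one this]
      exact one_mem _
    by_cases hqb : q.1 = b.1
    · have : Commute (E y q) (MM E y a b) := by
        have h5 := (MM_right R cb h1 h2 h3).symm
        rcases fst_eq_iff.1 hqb with rfl | rfl
        · exact h5
        · rw [R.e1]; exact h5.inv_left
      unfold TT
      rw [edd_cm_one this]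
      exact one_mem _
    exact edd_mem_TT hq h1 h2 hqa hqb h3
  have hc : Commute (MM E (nv y) a b) (E y q) := by
    have := edd_MM_nvE R (x := nv y) (y := a) (z := b) (w := q) h1 h2 hq
    rwa [nv_nv] at this
  have e : E y q * DD E y a b * (E y q)⁻¹ = TT E y q a b * DD E y a b := by
    rw [DD_eq R y a b h1 h2]
    calc E y q * (MM E y a b * MM E (nv y) a b) * (E y q)⁻¹
        = (E y q * MM E y a b * (E y q)⁻¹) * (E y q * MM E (nv y) a b * (E y q)⁻¹) := by group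
      _ = (E y q * MM E y a b * (E y q)⁻¹) * MM E (nv y) a b := by rw [edd_conj hc]
      _ = _ := by unfold TT cm; group
  rw [e]
  exact mul_mem hT (edd_mem_DD h1 h2 h3)

/-- Conjugation by `E a q`, `q` different from `y`. -/
lemma edd_four (q y a b : Lt α) (hq : a.1 ≠ q.1) (hqy : y.1 ≠ q.1) (h1 : y.1 ≠ a.1)
    (h2 : y.1 ≠ b.1) (h3 : a.1 ≠ b.1) : E a q * DD E y a b * (E a q)⁻¹ ∈ N2 E := by
  have e : E a q * DD E y a b * (E a q)⁻¹ = cm (KK E y a * KK E y q) (KK E y b) := by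
    unfold DD
    rw [edd_conj_cm, E_KK R (y := y) (z := a) (w := q) h1 hqy hq,
      edd_conj (KK_E_comm R (y := y) (z := b) (x := a) (w := q) (Ne.symm h1) h3 hqy)]
  rw [e]
  by_cases hqb : q.1 = b.1
  · have h5 : Commute (KK E y q) (KK E y b) := by
      rcases fst_eq_iff.1 hqb with rfl | rfl
      · exact Commute.refl _
      · rw [KK_nv' R]; exact (Commute.refl _).inv_left
    rw [edd_mul_left (by rw [edd_cm_one h5]; exact Commute.one_right _), edd_cm_one h5, one_mul]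
    exact edd_mem_DD h1 h2 h3
  · rw [edd_mul_left (KK_DD R cb hn hF y a y q b h1 hqy h2 hqb)]
    exact mul_mem (edd_mem_DD hqy h2 hqb) (edd_mem_DD h1 h2 h3)

/-- Conjugation by `E a y`. -/
lemma edd_five (y a b : Lt α) (h1 : y.1 ≠ a.1) (h2 : y.1 ≠ b.1) (h3 : a.1 ≠ b.1) :
    E a y * DD E y a b * (E a y)⁻¹ ∈ N2 E := by
  have hm : MM E a y (nv b) = MM E a b y := by
    rw [MM_nv3 R cb (Ne.symm h1) h3 h2, MM_swap a y b]
  have e : E a y * DD E y a b * (E a y)⁻¹ =
      cm (KK E a y * KK E y a) (MM E a b y * KK E y b) := by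
    have e1 : E a y * DD E y a b * (E a y)⁻¹ =
        cm (E a y * KK E y a * (E a y)⁻¹) (E a y * KK E y b * (E a y)⁻¹) := edd_conj_cm _ _ _
    rw [e1, E_KK_opp R (y := a) (z := y) (Ne.symm h1),
      E_KK_third R (p := a) (y := y) (z := b) (Ne.symm h1) h3 h2, hm]
  have hk1 : Commute (KK E a y) (MM E a b y) := by
    have h5 := (MM_right R cb h3 (Ne.symm h1) (Ne.symm h2) : Commute (MM E a b y) (E a y))
    have h6 := edd_MM_nvE R (x := a) (y := b) (z := y) (w := y) h3 (Ne.symm h1) (Ne.symm h1)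
    exact (h5.mul_right h6).symm
  have hnv : ∀ c c' : Lt α, a.1 ≠ c.1 → a.1 ≠ c'.1 → Commute (MM E a b y) (MM E (nv a) c c') := by
    intro c c' hc hc'
    have g1 := edd_MM_nvE R (x := a) (y := b) (z := y) (w := c) h3 (Ne.symm h1) hc
    have g2 := edd_MM_nvE R (x := a) (y := b) (z := y) (w := c') h3 (Ne.symm h1) hc'
    exact (edd_comm_cm g1.symm g2.symm).symm
  have hd1 : Commute (MM E a b y) (DD E a y b) := by
    rw [DD_eq R a y b (Ne.symm h1) h3, MM_swap a b y]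
    rw [← MM_swap a b y, MM_swap a b y]
    exact (Commute.refl _).inv_right.mul_right (hnv y b (Ne.symm h1) h3)
  have hd3 : Commute (MM E a b y) (DD E a y (nv b)) := by
    rw [DD_eq R a y (nv b) (Ne.symm h1) h3, hm]
    exact (Commute.refl _).mul_right (hnv y (nv b) (Ne.symm h1) h3)
  rw [e, edd_final hk1 (KK_MMx R cb hn a b y h3 (Ne.symm h1) (Ne.symm h2)) rfl
    (edd_cm_KK R (Ne.symm h1) h3 h2)
    (KK_DD R cb hn hF a y a y b (Ne.symm h1) (Ne.symm h1) h3 h2)
    (KK_DD R cb hn hF a y y a b (Ne.symm h1) h1 h2 h3)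
    (KK_DD R cb hn hF y a a y b h1 (Ne.symm h1) h3 h2) hd1
    (edd_MM3 R cb hn hF y a b h1 h2 h3).symm hd3]
  exact mul_mem (mul_mem (inv_mem (edd_mem_DD (Ne.symm h1) h3 h2)) (edd_mem_DD h1 h2 h3))
    (edd_mem_DD (Ne.symm h1) h3 h2)

/-- Conjugation by `E p q` with `p = a` up to sign. -/
lemma edd_a (p q y a b : Lt α) (hpq : p.1 ≠ q.1) (hp : p.1 = a.1) (h1 : y.1 ≠ a.1)
    (h2 : y.1 ≠ b.1) (h3 : a.1 ≠ b.1) : E p q * DD E y a b * (E p q)⁻¹ ∈ N2 E := by
  have key : ∀ a : Lt α, a.1 ≠ q.1 → y.1 ≠ a.1 → a.1 ≠ b.1 →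
      E a q * DD E y a b * (E a q)⁻¹ ∈ N2 E := by
    intro a haq h1 h3
    by_cases hqy : y.1 = q.1
    · have h5 : E a q * DD E q a b * (E a q)⁻¹ ∈ N2 E :=
        edd_five R cb hn hF q a b (Ne.symm haq) (by rw [← hqy]; exact h2) h3
      rcases fst_eq_iff.1 hqy with rfl | rfl
      · exact h5
      · rwa [DD_nv R q a b]
    · exact edd_four R cb hn hF q y a b haq hqy h1 h2 h3
  rcases fst_eq_iff.1 hp with rfl | rfl
  · exact key p hpq h1 h3
  · have h5 := key (nv a) hpq h1 h3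
    rw [DD_inv1 R cb hn y a b h1 h2 h3] at h5
    have h6 : E (nv a) q * DD E y a b * (E (nv a) q)⁻¹ =
        (E (nv a) q * (DD E y a b)⁻¹ * (E (nv a) q)⁻¹)⁻¹ := by group
    rw [h6]
    exact inv_mem h5

lemma E_DD_mem (p q y a b : Lt α) (hpq : p.1 ≠ q.1) (h1 : y.1 ≠ a.1)
    (h2 : y.1 ≠ b.1) (h3 : a.1 ≠ b.1) :
    E p q * DD E y a b * (E p q)⁻¹ ∈ N2 E := by
  by_cases hpy : p.1 = y.1
  · rcases fst_eq_iff.1 hpy with rfl | rfl
    · exact edd_one R cb hn hF q p a b hpq h1 h2 h3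
    · rw [← DD_nv R y a b]
      exact edd_one R cb hn hF q (nv y) a b hpq h1 h2 h3
  by_cases hpa : p.1 = a.1
  · exact edd_a R cb hn hF p q y a b hpq hpa h1 h2 h3
  by_cases hpb : p.1 = b.1
  · have h5 := edd_a R cb hn hF p q y b a hpq hpb h2 h1 (Ne.symm h3)
    have h6 : E p q * DD E y a b * (E p q)⁻¹ = (E p q * DD E y b a * (E p q)⁻¹)⁻¹ := by
      rw [DD_swap y a b]; group
    rw [h6]
    exact inv_mem h5
  by_cases hqy : y.1 = q.1
  · have g1 := DD_E R cb hn p y a b hpy hpa hpb h1 h2 h3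
    have hT : TT E p y a b ∈ N2 E := edd_mem_TT hpy hpa hpb h1 h2 h3
    have hTE := TT_E R cb hn p y a b y hpy hpa hpb h1 h2 h3 hpy
    have g2 : E p y * DD E y a b * (E p y)⁻¹ = (TT E p y a b)⁻¹ * DD E y a b := by
      have g3 : DD E y a b * E p y = TT E p y a b * E p y * DD E y a b := by
        rw [← g1]; group
      calc E p y * DD E y a b * (E p y)⁻¹
          = (TT E p y a b)⁻¹ * (TT E p y a b * E p y * DD E y a b) * (E p y)⁻¹ := by group
        _ = _ := by rw [← g3]; group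
    rcases fst_eq_iff.1 hqy.symm with rfl | rfl
    · rw [g2]
      exact mul_mem (inv_mem hT) (edd_mem_DD h1 h2 h3)
    · rw [R.e1, inv_inv]
      have g4 : (E p y)⁻¹ * DD E y a b * E p y = TT E p y a b * DD E y a b := by
        have g5 : DD E y a b = (E p y)⁻¹ * ((TT E p y a b)⁻¹ * DD E y a b) * E p y := by
          rw [← g2]; group
        have g6 : (E p y)⁻¹ * TT E p y a b * E p y = TT E p y a b := by
          rw [mul_assoc, hTE.eq]; group
        calc (E p y)⁻¹ * DD E y a b * E p y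
            = ((E p y)⁻¹ * TT E p y a b * E p y) *
              ((E p y)⁻¹ * ((TT E p y a b)⁻¹ * DD E y a b) * E p y) := by group
          _ = _ := by rw [g6, ← g5]
      rw [g4]
      exact mul_mem hT (edd_mem_DD h1 h2 h3)
  · have hc : Commute (DD E y a b) (E p q) :=
      edd_comm_cm (KK_E_comm R (y := y) (z := a) (x := p) (w := q) hpy hpa hqy)
        (KK_E_comm R (y := y) (z := b) (x := p) (w := q) hpy hpb hqy)
    rw [edd_conj hc]
    exact edd_mem_DD h1 h2 h3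

end

end Pool.Agent.TH271.CV
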