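import Pool.Agent.TH271.CV.Inst
import Pool.Agent.TH271.CV.Act
import Pool.Agent.TH271.CV.KKN

set_option autoImplicit false
set_option linter.unusedSectionVars false
set_option linter.unusedVariables false

namespace Pool.Agent.TH271.CV
open Pool.Agent.Helper156.OF Pool.Agent.TH271.CU

section grpJ

variable {G : Type} [Group G]

lemma cmJ_comm {g h x : G} (hg : Commute g x) (hh : Commute h x) : Commute (cm g h) x := by
  unfold cm
  exact ((hg.mul_left hh).mul_left hg.inv_left).mul_left hh.inv_left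

lemma cmJ_mul {a b g h : G} (ga : Commute g a) (gb : Commute g b) (ha : Commute h a)
    (hb : Commute h b) : cm (a * g) (b * h) = cm a b * cm g h := by
  have e1 : Commute (cm g h) (a⁻¹ * b⁻¹) :=
    (cmJ_comm ga.inv_right ha.inv_right).mul_right (cmJ_comm gb.inv_right hb.inv_right)
  have e2 : g * b = b * g := gb.eq
  have e3 : a⁻¹ * h⁻¹ = h⁻¹ * a⁻¹ := (ha.symm.inv_inv).eq
  calc cm (a * g) (b * h) = a * (g * b) * h * g⁻¹ * (a⁻¹ * h⁻¹) * b⁻¹ := by unfold cm; group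
    _ = a * b * (cm g h * (a⁻¹ * b⁻¹)) := by rw [e2, e3]; unfold cm; group
    _ = a * b * (a⁻¹ * b⁻¹ * cm g h) := by rw [e1.eq]
    _ = cm a b * cm g h := by unfold cm; group

lemma cmJ_conj {g h x : G} : x * cm g h * x⁻¹ = cm (x * g * x⁻¹) (x * h * x⁻¹) := by
  unfold cm; group

lemma cmJ_conj' {g h x : G} : x⁻¹ * cm g h * x = cm (x⁻¹ * g * x) (x⁻¹ * h * x) := by
  unfold cm; group

lemma cmJ_one {g h : G} (c : Commute g h) : cm g h = 1 := by
  unfold cm; rw [c.eq]; group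

lemma cmJ_mul_left {g h m : G} : cm (g * h) m = g * cm h m * g⁻¹ * cm g m := by
  unfold cm; group

lemma conjJ_eq {g h : G} (c : Commute g h) : g * h * g⁻¹ = h := by
  rw [c.eq]; group

/-- the computation in the last case -/
lemma calcJ {k1 k2 m1 m2 t t1 d d2 : G} (a1 : k2 * m2 * k2⁻¹ = t * m2)
    (a2 : m1 * k2 * m1⁻¹ = k2 * d) (a3 : k1 * m1 * k1⁻¹ = t1 * m1)
    (a4 : m2 * k1 * m2⁻¹ = k1 * d2) (c1 : Commute k2 d) (c2 : Commute k1 d) (c3 : Commute k1 t)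
    (c4 : Commute k1 t1) (c5 : Commute m1 t) (c6 : Commute m1 d2) :
    cm (k1⁻¹ * k2) (m1 * m2) = d⁻¹ * t1⁻¹ * t * d2 := by
  have b2 : k2 * m1 * k2⁻¹ = d⁻¹ * m1 := by
    have e : k2⁻¹ * (m1 * k2 * m1⁻¹) * m1 = d * m1 := by rw [a2]; group
    have e' : k2⁻¹ * m1 * k2 = d * m1 := by rw [← e]; group
    calc k2 * m1 * k2⁻¹ = d⁻¹ * (d * k2) * m1 * k2⁻¹ := by group
      _ = d⁻¹ * (k2 * d) * m1 * k2⁻¹ := by rw [c1.eq]
      _ = d⁻¹ * k2 * (d * m1) * k2⁻¹ := by group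
      _ = d⁻¹ * m1 := by rw [← e']; group
  have b3 : k1⁻¹ * m1 * k1 = t1⁻¹ * m1 := by
    calc k1⁻¹ * m1 * k1 = t1⁻¹ * (t1 * k1⁻¹) * m1 * k1 := by group
      _ = t1⁻¹ * (k1⁻¹ * t1) * m1 * k1 := by rw [c4.inv_left.eq]
      _ = t1⁻¹ * k1⁻¹ * (t1 * m1) * k1 := by group
      _ = t1⁻¹ * m1 := by rw [← a3]; group
  have b4 : k1⁻¹ * m2 * k1 = d2 * m2 := by
    have e : k1⁻¹ * (m2 * k1 * m2⁻¹) * m2 = d2 * m2 := by rw [a4]; group
    rw [← e]; group
  have b5 : k1⁻¹ * d⁻¹ * k1 = d⁻¹ := by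
    rw [c2.inv_inv.eq]; group
  have b6 : k1⁻¹ * t * k1 = t := by
    rw [c3.inv_left.eq]; group
  have b7 : m1 * (t * d2) * m1⁻¹ = t * d2 := conjJ_eq (c5.mul_right c6)
  calc cm (k1⁻¹ * k2) (m1 * m2)
      = k1⁻¹ * ((k2 * m1 * k2⁻¹) * (k2 * m2 * k2⁻¹)) * k1 * (m1 * m2)⁻¹ := by unfold cm; group
    _ = (k1⁻¹ * d⁻¹ * k1) * (k1⁻¹ * m1 * k1) * (k1⁻¹ * t * k1) * (k1⁻¹ * m2 * k1) *
        (m1 * m2)⁻¹ := by rw [b2, a1]; group
    _ = d⁻¹ * t1⁻¹ * (m1 * (t * d2) * m1⁻¹) := by rw [b5, b3, b6, b4]; group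
    _ = _ := by rw [b7]; group

end grpJ

section

variable {α P : Type} [DecidableEq α] [Fintype α] [Group P]
variable {W : SP α →* P} {E : Lt α → Lt α → P}

omit [DecidableEq α] [Fintype α] in
lemma DD_memJ {y a b : Lt α} (h1 : y.1 ≠ a.1) (h2 : y.1 ≠ b.1) (h3 : a.1 ≠ b.1) :
    DD E y a b ∈ N2 E :=
  Subgroup.subset_closure (Or.inl ⟨y, a, b, h1, h2, h3, rfl⟩)

omit [DecidableEq α] [Fintype α] in
lemma TT_memJ {x a b c : Lt α} (h1 : x.1 ≠ a.1) (h2 : x.1 ≠ b.1) (h3 : x.1 ≠ c.1)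
    (h4 : a.1 ≠ b.1) (h5 : a.1 ≠ c.1) (h6 : b.1 ≠ c.1) : TT E x a b c ∈ N2 E :=
  Subgroup.subset_closure (Or.inr ⟨x, a, b, c, h1, h2, h3, h4, h5, h6, rfl⟩)

omit [DecidableEq α] [Fintype α] in
lemma inv_memJ {g u : P} (h : g * u⁻¹ * g⁻¹ ∈ N2 E) : g * u * g⁻¹ ∈ N2 E := by
  have : g * u * g⁻¹ = (g * u⁻¹ * g⁻¹)⁻¹ := by group
  rw [this]; exact inv_mem h

section

variable (R : Rel W E)

include R

/-- two letters with different first letters in disjoint position -/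
lemma eeJ {x p u v : Lt α} (hp : p.1 ≠ x.1) (h1 : x.1 ≠ v.1) (h2 : p.1 ≠ u.1) :
    Commute (E x u) (E p v) :=
  R.e2 x p u v (fun h => hp (by rw [h])) h1 h2

/-- conjugation of `MM` by `E p x` inverse -/
lemma MM_conjJ {x p b c : Lt α} (hp : p.1 ≠ x.1) (hb : x.1 ≠ b.1) (hc : x.1 ≠ c.1)
    (pb : p.1 ≠ b.1) (pc : p.1 ≠ c.1) :
    (E p x)⁻¹ * MM E x b c * E p x = MM E p b c * MM E x b c := by
  have k1 : (E p x)⁻¹ * E x b * E p x = E p b * E x b := c4 R hp pb hb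
  have k2 : (E p x)⁻¹ * E x c * E p x = E p c * E x c := c4 R hp pc hc
  have e0 : MM E x b c = cm (E x b) (E x c) := rfl
  have e1 : MM E p b c = cm (E p b) (E p c) := rfl
  rw [e0, e1, cmJ_conj', k1, k2]
  exact cmJ_mul (eeJ R hp hb pb) (eeJ R hp hc pb) (eeJ R hp hb pc) (eeJ R hp hc pc)

/-- conjugation of `TT` by `E p x` inverse, `p` outside -/
lemma TT_conjJ {x p a b c : Lt α} (hp : p.1 ≠ x.1) (ha : x.1 ≠ a.1) (hb : x.1 ≠ b.1)
    (hc : x.1 ≠ c.1) (pa : p.1 ≠ a.1) (pb : p.1 ≠ b.1) (pc : p.1 ≠ c.1) :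
    (E p x)⁻¹ * TT E x a b c * E p x = TT E p a b c * TT E x a b c := by
  have k1 : (E p x)⁻¹ * E x a * E p x = E p a * E x a := c4 R hp pa ha
  have k2 := MM_conjJ R hp hb hc pb pc
  unfold TT
  rw [cmJ_conj', k1, k2]
  have x_b : ∀ u v : Lt α, x.1 ≠ v.1 → p.1 ≠ u.1 → Commute (E x u) (E p v) :=
    fun u v h1 h2 => eeJ R hp h1 h2
  refine cmJ_mul (x_b a a ha pa) ?_ ?_ ?_
  · exact (cmJ_comm (x_b a b hb pa).symm (x_b a c hc pa).symm).symm
  · exact cmJ_comm (x_b b a ha pb) (x_b c a ha pc)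
  · exact cmJ_comm (cmJ_comm (x_b b b hb pb).symm (x_b b c hc pb).symm).symm
      (cmJ_comm (x_b c b hb pc).symm (x_b c c hc pc).symm).symm

/-- `TT` through the partial conjugation -/
lemma KK_MMJ {x a b c : Lt α} (ha : x.1 ≠ a.1) (hb : x.1 ≠ b.1) (hc : x.1 ≠ c.1) :
    KK E x a * MM E x b c * (KK E x a)⁻¹ = TT E x a b c * MM E x b c := by
  have h1 : Commute (E (nv x) a) (MM E x b c) :=
    (cmJ_comm (RL R hb ha) (RL R hc ha)).symm
  calc KK E x a * MM E x b c * (KK E x a)⁻¹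
      = E x a * (E (nv x) a * MM E x b c * (E (nv x) a)⁻¹) * (E x a)⁻¹ := by unfold KK; group
    _ = _ := by rw [conjJ_eq h1]; unfold TT cm; group

end

variable (R : Rel W E) (cb : ∀ x a : Lt α, E x a * E x a * E x a = 1)
  (hn : 5 ≤ Fintype.card α)
  (hF : ∀ p a b c : Lt α, p.1 ≠ a.1 → p.1 ≠ b.1 → p.1 ≠ c.1 → a.1 ≠ b.1 → a.1 ≠ c.1 →
    b.1 ≠ c.1 → FF E p a b c = 1)

include R cb hn hF

/-- conjugation by `(E p x)⁻¹`, `p` in the first slot -/
lemma TT_invJ (p x b c : Lt α) (h1 : p.1 ≠ x.1) (h2 : p.1 ≠ b.1) (h3 : p.1 ≠ c.1)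
    (h4 : x.1 ≠ b.1) (h5 : x.1 ≠ c.1) (h6 : b.1 ≠ c.1) :
    (E p x)⁻¹ * TT E x p b c * E p x ∈ N2 E := by
  have hxp : x.1 ≠ p.1 := Ne.symm h1
  have k2 : (E p x)⁻¹ * KK E x p * E p x = (KK E p x)⁻¹ * KK E x p := by
    have := E_KK_opp R (y := p) (z := nv x) (by simpa using h1)
    rw [R.e1, inv_inv, KK_nv R, KK_nv' R] at this
    exact this
  have kM := MM_conjJ R h1 h4 h5 h2 h3
  have a1 := KK_MMJ R (x := x) (a := p) (b := b) (c := c) hxp h4 h5
  have a3 := KK_MMJ R (x := p) (a := x) (b := b) (c := c) h1 h2 h3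
  have a2 := MM_KKx R cb hn x p b c hxp h4 h5 h2 h3 h6
  have a4 := MM_KKx R cb hn p x b c h1 h2 h3 h4 h5 h6
  have c1 : Commute (KK E x p) (DD E x b c) := KK_DD R cb hn hF x p x b c hxp h4 h5 h6
  have c2 : Commute (KK E p x) (DD E x b c) := KK_DD R cb hn hF p x x b c h1 h4 h5 h6
  have c3 : Commute (KK E p x) (TT E x p b c) := KK_TT R cb hn hF p x x p b c h1 hxp h4 h5 h2 h3 h6
  have c4' : Commute (KK E p x) (TT E p x b c) := KK_TT R cb hn hF p x p x b c h1 h1 h2 h3 h4 h5 h6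
  have c6 : Commute (MM E p b c) (DD E p b c) := by
    rw [DD_eq R p b c h2 h3]
    refine (Commute.refl _).mul_right ?_
    exact cmJ_comm (cmJ_comm (RL R h2 h2).symm (RL R h2 h3).symm).symm
      (cmJ_comm (RL R h3 h2).symm (RL R h3 h3).symm).symm
  have c5 : Commute (MM E p b c) (TT E x p b c) := by
    have m1 := MM_Ex R cb hn x p b c hxp h4 h5 h2 h3 h6
    have m2 : Commute (MM E p b c) (MM E x b c) := by
      have q : ∀ u v : Lt α, x.1 ≠ u.1 → p.1 ≠ v.1 → Commute (E p u) (E x v) :=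
        fun u v hu hv => (eeJ R h1 hu hv).symm
      exact cmJ_comm (cmJ_comm (q b b h4 h2).symm (q b c h4 h3).symm).symm
        (cmJ_comm (q c b h5 h2).symm (q c c h5 h3).symm).symm
    have e : MM E p b c * TT E x p b c * (MM E p b c)⁻¹ = TT E x p b c := by
      unfold TT
      rw [cmJ_conj, m1, conjJ_eq m2]
      unfold cm; group
    show MM E p b c * TT E x p b c = TT E x p b c * MM E p b c
    calc MM E p b c * TT E x p b c = (MM E p b c * TT E x p b c * (MM E p b c)⁻¹) * MM E p b c := by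
          group
      _ = _ := by rw [e]
  have hT : TT E x p b c = cm (KK E x p) (MM E x b c) := by
    have : cm (KK E x p) (MM E x b c) =
        KK E x p * MM E x b c * (KK E x p)⁻¹ * (MM E x b c)⁻¹ := rfl
    rw [this, a1]; group
  have hc : (E p x)⁻¹ * TT E x p b c * E p x =
      (DD E x b c)⁻¹ * (TT E p x b c)⁻¹ * TT E x p b c * DD E p b c := by
    have : (E p x)⁻¹ * TT E x p b c * E p x =
        cm ((KK E p x)⁻¹ * KK E x p) (MM E p b c * MM E x b c) := by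
      rw [hT, cmJ_conj', k2, kM]
    rw [this]
    exact calcJ a1 a2 a3 a4 c1 c2 c3 c4' c5 c6
  rw [hc]
  exact mul_mem (mul_mem (mul_mem (inv_mem (DD_memJ h4 h5 h6))
    (inv_mem (TT_memJ h1 h2 h3 h4 h5 h6))) (TT_memJ hxp h4 h5 h2 h3 h6)) (DD_memJ h2 h3 h6)

/-- `p` in the first slot -/
lemma E_TT_aJ (p q x b c : Lt α) (hpq : p.1 ≠ q.1) (h1 : p.1 ≠ x.1) (h2 : p.1 ≠ b.1)
    (h3 : p.1 ≠ c.1) (h4 : x.1 ≠ b.1) (h5 : x.1 ≠ c.1) (h6 : b.1 ≠ c.1) :
    E p q * TT E x p b c * (E p q)⁻¹ ∈ N2 E := by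
  have hxp : x.1 ≠ p.1 := Ne.symm h1
  by_cases hqx : q.1 = x.1
  · rcases fst_eq_iff.1 hqx with rfl | rfl
    · -- `q = x`
      have h := TT_invJ R cb hn hF p (nv q) b c (by simpa using h1) h2 h3 (by simpa using h4)
        (by simpa using h5) h6
      rw [TT_nv R cb hn hF q p b c hxp h4 h5 h2 h3 h6, R.e1, inv_inv] at h
      exact inv_memJ h
    · have h := TT_invJ R cb hn hF p x b c h1 h2 h3 h4 h5 h6
      rw [R.e1, inv_inv]; exact h
  · have hxq : x.1 ≠ q.1 := fun h => hqx h.symm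
    have f1 : E p q * E x p * (E p q)⁻¹ = E x p * E x q := c1 R hxp hxq hpq
    have fb : Commute (E p q) (E x b) := (eeJ R h1 hxq h2).symm
    have fc : Commute (E p q) (E x c) := (eeJ R h1 hxq h3).symm
    have fm : Commute (E p q) (MM E x b c) := (cmJ_comm fb.symm fc.symm).symm
    have e : E p q * TT E x p b c * (E p q)⁻¹ =
        E x p * cm (E x q) (MM E x b c) * (E x p)⁻¹ * TT E x p b c := by
      unfold TT
      rw [cmJ_conj, f1, conjJ_eq fm, cmJ_mul_left]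
    rw [e]
    refine mul_mem ?_ (TT_memJ hxp h4 h5 h2 h3 h6)
    have one : ∀ u : Lt α, u.1 = q.1 → Commute (MM E x b c) (E x u) →
        E x p * cm (E x q) (MM E x b c) * (E x p)⁻¹ ∈ N2 E := by
      intro u hu hcu
      have : Commute (E x q) (MM E x b c) := by
        rcases fst_eq_iff.1 hu with rfl | rfl
        · exact hcu.symm
        · rw [R.e1] at hcu
          have := hcu.inv_right
          rw [inv_inv] at this
          exact this.symm
      rw [cmJ_one this]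
      simp
    by_cases hqb : b.1 = q.1
    · exact one b hqb (MM_left R cb h4 h5 h6)
    by_cases hqc : c.1 = q.1
    · exact one c hqc (MM_right R cb h4 h5 h6)
    · have t := TT_E R cb hn x q b c p hxq h4 h5 (fun h => hqb h.symm) (fun h => hqc h.symm) h6 hxp
      have : E x p * cm (E x q) (MM E x b c) * (E x p)⁻¹ = TT E x q b c := conjJ_eq t.symm
      rw [this]
      exact TT_memJ hxq h4 h5 (fun h => hqb h.symm) (fun h => hqc h.symm) h6

lemma E_TT_mem (p q x a b c : Lt α) (hpq : p.1 ≠ q.1) (h1 : x.1 ≠ a.1)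
    (h2 : x.1 ≠ b.1) (h3 : x.1 ≠ c.1) (h4 : a.1 ≠ b.1)
    (h5 : a.1 ≠ c.1) (h6 : b.1 ≠ c.1) :
    E p q * TT E x a b c * (E p q)⁻¹ ∈ N2 E := by
  by_cases hpx : p.1 = x.1
  · have hxq : x.1 ≠ q.1 := hpx ▸ hpq
    have : Commute (TT E x a b c) (E p q) := by
      rcases fst_eq_iff.1 hpx with rfl | rfl
      · exact TT_E R cb hn p a b c q h1 h2 h3 h4 h5 h6 hxq
      · exact TT_nvE R cb hn x a b c q h1 h2 h3 hxq
    rw [conjJ_eq this.symm]
    exact TT_memJ h1 h2 h3 h4 h5 h6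
  have hxp : x.1 ≠ p.1 := fun h => hpx h.symm
  -- the letter `p` in the first slot
  have key : ∀ a b c : Lt α, x.1 ≠ a.1 → x.1 ≠ b.1 → x.1 ≠ c.1 → a.1 ≠ b.1 → a.1 ≠ c.1 →
      b.1 ≠ c.1 → a.1 = p.1 → E p q * TT E x a b c * (E p q)⁻¹ ∈ N2 E := by
    intro a b c h1 h2 h3 h4 h5 h6 hap
    rcases fst_eq_iff.1 hap with rfl | rfl
    · exact E_TT_aJ R cb hn hF a q x b c hpq hpx h4 h5 h2 h3 h6
    · rw [TT_inv1 R cb hn x p b c hxp h2 h3 (by simpa using h4) (by simpa using h5) h6]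
      refine inv_memJ ?_
      rw [inv_inv]
      exact E_TT_aJ R cb hn hF p q x b c hpq hpx (by simpa using h4) (by simpa using h5) h2 h3 h6
  by_cases hpa : a.1 = p.1
  · exact key a b c h1 h2 h3 h4 h5 h6 hpa
  by_cases hpb : b.1 = p.1
  · have h := key b a c h2 h1 h3 (Ne.symm h4) h6 h5 hpb
    rw [TT_swap12 R cb hn x a b c h1 h2 h3 h4 h5 h6] at h
    exact inv_memJ h
  by_cases hpc : c.1 = p.1
  · have h := key c a b h3 h1 h2 (Ne.symm h5) (Ne.symm h6) h4 hpc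
    rw [TT_swap12 R cb hn x a c b h1 h3 h2 h5 h4 (Ne.symm h6),
      TT_swap23 R cb hn x a b c h1 h2 h3 h4 h5 h6, inv_inv] at h
    exact h
  have pa : p.1 ≠ a.1 := fun h => hpa h.symm
  have pb : p.1 ≠ b.1 := fun h => hpb h.symm
  have pc : p.1 ≠ c.1 := fun h => hpc h.symm
  by_cases hqx : q.1 = x.1
  · rcases fst_eq_iff.1 hqx with rfl | rfl
    · have h := TT_conjJ R (x := nv q) (p := p) (a := a) (b := b) (c := c) (by simpa using hpq)
        (by simpa using h1) (by simpa using h2) (by simpa using h3) pa pb pc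
      rw [TT_nv R cb hn hF q a b c h1 h2 h3 h4 h5 h6, R.e1, inv_inv] at h
      refine inv_memJ ?_
      rw [h]
      exact mul_mem (TT_memJ pa pb pc h4 h5 h6) (inv_mem (TT_memJ h1 h2 h3 h4 h5 h6))
    · have h := TT_conjJ R (x := x) (p := p) (a := a) (b := b) (c := c) hpx h1 h2 h3 pa pb pc
      rw [R.e1, inv_inv, h]
      exact mul_mem (TT_memJ pa pb pc h4 h5 h6) (TT_memJ h1 h2 h3 h4 h5 h6)
  · have hxq : x.1 ≠ q.1 := fun h => hqx h.symm
    have fa : Commute (E x a) (E p q) := eeJ R hpx hxq pa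
    have fb : Commute (E x b) (E p q) := eeJ R hpx hxq pb
    have fc : Commute (E x c) (E p q) := eeJ R hpx hxq pc
    have : Commute (TT E x a b c) (E p q) := cmJ_comm fa (cmJ_comm fb fc)
    rw [conjJ_eq this.symm]
    exact TT_memJ h1 h2 h3 h4 h5 h6

end

end Pool.Agent.TH271.CV
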