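import Pool.Agent.TH271.CV.Key
import Pool.Agent.TH271.CV.FFacts
import Pool.Agent.TH271.CV.Act
import Pool.Agent.TH271.CU.Core
import Pool.Agent.TH271.CU.Rank3

set_option autoImplicit false
set_option linter.unusedSectionVars false
set_option linter.unusedVariables false

namespace Pool.Agent.TH271.CV
open Pool.Agent.Helper156.OF Pool.Agent.TH271.CU

section

variable {α P : Type} [DecidableEq α] [Fintype α] [Group P]
variable {W : SP α →* P} {E : Lt α → Lt α → P}

lemma FF_nv_left (R : Rel W E) (p a b c : Lt α) : FF E (nv p) a b c = FF E p a b c := by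
  unfold FF DD
  rw [KK_nv R, KK_nv R, KK_nv R]

lemma FOne_KK_true (R : Rel W E) (y a : Lt α) : KK E (y.1, true) a = KK E y a := by
  rcases fst_eq_iff.1 (show ((y.1, true) : Lt α).1 = y.1 from rfl) with e | e
  · rw [e]
  · rw [e, KK_nv R]

lemma FOne_FF_true (R : Rel W E) (y a b c : Lt α) : FF E (y.1, true) a b c = FF E y a b c := by
  rcases fst_eq_iff.1 (show ((y.1, true) : Lt α).1 = y.1 from rfl) with e | e
  · rw [e]
  · rw [e, FF_nv_left R]

lemma FOne_conj (R : Rel W E) (cb : ∀ x a : Lt α, E x a * E x a * E x a = 1)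
    (hn : 5 ≤ Fintype.card α) (p a b c : Lt α) (h1 : p.1 ≠ a.1) (h2 : p.1 ≠ b.1)
    (h3 : p.1 ≠ c.1) (h4 : a.1 ≠ b.1) (h5 : a.1 ≠ c.1) (h6 : b.1 ≠ c.1) (q : α) (hq : q ≠ a.1) :
    DD E a b c * KK E (q, true) a * (DD E a b c)⁻¹ = FF E p a b c * KK E (q, true) a := by
  have hfK : ∀ i j : Lt α, i.1 ≠ j.1 → Commute (FF E p a b c) (KK E i j) :=
    fun i j hij => FF_KK R cb hn p a b c i j h1 h2 h3 h4 h5 h6 hij
  have hfD : Commute (FF E p a b c) (DD E a b c) := by
    unfold DD cm
    exact (((hfK a b h4).mul_right (hfK a c h5)).mul_right (hfK a b h4).inv_right).mul_right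
      (hfK a c h5).inv_right
  by_cases hb : q = b.1
  · subst hb
    rw [FOne_KK_true R]
    exact gamma R cb hn a b c p h4 h5 h6 h1 h2 h3
  by_cases hc : q = c.1
  · subst hc
    rw [FOne_KK_true R]
    have g := gamma R cb hn a c b p h5 h4 (Ne.symm h6) h1 h3 h2
    rw [DD_swap (E := E) a b c, FF_swap23 R cb hn p a b c h1 h2 h3 h4 h5 h6, inv_inv] at g
    set D := DD E a b c with hD
    set f := FF E p a b c with hf
    set K := KK E c a with hK
    have e1 : D * f⁻¹ * D⁻¹ = f⁻¹ := by
      rw [hfD.symm.inv_right.eq]; group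
    calc D * K * D⁻¹ = f * (f⁻¹ * (D * K * D⁻¹)) := by group
      _ = f * ((D * f⁻¹ * D⁻¹) * (D * K * D⁻¹)) := by rw [e1]
      _ = f * (D * (f⁻¹ * K) * D⁻¹) := by group
      _ = f * (D * (D⁻¹ * K * D) * D⁻¹) := by rw [g]
      _ = f * K := by group
  · have e := DD_KK R cb hn ((q, true) : Lt α) a b c hq hb hc h4 h5 h6
    rw [e]
    congr 1
    by_cases hp : p.1 = q
    · subst hp
      exact FOne_FF_true R p a b c
    · exact (FF_indep R cb hn p ((q, true) : Lt α) a b c hp h1 h2 h3 h4 h5 h6 hq hb hc).symm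

end

section

variable {n : ℕ}

/-- the product of the conjugations of single letters by one letter -/
def pK (a : Lt (Fin n)) (L : List (Fin n)) : MulAut (FreeGroup (Fin n)) :=
  (L.map (fun q => if q = a.1 then 1 else KK eAut (q, true) a)).prod

lemma pK_cons (a : Lt (Fin n)) (q : Fin n) (L : List (Fin n)) :
    pK a (q :: L) = (if q = a.1 then 1 else KK eAut (q, true) a) * pK a L := by
  unfold pK
  rw [List.map_cons, List.prod_cons]

lemma pK_fac (a : Lt (Fin n)) (q : Fin n) : ∃ ψ : MulAut (FreeGroup (Fin n)),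
    (if q = a.1 then 1 else KK eAut (q, true) a) = ψ ∧ ψ (gl a) = gl a ∧
    (∀ k, k ≠ q → ψ (gl (k, true)) = gl (k, true)) ∧
    ψ (gl (q, true)) = if q = a.1 then gl (q, true) else (gl a)⁻¹ * gl (q, true) * gl a := by
  refine ⟨_, rfl, ?_, ?_, ?_⟩
  · by_cases h : q = a.1
    · rw [if_pos h]; rfl
    · rw [if_neg h]
      exact KKe_fix (fun h' => h h'.symm)
  · intro k hk
    by_cases h : q = a.1
    · rw [if_pos h]; rfl
    · rw [if_neg h]
      exact KKe_fix hk
  · by_cases h : q = a.1
    · rw [if_pos h, if_pos h]; rfl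
    · rw [if_neg h, if_neg h]
      exact KKe_gl h

lemma pK_gl (a : Lt (Fin n)) (L : List (Fin n)) (hL : L.Nodup) (k : Fin n) :
    pK a L (gl (k, true)) =
      if k ∈ L ∧ k ≠ a.1 then (gl a)⁻¹ * gl (k, true) * gl a else gl (k, true) := by
  induction L with
  | nil => simp [pK]
  | cons q L ih =>
    rw [List.nodup_cons] at hL
    have ih' := ih hL.2
    obtain ⟨ψ, e1, e2, e3, e4⟩ := pK_fac a q
    rw [pK_cons, e1, MulAut.mul_apply, ih']
    by_cases hkq : k = q
    · subst hkq
      rw [if_neg (fun h => hL.1 h.1), e4]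
      by_cases h : k = a.1
      · rw [if_pos h, if_neg (fun h' => h'.2 h)]
      · rw [if_neg h, if_pos ⟨List.mem_cons_self, h⟩]
    · by_cases hk : k ∈ L ∧ k ≠ a.1
      · rw [if_pos hk, if_pos ⟨List.mem_cons_of_mem _ hk.1, hk.2⟩, map_mul, map_mul, map_inv, e2,
          e3 k hkq]
      · rw [if_neg hk, e3 k hkq, if_neg]
        rintro ⟨h, h'⟩
        rcases List.mem_cons.1 h with h | h
        · exact hkq h
        · exact hk ⟨h, h'⟩

lemma pK_all (a : Lt (Fin n)) : pK a (List.finRange n) = MulAut.conj (gl a)⁻¹ := by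
  apply MulEquiv.toMonoidHom_injective
  ext1 k
  show pK a (List.finRange n) (FreeGroup.of k) = MulAut.conj (gl a)⁻¹ (FreeGroup.of k)
  rw [← gl_true, pK_gl a _ (List.nodup_finRange n), MulAut.conj_apply, inv_inv]
  by_cases hk : k = a.1
  · rw [if_neg (fun h => h.2 hk)]
    subst hk
    rcases fst_eq_iff.1 (show a.1 = ((a.1, true) : Lt (Fin n)).1 from rfl) with e | e
    · have e' : gl a = gl ((a.1, true) : Lt (Fin n)) := congrArg gl e
      rw [e']; group
    · have e' : gl a = (gl ((a.1, true) : Lt (Fin n)))⁻¹ := by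
        rw [← gl_nv]; exact congrArg gl e
      rw [e']; group
  · rw [if_pos ⟨List.mem_finRange k, hk⟩]

/-- conjugation of a list product -/
lemma prod_conj {P : Type} [Group P] (D f : P) (K : Fin n → P) (i : Fin n)
    (h : ∀ q, q ≠ i → D * K q * D⁻¹ = f * K q) (hc : ∀ q, q ≠ i → Commute f (K q))
    (L : List (Fin n)) :
    D * (L.map (fun q => if q = i then 1 else K q)).prod * D⁻¹ =
      f ^ (L.countP (fun q => q ≠ i)) * (L.map (fun q => if q = i then 1 else K q)).prod := by
  induction L with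
  | nil => simp
  | cons q L ih =>
    rw [List.map_cons, List.prod_cons, List.countP_cons]
    by_cases hq : q = i
    · rw [if_pos hq, one_mul]
      simp only [hq, ne_eq, not_true_eq_false, decide_false, Bool.false_eq_true, if_false,
        add_zero]
      exact ih
    · rw [if_neg hq]
      simp only [hq, ne_eq, not_false_eq_true, decide_true, if_true]
      set M := (L.map (fun q => if q = i then 1 else K q)).prod with hM
      set m := L.countP (fun q => decide (q ≠ i)) with hm
      have ec : K q * f ^ m = f ^ m * K q := ((hc q hq).pow_left m).symm.eq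
      calc D * (K q * M) * D⁻¹ = (D * K q * D⁻¹) * (D * M * D⁻¹) := by group
        _ = (f * K q) * (f ^ m * M) := by rw [h q hq, ih]
        _ = f * (K q * f ^ m) * M := by group
        _ = f * (f ^ m * K q) * M := by rw [ec]
        _ = f ^ (m + 1) * (K q * M) := by rw [pow_succ']; group

lemma count_finRange (i : Fin n) : (List.finRange n).countP (fun q => q ≠ i) = n - 1 := by
  have h1 := List.length_eq_countP_add_countP (fun q : Fin n => decide (q = i))
    (l := List.finRange n)
  have h2 : (List.finRange n).countP (fun q : Fin n => decide (q = i)) = 1 := by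
    have := List.count_eq_one_of_mem (List.nodup_finRange n) (List.mem_finRange i)
    rw [← this, List.count]
    congr 1
  rw [List.length_finRange, h2] at h1
  have h3 : (List.finRange n).countP (fun q => decide (q ≠ i)) =
      (List.finRange n).countP (fun a => decide ¬decide (a = i) = true) := by
    congr 1
    funext q
    simp
  rw [h3]
  omega

theorem FF_one_aux {n : ℕ} (h5n : 5 ≤ n) (hn3 : n % 3 ≠ 1) {P : Type} [Group P]
    (π : MulAut (FreeGroup (Fin n)) →* P)
    (hinn : ∀ g : FreeGroup (Fin n), π (MulAut.conj g) = 1)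
    (cb : ∀ x a : Lt (Fin n), π (eAut x a) * π (eAut x a) * π (eAut x a) = 1)
    (p a b c : Lt (Fin n)) (h1 : p.1 ≠ a.1) (h2 : p.1 ≠ b.1) (h3 : p.1 ≠ c.1) (h4 : a.1 ≠ b.1)
    (h5 : a.1 ≠ c.1) (h6 : b.1 ≠ c.1) :
    FF (fun x a => π (eAut x a)) p a b c = 1 := by
  have hn : 5 ≤ Fintype.card (Fin n) := by rwa [Fintype.card_fin]
  obtain ⟨E, hE⟩ : ∃ E : Lt (Fin n) → Lt (Fin n) → P, E = fun x a => π (eAut x a) := ⟨_, rfl⟩
  have R : Rel (π.comp toAut) E := by rw [hE]; exact rel_map rel_aut π
  have cb' : ∀ x a : Lt (Fin n), E x a * E x a * E x a = 1 := by rw [hE]; exact cb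
  rw [← hE]
  have hKE : ∀ y z : Lt (Fin n), KK E y z = π (KK eAut y z) := by
    intro y z
    rw [hE]
    exact (map_mul π _ _).symm
  have hprod : ((List.finRange n).map
      (fun q => if q = a.1 then 1 else KK E (q, true) a)).prod = 1 := by
    have := congrArg π (pK_all a)
    rw [hinn] at this
    unfold pK at this
    rw [map_list_prod, List.map_map] at this
    refine Eq.trans ?_ this
    congr 1
    apply List.map_congr_left
    intro q _
    show _ = π (if q = a.1 then 1 else KK eAut (q, true) a)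
    split_ifs
    · rw [map_one]
    · exact hKE _ _
  have hc := prod_conj (DD E a b c) (FF E p a b c) (fun q => KK E (q, true) a) a.1
    (FOne_conj R cb' hn p a b c h1 h2 h3 h4 h5 h6)
    (fun q hq => FF_KK R cb' hn p a b c (q, true) a h1 h2 h3 h4 h5 h6 hq) (List.finRange n)
  rw [hprod, mul_one, mul_one, mul_inv_cancel, count_finRange] at hc
  have hf3 := FF_cube R cb' hn p a b c h1 h2 h3 h4 h5 h6
  set f := FF E p a b c with hf
  have k3 : f ^ 3 = 1 := by rw [pow_succ, pow_succ, pow_one]; exact hf3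
  have d1 : orderOf f ∣ n - 1 := orderOf_dvd_of_pow_eq_one hc.symm
  have d2 : orderOf f ∣ 3 := orderOf_dvd_of_pow_eq_one k3
  have d3 : orderOf f = 1 := by
    rcases (Nat.dvd_prime Nat.prime_three).1 d2 with h | h
    · exact h
    · exfalso
      rw [h] at d1
      omega
  exact orderOf_eq_one_iff.1 d3

theorem FF_one {n : ℕ} (h5 : 5 ≤ n) (h3 : n % 3 ≠ 1) {P : Type} [Group P]
    (π : MulAut (FreeGroup (Fin n)) →* P)
    (hinn : ∀ g : FreeGroup (Fin n), π (MulAut.conj g) = 1)
    (cb : ∀ x a : Lt (Fin n), π (eAut x a) * π (eAut x a) * π (eAut x a) = 1)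
    (p a b c : Lt (Fin n)) (h1 : p.1 ≠ a.1) (h2 : p.1 ≠ b.1) (h3 : p.1 ≠ c.1) (h4 : a.1 ≠ b.1)
    (h5' : a.1 ≠ c.1) (h6 : b.1 ≠ c.1) :
    FF (fun x a => π (eAut x a)) p a b c = 1 :=
  FF_one_aux h5 ‹n % 3 ≠ 1› π hinn cb p a b c h1 h2 h3 h4 h5' h6

end

end Pool.Agent.TH271.CV
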