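import Pool.Agent.TH271.CV.NFin
import Pool.Agent.TH271.CV.FOne
import Pool.Agent.TH271.CV.Core2

set_option autoImplicit false
set_option linter.unusedSectionVars false
set_option linter.unusedVariables false

namespace Pool.Agent.TH271.CV
open Pool.Agent.Helper156.OF Pool.Agent.TH271.CU

section

variable {α : Type} [DecidableEq α] [Fintype α]

/-- The normal closure of the cubes of the transvections and of the partial conjugations by
triple commutators. -/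
def N3 (α : Type) [DecidableEq α] [Fintype α] : Subgroup (MulAut (FreeGroup α)) :=
  Subgroup.normalClosure ({y | ∃ x a : Lt α, y = eAut x a * eAut x a * eAut x a} ∪
    {y | ∃ p a b c : Lt α, p.1 ≠ a.1 ∧ p.1 ≠ b.1 ∧ p.1 ≠ c.1 ∧ a.1 ≠ b.1 ∧ a.1 ≠ c.1 ∧
      b.1 ≠ c.1 ∧ y = FF eAut p a b c})

instance : (N3 α).Normal := Subgroup.normalClosure_normal

lemma N3_le_TB : N3 α ≤ TB α := by
  unfold N3
  apply Subgroup.normalClosure_le_normal
  rintro _ (⟨x, a, rfl⟩ | ⟨p, a, b, c, h1, h2, h3, h4, h5, h6, rfl⟩)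
  · exact cube_mem_TB x a
  · exact FF_mem_TB h1 h2 h3

lemma FF_map {P P' : Type} [Group P] [Group P'] (π : P →* P') (E : Lt α → Lt α → P)
    (p a b c : Lt α) : FF (fun x y => π (E x y)) p a b c = π (FF E p a b c) := by
  unfold FF DD KK cm
  simp only [map_mul, map_inv]

theorem core3 (hn : 5 ≤ Fintype.card α) {ρ : α → ℕ} (hρ : Function.Injective ρ)
    {ψ : MulAut (FreeGroup α)} (hψ : ψ ∈ TB α) : ψ ∈ N3 α := by
  let π : MulAut (FreeGroup α) →* MulAut (FreeGroup α) ⧸ N3 α := QuotientGroup.mk' (N3 α)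
  have hπ : ∀ g, π g = 1 ↔ g ∈ N3 α := fun g => QuotientGroup.eq_one_iff g
  let W : SP α →* MulAut (FreeGroup α) ⧸ N3 α := π.comp toAut
  let E : Lt α → Lt α → MulAut (FreeGroup α) ⧸ N3 α := fun x a => π (eAut x a)
  have R : Rel W E := rel_map rel_aut π
  have hcube : ∀ x a : Lt α, eAut x a * eAut x a * eAut x a ∈ N3 α := fun x a =>
    Subgroup.subset_normalClosure (Or.inl ⟨x, a, rfl⟩)
  have cb : ∀ x a : Lt α, E x a * E x a * E x a = 1 := by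
    intro x a
    show π (eAut x a) * π (eAut x a) * π (eAut x a) = 1
    rw [← map_mul, ← map_mul, hπ]
    exact hcube x a
  have hF : ∀ p a b c : Lt α, p.1 ≠ a.1 → p.1 ≠ b.1 → p.1 ≠ c.1 → a.1 ≠ b.1 → a.1 ≠ c.1 →
      b.1 ≠ c.1 → FF E p a b c = 1 := by
    intro p a b c h1 h2 h3 h4 h5 h6
    show FF (fun x y => π (eAut x y)) p a b c = 1
    rw [FF_map, hπ]
    exact Subgroup.subset_normalClosure (Or.inr ⟨p, a, b, c, h1, h2, h3, h4, h5, h6, rfl⟩)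
  have gen : ∀ q, q ∈ Subgroup.closure
      (Set.range W ∪ {q | ∃ x a : Lt α, x.1 ≠ a.1 ∧ q = E x a}) := by
    intro q
    obtain ⟨φ, rfl⟩ := QuotientGroup.mk'_surjective (N3 α) q
    have h1 := nielsen_generation φ
    have h2 := Subgroup.mem_map_of_mem π h1
    rw [MonoidHom.map_closure] at h2
    refine Subgroup.closure_mono ?_ h2
    rintro _ ⟨φ, hφ, rfl⟩
    rcases hφ with ⟨σ, rfl⟩ | ⟨x, a, hxa, rfl⟩
    · exact Or.inl ⟨σ, rfl⟩
    · exact Or.inr ⟨x, a, hxa, rfl⟩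
  exact core2 hρ (N3 α) N3_le_TB hcube E rfl (N2_normal R cb hn hF gen)
    (N2_comm R cb hn hF gen) (N2_cube R cb hn hF gen)
    (fun Q hD hT => N2_gen R cb hn hF hρ Q hD hT) hψ

/-- Transitivity on quadruples of letters. -/
lemma exists_sp4 {x a c e y b d f : Lt α} (h1 : x.1 ≠ a.1) (h2 : x.1 ≠ c.1) (h3 : x.1 ≠ e.1)
    (h4 : a.1 ≠ c.1) (h5 : a.1 ≠ e.1) (h6 : c.1 ≠ e.1)
    (k1 : y.1 ≠ b.1) (k2 : y.1 ≠ d.1) (k3 : y.1 ≠ f.1)
    (k4 : b.1 ≠ d.1) (k5 : b.1 ≠ f.1) (k6 : d.1 ≠ f.1) :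
    ∃ w : SP α, (w : Equiv.Perm (Lt α)) x = y ∧ (w : Equiv.Perm (Lt α)) a = b ∧
      (w : Equiv.Perm (Lt α)) c = d ∧ (w : Equiv.Perm (Lt α)) e = f := by
  obtain ⟨w, hx, ha, hc⟩ := exists_sp3 h1 k1 h2 h4 k2 k4
  set e' := (w : Equiv.Perm (Lt α)) e with he'
  have g1 : y.1 ≠ e'.1 := by
    have := sp_ne w h3
    rwa [hx] at this
  have g2 : b.1 ≠ e'.1 := by
    have := sp_ne w h5
    rwa [ha] at this
  have g3 : d.1 ≠ e'.1 := by
    have := sp_ne w h6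
    rwa [hc] at this
  refine ⟨swp e' f * w, ?_, ?_, ?_, ?_⟩
  · rw [Subgroup.coe_mul, Equiv.Perm.mul_apply, hx]
    exact swp_other g1 k3
  · rw [Subgroup.coe_mul, Equiv.Perm.mul_apply, ha]
    exact swp_other g2 k5
  · rw [Subgroup.coe_mul, Equiv.Perm.mul_apply, hc]
    exact swp_other g3 k6
  · rw [Subgroup.coe_mul, Equiv.Perm.mul_apply, ← he', swp_left]

lemma FF_conj_W (w : SP α) (p a b c : Lt α) :
    toAut w * FF eAut p a b c * (toAut w)⁻¹ = FF eAut ((w : Equiv.Perm (Lt α)) p)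
      ((w : Equiv.Perm (Lt α)) a) ((w : Equiv.Perm (Lt α)) b) ((w : Equiv.Perm (Lt α)) c) := by
  have k := W_KK (rel_aut (α := α)) w
  unfold FF DD
  rw [← k p a, ← k p b, ← k p c]
  unfold cm; group

lemma N3_le {N : Subgroup (MulAut (FreeGroup α))} (hN : N.Normal)
    (h0 : ∀ x a : Lt α, eAut x a * eAut x a * eAut x a ∈ N)
    {p a b c : Lt α} (h1 : p.1 ≠ a.1) (h2 : p.1 ≠ b.1) (h3 : p.1 ≠ c.1) (h4 : a.1 ≠ b.1)
    (h5 : a.1 ≠ c.1) (h6 : b.1 ≠ c.1) (hF : FF eAut p a b c ∈ N) : N3 α ≤ N := by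
  unfold N3
  apply Subgroup.normalClosure_le_normal
  rintro _ (⟨x, a, rfl⟩ | ⟨p', a', b', c', g1, g2, g3, g4, g5, g6, rfl⟩)
  · exact h0 x a
  · obtain ⟨w, e1, e2, e3, e4⟩ := exists_sp4 h1 h2 h3 h4 h5 h6 g1 g2 g3 g4 g5 g6
    have := hN.conj_mem _ hF (toAut w)
    rw [FF_conj_W, e1, e2, e3, e4] at this
    exact this

end

lemma N3_le_out {n : ℕ} (h5 : 5 ≤ n) (h3 : n % 3 ≠ 1) {N : Subgroup (MulAut (FreeGroup (Fin n)))}
    (hN : N.Normal) (h0 : ∀ x a : Lt (Fin n), eAut x a * eAut x a * eAut x a ∈ N)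
    (hinn : ∀ g : FreeGroup (Fin n), MulAut.conj g ∈ N) : N3 (Fin n) ≤ N := by
  have key : ∀ p a b c : Lt (Fin n), p.1 ≠ a.1 → p.1 ≠ b.1 → p.1 ≠ c.1 → a.1 ≠ b.1 →
      a.1 ≠ c.1 → b.1 ≠ c.1 → FF eAut p a b c ∈ N := by
    intro p a b c g1 g2 g3 g4 g5 g6
    have := FF_one h5 h3 (QuotientGroup.mk' N)
      (fun g => (QuotientGroup.eq_one_iff _).2 (hinn g))
      (fun x a => by
        rw [← map_mul, ← map_mul]
        exact (QuotientGroup.eq_one_iff _).2 (h0 x a)) p a b c g1 g2 g3 g4 g5 g6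
    rw [FF_map] at this
    exact (QuotientGroup.eq_one_iff _).1 this
  unfold N3
  apply Subgroup.normalClosure_le_normal
  rintro _ (⟨x, a, rfl⟩ | ⟨p', a', b', c', g1, g2, g3, g4, g5, g6, rfl⟩)
  · exact h0 x a
  · exact key _ _ _ _ g1 g2 g3 g4 g5 g6

end Pool.Agent.TH271.CV
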