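import Pool.Agent.TH271.CV.Def2
import Pool.Agent.TH271.CV.A

/-!
# Instances of the class three theorem (job 5435, helper200)
-/

set_option autoImplicit false
set_option linter.unreachableTactic false
set_option linter.unusedTactic false
set_option linter.unusedSectionVars false
set_option linter.unusedVariables false

namespace Pool.Agent.TH271.CV
open Pool.Agent.Helper156.OF Pool.Agent.TH271.CU

namespace Inst

section grp

variable {G : Type} [Group G]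

lemma cm_comm {a b z : G} (h1 : Commute a z) (h2 : Commute b z) : Commute (cm a b) z :=
  ((h1.mul_left h2).mul_left h1.inv_left).mul_left h2.inv_left

lemma cm_inv_left {a b : G} (h : Commute (cm a b) a) : cm a⁻¹ b = (cm a b)⁻¹ := by
  have h1 : (cm a b)⁻¹ * a = a * (cm a b)⁻¹ := h.inv_left.eq
  have h2 : cm a⁻¹ b = a⁻¹ * ((cm a b)⁻¹ * a) := by
    unfold cm
    group
  rw [h2, h1, inv_mul_cancel_left]

lemma cm_mul_split {p p' q q' : G} (h1 : Commute p p') (h2 : Commute q q') (h3 : Commute p q')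
    (h4 : Commute p' q) : cm (p * p') (q * q') = cm p q * cm p' q' := by
  have k1 : Commute p (p' * q' * p'⁻¹) := (h1.mul_right h3).mul_right h1.inv_right
  have k2 : Commute q (cm p' q') := (cm_comm h4 h2.symm).symm
  calc cm (p * p') (q * q') = p * (p' * q) * q' * p'⁻¹ * p⁻¹ * q'⁻¹ * q⁻¹ := by
        unfold cm
        group
    _ = p * q * ((p' * q' * p'⁻¹) * p⁻¹) * q'⁻¹ * q⁻¹ := by rw [h4.eq]; group
    _ = p * q * (p⁻¹ * (p' * q' * p'⁻¹)) * q'⁻¹ * q⁻¹ := by rw [k1.symm.inv_right.eq]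
    _ = p * q * p⁻¹ * (cm p' q' * q⁻¹) := by unfold cm; group
    _ = p * q * p⁻¹ * (q⁻¹ * cm p' q') := by rw [k2.symm.inv_right.eq]
    _ = cm p q * cm p' q' := by unfold cm; group

end grp

section

variable {α P : Type} [DecidableEq α] [Fintype α] [Group P]
variable {W : SP α →* P} {E : Lt α → Lt α → P}

/-- The properties of `E x` and `KK E x` that are used. -/
structure FP (W : SP α →* P) (E : Lt α → Lt α → P) (x : Lt α) (F : Lt α → P) : Prop where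
  cube : ∀ u, F u * F u * F u = 1
  w : ∀ (σ : SP α) (u : Lt α), (σ : Equiv.Perm (Lt α)) x = x →
    W σ * F u * (W σ)⁻¹ = F ((σ : Equiv.Perm (Lt α)) u)
  inv : ∀ u, F (nv u) = (F u)⁻¹
  mul : ∀ u v : Lt α, x.1 ≠ u.1 → x.1 ≠ v.1 → u.1 ≠ v.1 →
    E u v * F u * (E u v)⁻¹ = F u * F v
  comm : ∀ u v w : Lt α, x.1 ≠ u.1 → x.1 ≠ v.1 → u.1 ≠ w.1 → x.1 ≠ w.1 →
    E u v * F w * (E u v)⁻¹ = F w

/-- Quadruples conjugate to a fixed one. -/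
def QF (F : Lt α → P) (a b c d : Lt α) (p q r s : P) : Prop :=
  ∃ g : P, p = g * F a * g⁻¹ ∧ q = g * F b * g⁻¹ ∧ r = g * F c * g⁻¹ ∧ s = g * F d * g⁻¹

lemma QF_self (F : Lt α → P) (a b c d : Lt α) : QF F a b c d (F a) (F b) (F c) (F d) :=
  ⟨1, by group, by group, by group, by group⟩

lemma conj_aux {g h u v : P} (e : h * u * h⁻¹ = v) : g * v * g⁻¹ = g * h * u * (g * h)⁻¹ := by
  rw [← e]
  group

lemma FP.B4 {x : Lt α} {F : Lt α → P} (H : FP W E x F) {a b c d : Lt α} (xa : x.1 ≠ a.1)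
    (xb : x.1 ≠ b.1) (xc : x.1 ≠ c.1) (xd : x.1 ≠ d.1) (ab : a.1 ≠ b.1) (ac : a.1 ≠ c.1)
    (ad : a.1 ≠ d.1) (bc : b.1 ≠ c.1) (bd : b.1 ≠ d.1) (cd : c.1 ≠ d.1) :
    CV.B4 (QF F a b c d) where
  cube := by
    rintro _ _ _ _ ⟨g, rfl, rfl, rfl, rfl⟩
    calc g * F a * g⁻¹ * (g * F a * g⁻¹) * (g * F a * g⁻¹)
        = g * (F a * F a * F a) * g⁻¹ := by group
      _ = 1 := by rw [H.cube]; group
  s01 := by
    rintro _ _ _ _ ⟨g, rfl, rfl, rfl, rfl⟩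
    have hx : (swp a b : Equiv.Perm (Lt α)) x = x := swp_other xa xb
    refine ⟨g * W (swp a b), conj_aux ?_, conj_aux ?_, conj_aux ?_, conj_aux ?_⟩
    · rw [H.w _ _ hx, swp_left]
    · rw [H.w _ _ hx, swp_right]
    · rw [H.w _ _ hx, swp_other ac.symm bc.symm]
    · rw [H.w _ _ hx, swp_other ad.symm bd.symm]
  s12 := by
    rintro _ _ _ _ ⟨g, rfl, rfl, rfl, rfl⟩
    have hx : (swp b c : Equiv.Perm (Lt α)) x = x := swp_other xb xc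
    refine ⟨g * W (swp b c), conj_aux ?_, conj_aux ?_, conj_aux ?_, conj_aux ?_⟩
    · rw [H.w _ _ hx, swp_other ab ac]
    · rw [H.w _ _ hx, swp_left]
    · rw [H.w _ _ hx, swp_right]
    · rw [H.w _ _ hx, swp_other bd.symm cd.symm]
  s23 := by
    rintro _ _ _ _ ⟨g, rfl, rfl, rfl, rfl⟩
    have hx : (swp c d : Equiv.Perm (Lt α)) x = x := swp_other xc xd
    refine ⟨g * W (swp c d), conj_aux ?_, conj_aux ?_, conj_aux ?_, conj_aux ?_⟩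
    · rw [H.w _ _ hx, swp_other ac ad]
    · rw [H.w _ _ hx, swp_other bc bd]
    · rw [H.w _ _ hx, swp_left]
    · rw [H.w _ _ hx, swp_right]
  inv := by
    rintro _ _ _ _ ⟨g, rfl, rfl, rfl, rfl⟩
    have hx : (swp a (nv a) : Equiv.Perm (Lt α)) x = x := swp_other xa xa
    refine ⟨g * W (swp a (nv a)), ?_, conj_aux ?_, conj_aux ?_, conj_aux ?_⟩
    · have e : (g * F a * g⁻¹)⁻¹ = g * (F a)⁻¹ * g⁻¹ := by group
      rw [e]
      apply conj_aux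
      rw [H.w _ _ hx, swp_left, H.inv]
    · rw [H.w _ _ hx, swp_other (y := nv a) ab.symm ab.symm]
    · rw [H.w _ _ hx, swp_other (y := nv a) ac.symm ac.symm]
    · rw [H.w _ _ hx, swp_other (y := nv a) ad.symm ad.symm]
  mul := by
    rintro _ _ _ _ ⟨g, rfl, rfl, rfl, rfl⟩
    refine ⟨g * E a b, ?_, conj_aux ?_, conj_aux ?_, conj_aux ?_⟩
    · have e : g * F a * g⁻¹ * (g * F b * g⁻¹) = g * (F a * F b) * g⁻¹ := by group
      rw [e]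
      apply conj_aux
      exact H.mul a b xa xb ab
    · exact H.comm a b b xa xb ab xb
    · exact H.comm a b c xa xb ac xc
    · exact H.comm a b d xa xb ad xd

lemma exists_letter (hn : 5 ≤ Fintype.card α) (x a b c : Lt α) :
    ∃ d : Lt α, x.1 ≠ d.1 ∧ a.1 ≠ d.1 ∧ b.1 ≠ d.1 ∧ c.1 ≠ d.1 := by
  by_contra hcon
  push Not at hcon
  have h : (Finset.univ : Finset α) ⊆ {x.1, a.1, b.1, c.1} := by
    intro i _
    by_contra hi
    simp only [Finset.mem_insert, Finset.mem_singleton, not_or] at hi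
    obtain ⟨h1, h2, h3, h4⟩ := hi
    exact h4 (hcon (i, true) (Ne.symm h1) (Ne.symm h2) (Ne.symm h3)).symm
  have h1 := Finset.card_le_card h
  have h2 : ({x.1, a.1, b.1, c.1} : Finset α).card ≤ 4 := Finset.card_le_four
  rw [Finset.card_univ] at h1
  omega

/-- the class three facts for `F` -/
lemma FP.facts {x : Lt α} {F : Lt α → P} (H : FP W E x F) (hn : 5 ≤ Fintype.card α)
    {a b c : Lt α} (xa : x.1 ≠ a.1)
    (xb : x.1 ≠ b.1) (xc : x.1 ≠ c.1) (ab : a.1 ≠ b.1) (ac : a.1 ≠ c.1) (bc : b.1 ≠ c.1) :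
    ∃ Q : P → P → P → Prop, B3 Q ∧ Q (F a) (F b) (F c) := by
  obtain ⟨d, xd, ad, bd, cd⟩ := exists_letter hn x a b c
  exact ⟨_, B4.toB3 (H.B4 xa xb xc xd ab ac ad bc bd cd), ⟨F d, QF_self F a b c d⟩⟩

lemma FP.t_comm {x : Lt α} {F : Lt α → P} (H : FP W E x F) (hn : 5 ≤ Fintype.card α)
    {a b c w : Lt α} (xa : x.1 ≠ a.1)
    (xb : x.1 ≠ b.1) (xc : x.1 ≠ c.1) (ab : a.1 ≠ b.1) (ac : a.1 ≠ c.1) (bc : b.1 ≠ c.1)
    (xw : x.1 ≠ w.1) : Commute (cm (F a) (cm (F b) (F c))) (F w) := by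
  obtain ⟨Q, HQ, hQ⟩ := H.facts hn xa xb xc ab ac bc
  obtain ⟨k1, k2, k3⟩ := B3.t_comm HQ hQ
  by_cases hwa : w.1 = a.1
  · rcases fst_eq_iff.1 hwa with rfl | rfl
    · exact k1
    · rw [H.inv]
      exact k1.inv_right
  by_cases hwb : w.1 = b.1
  · rcases fst_eq_iff.1 hwb with rfl | rfl
    · exact k2
    · rw [H.inv]
      exact k2.inv_right
  by_cases hwc : w.1 = c.1
  · rcases fst_eq_iff.1 hwc with rfl | rfl
    · exact k3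
    · rw [H.inv]
      exact k3.inv_right
  exact B4.cen (H.B4 xa xb xc xw ab ac (Ne.symm hwa) bc (Ne.symm hwb) (Ne.symm hwc))
    (QF_self F a b c w)

lemma FP_E (R : Rel W E) (cb : ∀ x a : Lt α, E x a * E x a * E x a = 1) (x : Lt α) :
    FP W E x (E x) where
  cube := cb x
  w := by
    intro σ u hx
    rw [R.e0, hx]
  inv := R.e1 x
  mul := fun u v h1 h2 h3 => c1 R h1 h2 h3
  comm := by
    intro u v w h1 h2 h3 h4
    have h : Commute (E u v) (E x w) := R.e2 u x v w (by rintro rfl; exact h1 rfl) h3 h2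
    exact conj_eq_of_comm h

lemma FP_KK (R : Rel W E) (cb : ∀ x a : Lt α, E x a * E x a * E x a = 1) (x : Lt α) :
    FP W E x (KK E x) where
  cube := KK_cube R cb x
  w := by
    intro σ u hx
    rw [W_KK R, hx]
  inv := KK_nv' R x
  mul := fun u v h1 h2 h3 => E_KK R h1 h2 h3
  comm := by
    intro u v w h1 h2 h3 h4
    exact conj_eq_of_comm (KK_E_comm R (Ne.symm h1) h3 h2).symm

end

end Inst

open Pool.Agent.TH271.CV.Inst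

section

variable {α P : Type} [DecidableEq α] [Fintype α] [Group P]
variable {W : SP α →* P} {E : Lt α → Lt α → P}

/-! Group 1: file Inst.lean -/

lemma DD_swap (y a b : Lt α) : DD E y b a = (DD E y a b)⁻¹ := by
  unfold DD
  rw [cm_inv]

variable (R : Rel W E) (cb : ∀ x a : Lt α, E x a * E x a * E x a = 1)
  (hn : 5 ≤ Fintype.card α)

include R cb hn

lemma TT_E (x a b c w : Lt α) (h1 : x.1 ≠ a.1) (h2 : x.1 ≠ b.1)
    (h3 : x.1 ≠ c.1) (h4 : a.1 ≠ b.1) (h5 : a.1 ≠ c.1)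
    (h6 : b.1 ≠ c.1) (h7 : x.1 ≠ w.1) : Commute (TT E x a b c) (E x w) :=
  (FP_E R cb x).t_comm hn h1 h2 h3 h4 h5 h6 h7

lemma TT_nvE (x a b c w : Lt α) (h1 : x.1 ≠ a.1) (h2 : x.1 ≠ b.1)
    (h3 : x.1 ≠ c.1) (h7 : x.1 ≠ w.1) :
    Commute (TT E x a b c) (E (nv x) w) :=
  cm_comm (RL R h1 h7) (cm_comm (RL R h2 h7) (RL R h3 h7))

lemma TT_cube (x a b c : Lt α) (h1 : x.1 ≠ a.1) (h2 : x.1 ≠ b.1)
    (h3 : x.1 ≠ c.1) (h4 : a.1 ≠ b.1) (h5 : a.1 ≠ c.1)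
    (h6 : b.1 ≠ c.1) : TT E x a b c * TT E x a b c * TT E x a b c = 1 := by
  obtain ⟨Q, HQ, hQ⟩ := (FP_E R cb x).facts hn h1 h2 h3 h4 h5 h6
  exact B3.t_cube HQ hQ

lemma TT_swap23 (x a b c : Lt α) (h1 : x.1 ≠ a.1) (h2 : x.1 ≠ b.1)
    (h3 : x.1 ≠ c.1) (h4 : a.1 ≠ b.1) (h5 : a.1 ≠ c.1)
    (h6 : b.1 ≠ c.1) : TT E x a c b = (TT E x a b c)⁻¹ := by
  obtain ⟨Q, HQ, hQ⟩ := (FP_E R cb x).facts hn h1 h2 h3 h4 h5 h6
  exact B3.alt23 HQ hQ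

lemma TT_swap12 (x a b c : Lt α) (h1 : x.1 ≠ a.1) (h2 : x.1 ≠ b.1)
    (h3 : x.1 ≠ c.1) (h4 : a.1 ≠ b.1) (h5 : a.1 ≠ c.1)
    (h6 : b.1 ≠ c.1) : TT E x b a c = (TT E x a b c)⁻¹ := by
  obtain ⟨Q, HQ, hQ⟩ := (FP_E R cb x).facts hn h1 h2 h3 h4 h5 h6
  exact B3.alt12 HQ hQ

lemma TT_inv1 (x a b c : Lt α) (h1 : x.1 ≠ a.1) (h2 : x.1 ≠ b.1)
    (h3 : x.1 ≠ c.1) (h4 : a.1 ≠ b.1) (h5 : a.1 ≠ c.1)
    (h6 : b.1 ≠ c.1) : TT E x (nv a) b c = (TT E x a b c)⁻¹ := by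
  have h := TT_E R cb hn x a b c a h1 h2 h3 h4 h5 h6 h1
  unfold TT at h ⊢
  rw [R.e1]
  exact cm_inv_left h

lemma Inst.DD_facts (y a b : Lt α) (h1 : y.1 ≠ a.1) (h2 : y.1 ≠ b.1)
    (h3 : a.1 ≠ b.1) : ∃ (c : P) (Q : P → P → P → Prop), B3 Q ∧ Q (KK E y a) (KK E y b) c := by
  obtain ⟨c, yc, ac, bc, -⟩ := exists_letter hn y a b b
  obtain ⟨Q, HQ, hQ⟩ := (FP_KK R cb y).facts hn h1 h2 yc h3 ac bc
  exact ⟨_, Q, HQ, hQ⟩

lemma DD_cube (y a b : Lt α) (h1 : y.1 ≠ a.1) (h2 : y.1 ≠ b.1)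
    (h3 : a.1 ≠ b.1) : DD E y a b * DD E y a b * DD E y a b = 1 := by
  obtain ⟨c, Q, HQ, hQ⟩ := DD_facts R cb hn y a b h1 h2 h3
  exact HQ.u3 hQ

lemma DD_left (y a b : Lt α) (h1 : y.1 ≠ a.1) (h2 : y.1 ≠ b.1)
    (h3 : a.1 ≠ b.1) : Commute (DD E y a b) (KK E y a) := by
  obtain ⟨c, Q, HQ, hQ⟩ := DD_facts R cb hn y a b h1 h2 h3
  exact HQ.f1 hQ

lemma DD_right (y a b : Lt α) (h1 : y.1 ≠ a.1) (h2 : y.1 ≠ b.1)
    (h3 : a.1 ≠ b.1) : Commute (DD E y a b) (KK E y b) := by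
  obtain ⟨c, Q, HQ, hQ⟩ := DD_facts R cb hn y a b h1 h2 h3
  exact HQ.f1' hQ

lemma DD_inv1 (y a b : Lt α) (h1 : y.1 ≠ a.1) (h2 : y.1 ≠ b.1)
    (h3 : a.1 ≠ b.1) : DD E y (nv a) b = (DD E y a b)⁻¹ := by
  have h := DD_left R cb hn y a b h1 h2 h3
  unfold DD at h ⊢
  rw [KK_nv' R]
  exact cm_inv_left h

omit cb hn in
lemma DD_nv (y a b : Lt α) : DD E (nv y) a b = DD E y a b := by
  unfold DD
  rw [KK_nv R, KK_nv R]

omit cb hn in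
lemma DD_eq (y a b : Lt α) (h1 : y.1 ≠ a.1) (h2 : y.1 ≠ b.1) :
    DD E y a b = MM E y a b * MM E (nv y) a b :=
  cm_mul_split (cs R a y (nv y)) (cs R b y (nv y)) (RL R h1 h2) (RL' R h1 h2)

omit cb hn in
lemma FF_eq (p a b c : Lt α) (h1 : p.1 ≠ a.1) (h2 : p.1 ≠ b.1)
    (h3 : p.1 ≠ c.1) : FF E p a b c = TT E p a b c * TT E (nv p) a b c := by
  unfold FF TT
  rw [DD_eq R p b c h2 h3]
  have k : ∀ u : Lt α, p.1 ≠ u.1 → Commute (E p u) (MM E (nv p) b c) := fun u hu =>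
    (cm_comm (RL R hu h2).symm (RL R hu h3).symm).symm
  refine cm_mul_split (cs R a p (nv p)) ?_ (k a h1) ?_
  · exact cm_comm (k b h2) (k c h3)
  · exact (cm_comm (RL R h2 h1) (RL R h3 h1)).symm

lemma FF_self (p a b c w : Lt α) (h1 : p.1 ≠ a.1) (h2 : p.1 ≠ b.1)
    (h3 : p.1 ≠ c.1) (h4 : a.1 ≠ b.1) (h5 : a.1 ≠ c.1)
    (h6 : b.1 ≠ c.1) (h7 : p.1 ≠ w.1) :
    Commute (FF E p a b c) (KK E p w) :=
  (FP_KK R cb p).t_comm hn h1 h2 h3 h4 h5 h6 h7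

lemma FF_cube (p a b c : Lt α) (h1 : p.1 ≠ a.1) (h2 : p.1 ≠ b.1)
    (h3 : p.1 ≠ c.1) (h4 : a.1 ≠ b.1) (h5 : a.1 ≠ c.1)
    (h6 : b.1 ≠ c.1) : FF E p a b c * FF E p a b c * FF E p a b c = 1 := by
  obtain ⟨Q, HQ, hQ⟩ := (FP_KK R cb p).facts hn h1 h2 h3 h4 h5 h6
  exact B3.t_cube HQ hQ

lemma FF_swap23 (p a b c : Lt α) (h1 : p.1 ≠ a.1) (h2 : p.1 ≠ b.1)
    (h3 : p.1 ≠ c.1) (h4 : a.1 ≠ b.1) (h5 : a.1 ≠ c.1)
    (h6 : b.1 ≠ c.1) : FF E p a c b = (FF E p a b c)⁻¹ := by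
  obtain ⟨Q, HQ, hQ⟩ := (FP_KK R cb p).facts hn h1 h2 h3 h4 h5 h6
  exact B3.alt23 HQ hQ

lemma FF_swap12 (p a b c : Lt α) (h1 : p.1 ≠ a.1) (h2 : p.1 ≠ b.1)
    (h3 : p.1 ≠ c.1) (h4 : a.1 ≠ b.1) (h5 : a.1 ≠ c.1)
    (h6 : b.1 ≠ c.1) : FF E p b a c = (FF E p a b c)⁻¹ := by
  obtain ⟨Q, HQ, hQ⟩ := (FP_KK R cb p).facts hn h1 h2 h3 h4 h5 h6
  exact B3.alt12 HQ hQ

lemma FF_inv1 (p a b c : Lt α) (h1 : p.1 ≠ a.1) (h2 : p.1 ≠ b.1)
    (h3 : p.1 ≠ c.1) (h4 : a.1 ≠ b.1) (h5 : a.1 ≠ c.1)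
    (h6 : b.1 ≠ c.1) : FF E p (nv a) b c = (FF E p a b c)⁻¹ := by
  have h := FF_self R cb hn p a b c a h1 h2 h3 h4 h5 h6 h1
  unfold FF at h ⊢
  rw [KK_nv' R]
  exact cm_inv_left h

end

end Pool.Agent.TH271.CV
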