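import Pool.Agent.TH271.CV.ETT
import Pool.Agent.TH271.CV.EDD

set_option autoImplicit false
set_option linter.unusedSectionVars false
set_option linter.unusedVariables false

namespace Pool.Agent.TH271.CV
open Pool.Agent.Helper156.OF Pool.Agent.TH271.CU

lemma cm_memJ {G : Type} [Group G] (H : Subgroup G) {g h : G} (hg : g ∈ H) (hh : h ∈ H) :
    cm g h ∈ H := by
  unfold cm
  exact mul_mem (mul_mem (mul_mem hg hh) (inv_mem hg)) (inv_mem hh)

section

variable {α P : Type} [DecidableEq α] [Fintype α] [Group P]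
variable {W : SP α →* P} {E : Lt α → Lt α → P}

omit [DecidableEq α] [Fintype α] in
lemma upJ (p : Lt α → Prop) (z : Lt α) (h : p (z.1, true))
    (h' : p (z.1, true) → p (nv (z.1, true))) : p z := by
  rcases fst_eq_iff.1 (show z.1 = ((z.1, true) : Lt α).1 from rfl) with e | e
  · rw [e]; exact h
  · rw [e]; exact h' h

lemma W_DDJ (R : Rel W E) (σ : SP α) (y a b : Lt α) :
    W σ * DD E y a b * (W σ)⁻¹ = DD E ((σ : Equiv.Perm (Lt α)) y)
      ((σ : Equiv.Perm (Lt α)) a) ((σ : Equiv.Perm (Lt α)) b) := by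
  unfold DD
  rw [cmJ_conj, W_KK R, W_KK R]

lemma W_TTJ (R : Rel W E) (σ : SP α) (x a b c : Lt α) :
    W σ * TT E x a b c * (W σ)⁻¹ = TT E ((σ : Equiv.Perm (Lt α)) x)
      ((σ : Equiv.Perm (Lt α)) a) ((σ : Equiv.Perm (Lt α)) b) ((σ : Equiv.Perm (Lt α)) c) := by
  unfold TT
  rw [cmJ_conj, W_MM R, R.e0]

lemma W_N2J (R : Rel W E) {σ : SP α} {u : P} (hu : u ∈ N2 E) : W σ * u * (W σ)⁻¹ ∈ N2 E := by
  have hne : ∀ a b : Lt α, a.1 ≠ b.1 → ((σ : Equiv.Perm (Lt α)) a).1 ≠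
      ((σ : Equiv.Perm (Lt α)) b).1 := fun a b h => sp_ne σ h
  unfold N2 at hu
  induction hu using Subgroup.closure_induction with
  | mem u hu =>
    rcases hu with ⟨y, a, b, h1, h2, h3, rfl⟩ | ⟨x, a, b, c, h1, h2, h3, h4, h5, h6, rfl⟩
    · rw [W_DDJ R]; exact DD_memJ (hne _ _ h1) (hne _ _ h2) (hne _ _ h3)
    · rw [W_TTJ R]
      exact TT_memJ (hne _ _ h1) (hne _ _ h2) (hne _ _ h3) (hne _ _ h4) (hne _ _ h5) (hne _ _ h6)
  | one => simp
  | mul a b _ _ h1 h2 =>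
    have : W σ * (a * b) * (W σ)⁻¹ = (W σ * a * (W σ)⁻¹) * (W σ * b * (W σ)⁻¹) := by group
    rw [this]; exact mul_mem h1 h2
  | inv a _ h1 =>
    have : W σ * a⁻¹ * (W σ)⁻¹ = (W σ * a * (W σ)⁻¹)⁻¹ := by group
    rw [this]; exact inv_mem h1

variable (R : Rel W E) (cb : ∀ x a : Lt α, E x a * E x a * E x a = 1)
  (hn : 5 ≤ Fintype.card α)
  (hF : ∀ p a b c : Lt α, p.1 ≠ a.1 → p.1 ≠ b.1 → p.1 ≠ c.1 → a.1 ≠ b.1 → a.1 ≠ c.1 →
    b.1 ≠ c.1 → FF E p a b c = 1)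

include R cb hn hF

lemma E_N2J {p q : Lt α} (hpq : p.1 ≠ q.1) {u : P} (hu : u ∈ N2 E) :
    E p q * u * (E p q)⁻¹ ∈ N2 E := by
  unfold N2 at hu
  induction hu using Subgroup.closure_induction with
  | mem u hu =>
    rcases hu with ⟨y, a, b, h1, h2, h3, rfl⟩ | ⟨x, a, b, c, h1, h2, h3, h4, h5, h6, rfl⟩
    · exact E_DD_mem R cb hn hF p q y a b hpq h1 h2 h3
    · exact E_TT_mem R cb hn hF p q x a b c hpq h1 h2 h3 h4 h5 h6
  | one => simp
  | mul a b _ _ h1 h2 =>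
    have : E p q * (a * b) * (E p q)⁻¹ = (E p q * a * (E p q)⁻¹) * (E p q * b * (E p q)⁻¹) := by
      group
    rw [this]; exact mul_mem h1 h2
  | inv a _ h1 =>
    have : E p q * a⁻¹ * (E p q)⁻¹ = (E p q * a * (E p q)⁻¹)⁻¹ := by group
    rw [this]; exact inv_mem h1

theorem N2_normal (gen : ∀ q : P, q ∈ Subgroup.closure
    (Set.range W ∪ {q | ∃ x a : Lt α, x.1 ≠ a.1 ∧ q = E x a})) : (N2 E).Normal := by
  constructor
  intro u hu g
  have hg := gen g
  induction hg using Subgroup.closure_induction'' generalizing u with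
  | mem x hx =>
    rcases hx with ⟨σ, rfl⟩ | ⟨x, a, hxa, rfl⟩
    · exact W_N2J R hu
    · exact E_N2J R cb hn hF hxa hu
  | inv_mem x hx =>
    rcases hx with ⟨σ, rfl⟩ | ⟨x, a, hxa, rfl⟩
    · rw [← map_inv]; exact W_N2J R hu
    · rw [← R.e1]; exact E_N2J R cb hn hF (by simpa using hxa) hu
  | one => simpa using hu
  | mul x y _ _ h1 h2 =>
    have : x * y * u * (x * y)⁻¹ = x * (y * u * y⁻¹) * x⁻¹ := by group
    rw [this]
    exact h1 _ (h2 _ hu)

theorem N2_comm (gen : ∀ q : P, q ∈ Subgroup.closure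
    (Set.range W ∪ {q | ∃ x a : Lt α, x.1 ≠ a.1 ∧ q = E x a})) :
    ∀ u ∈ N2 E, ∀ v ∈ N2 E, Commute u v := by
  have hnorm := N2_normal R cb hn hF gen
  have hC : ∀ {g : P}, g ∈ Subgroup.centralizer (N2 E : Set P) ↔ ∀ v ∈ N2 E, Commute g v := by
    intro g
    rw [Subgroup.mem_centralizer_iff]
    exact ⟨fun h v hv => (h v hv).symm, fun h v hv => (h v hv).symm⟩
  have hconj : ∀ g k : P, g ∈ Subgroup.centralizer (N2 E : Set P) →
      k * g * k⁻¹ ∈ Subgroup.centralizer (N2 E : Set P) := by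
    intro g k hg
    rw [hC] at hg ⊢
    intro v hv
    have h1 : k⁻¹ * v * k ∈ N2 E := by
      have := hnorm.conj_mem v hv k⁻¹
      rwa [inv_inv] at this
    have h2 : g * (k⁻¹ * v * k) = (k⁻¹ * v * k) * g := (hg _ h1).eq
    show k * g * k⁻¹ * v = v * (k * g * k⁻¹)
    calc k * g * k⁻¹ * v = k * (g * (k⁻¹ * v * k)) * k⁻¹ := by group
      _ = k * ((k⁻¹ * v * k) * g) * k⁻¹ := by rw [h2]
      _ = _ := by group
  have hK : ∀ p q : Lt α, p.1 ≠ q.1 → KK E p q ∈ Subgroup.centralizer (N2 E : Set P) := by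
    intro p q hpq
    rw [hC]
    intro v hv
    unfold N2 at hv
    induction hv using Subgroup.closure_induction with
    | mem v hv =>
      rcases hv with ⟨y, a, b, h1, h2, h3, rfl⟩ | ⟨x, a, b, c, h1, h2, h3, h4, h5, h6, rfl⟩
      · exact KK_DD R cb hn hF p q y a b hpq h1 h2 h3
      · exact KK_TT R cb hn hF p q x a b c hpq h1 h2 h3 h4 h5 h6
    | one => exact Commute.one_right _
    | mul a b _ _ h1 h2 => exact h1.mul_right h2
    | inv a _ h => exact h.inv_right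
  have hM : ∀ x y z : Lt α, x.1 ≠ y.1 → x.1 ≠ z.1 →
      MM E x y z ∈ Subgroup.centralizer (N2 E : Set P) := by
    intro x y z h1 h2
    have k := E_KK_same R (y := x) (q := y) (z := z) h1 h2
    have e : MM E x y z = (E x y * KK E x z * (E x y)⁻¹) * (KK E x z)⁻¹ := by rw [k]; group
    rw [e]
    exact mul_mem (hconj _ _ (hK x z h2)) (inv_mem (hK x z h2))
  intro u hu
  rw [← hC]
  unfold N2 at hu
  induction hu using Subgroup.closure_induction with
  | mem u hu =>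
    rcases hu with ⟨y, a, b, h1, h2, h3, rfl⟩ | ⟨x, a, b, c, h1, h2, h3, h4, h5, h6, rfl⟩
    · exact cm_memJ _ (hK y a h1) (hK y b h2)
    · have a1 := KK_MMJ R (x := x) (a := a) (b := b) (c := c) h1 h2 h3
      have e : TT E x a b c = cm (KK E x a) (MM E x b c) := by
        have : cm (KK E x a) (MM E x b c) =
            KK E x a * MM E x b c * (KK E x a)⁻¹ * (MM E x b c)⁻¹ := rfl
        rw [this, a1]; group
      rw [e]
      exact cm_memJ _ (hK x a h1) (hM x b c h2 h3)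
  | one => exact one_mem _
  | mul a b _ _ h1 h2 => exact mul_mem h1 h2
  | inv a _ h => exact inv_mem h

theorem N2_cube (gen : ∀ q : P, q ∈ Subgroup.closure
    (Set.range W ∪ {q | ∃ x a : Lt α, x.1 ≠ a.1 ∧ q = E x a})) :
    ∀ u ∈ N2 E, u * u * u = 1 := by
  have hcomm := N2_comm R cb hn hF gen
  have hmul : ∀ a b : P, Commute a b → a * a * a = 1 → b * b * b = 1 →
      a * b * (a * b) * (a * b) = 1 := by
    intro a b h ha hb
    calc a * b * (a * b) * (a * b) = a * (b * a) * (b * a) * b := by group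
      _ = a * (a * b) * (a * b) * b := by rw [h.eq]
      _ = a * a * (b * a) * b * b := by group
      _ = a * a * (a * b) * b * b := by rw [h.eq]
      _ = (a * a * a) * (b * b * b) := by group
      _ = 1 := by rw [ha, hb, one_mul]
  have hinv : ∀ a : P, a * a * a = 1 → a⁻¹ * a⁻¹ * a⁻¹ = 1 := by
    intro a ha
    calc a⁻¹ * a⁻¹ * a⁻¹ = (a * a * a)⁻¹ := by group
      _ = 1 := by rw [ha, inv_one]
  have hsub : ∀ u, u ∈ N2 E → u ∈ N2 E ∧ u * u * u = 1 := by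
    intro u hu
    unfold N2 at hu
    induction hu using Subgroup.closure_induction with
    | mem u hu =>
      rcases hu with ⟨y, a, b, h1, h2, h3, rfl⟩ | ⟨x, a, b, c, h1, h2, h3, h4, h5, h6, rfl⟩
      · exact ⟨DD_memJ h1 h2 h3, DD_cube R cb hn y a b h1 h2 h3⟩
      · exact ⟨TT_memJ h1 h2 h3 h4 h5 h6, TT_cube R cb hn x a b c h1 h2 h3 h4 h5 h6⟩
    | one => exact ⟨one_mem _, by simp⟩
    | mul a b _ _ h1 h2 =>
      exact ⟨mul_mem h1.1 h2.1, hmul a b (hcomm _ h1.1 _ h2.1) h1.2 h2.2⟩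
    | inv a _ h => exact ⟨inv_mem h.1, hinv a h.2⟩
  exact fun u hu => (hsub u hu).2

theorem N2_gen {ρ : α → ℕ} (hρ : Function.Injective ρ) (Q : Subgroup P)
    (hD : ∀ i j k : α, i ≠ j → i ≠ k → ρ j < ρ k → DD E (i, true) (j, true) (k, true) ∈ Q)
    (hT : ∀ i j k l : α, i ≠ j → i ≠ k → i ≠ l → ρ j < ρ k → ρ k < ρ l →
        TT E (i, true) (j, true) (k, true) (l, true) ∈ Q) : N2 E ≤ Q := by
  -- the symmetries
  have sD : ∀ y a b : Lt α, DD E y a b ∈ Q → DD E y b a ∈ Q := by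
    intro y a b h
    rw [DD_swap]; exact inv_mem h
  have iD : ∀ y a b : Lt α, y.1 ≠ a.1 → y.1 ≠ b.1 → a.1 ≠ b.1 → DD E y a b ∈ Q →
      DD E y (nv a) b ∈ Q := by
    intro y a b h1 h2 h3 h
    rw [DD_inv1 R cb hn y a b h1 h2 h3]; exact inv_mem h
  have s12 : ∀ x a b c : Lt α, x.1 ≠ a.1 → x.1 ≠ b.1 → x.1 ≠ c.1 → a.1 ≠ b.1 → a.1 ≠ c.1 →
      b.1 ≠ c.1 → TT E x a b c ∈ Q → TT E x b a c ∈ Q := by
    intro x a b c h1 h2 h3 h4 h5 h6 h
    rw [TT_swap12 R cb hn x a b c h1 h2 h3 h4 h5 h6]; exact inv_mem h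
  have s23 : ∀ x a b c : Lt α, x.1 ≠ a.1 → x.1 ≠ b.1 → x.1 ≠ c.1 → a.1 ≠ b.1 → a.1 ≠ c.1 →
      b.1 ≠ c.1 → TT E x a b c ∈ Q → TT E x a c b ∈ Q := by
    intro x a b c h1 h2 h3 h4 h5 h6 h
    rw [TT_swap23 R cb hn x a b c h1 h2 h3 h4 h5 h6]; exact inv_mem h
  have iT : ∀ x a b c : Lt α, x.1 ≠ a.1 → x.1 ≠ b.1 → x.1 ≠ c.1 → a.1 ≠ b.1 → a.1 ≠ c.1 →
      b.1 ≠ c.1 → TT E x a b c ∈ Q → TT E x (nv a) b c ∈ Q := by
    intro x a b c h1 h2 h3 h4 h5 h6 h
    rw [TT_inv1 R cb hn x a b c h1 h2 h3 h4 h5 h6]; exact inv_mem h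
  -- all positive letters
  have hD' : ∀ i j k : α, i ≠ j → i ≠ k → j ≠ k → DD E (i, true) (j, true) (k, true) ∈ Q := by
    intro i j k a1 a2 a3
    rcases lt_trichotomy (ρ j) (ρ k) with h | h | h
    · exact hD i j k a1 a2 h
    · exact absurd (hρ h) a3
    · exact sD _ _ _ (hD i k j a2 a1 h)
  have hT1 : ∀ i j k l : α, i ≠ j → i ≠ k → i ≠ l → j ≠ k → j ≠ l → k ≠ l → ρ j < ρ k →
      TT E (i, true) (j, true) (k, true) (l, true) ∈ Q := by
    intro i j k l a1 a2 a3 a4 a5 a6 hjk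
    rcases lt_trichotomy (ρ k) (ρ l) with h | h | h
    · exact hT i j k l a1 a2 a3 hjk h
    · exact absurd (hρ h) a6
    · rcases lt_trichotomy (ρ j) (ρ l) with h' | h' | h'
      · exact s23 (i, true) (j, true) (l, true) (k, true) a1 a3 a2 a5 a4 (Ne.symm a6)
          (hT i j l k a1 a3 a2 h' h)
      · exact absurd (hρ h') a5
      · exact s23 (i, true) (j, true) (l, true) (k, true) a1 a3 a2 a5 a4 (Ne.symm a6)
          (s12 (i, true) (l, true) (j, true) (k, true) a3 a1 a2 (Ne.symm a5) (Ne.symm a6) a4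
          (hT i l j k a3 a1 a2 h' hjk))
  have hT' : ∀ i j k l : α, i ≠ j → i ≠ k → i ≠ l → j ≠ k → j ≠ l → k ≠ l →
      TT E (i, true) (j, true) (k, true) (l, true) ∈ Q := by
    intro i j k l a1 a2 a3 a4 a5 a6
    rcases lt_trichotomy (ρ j) (ρ k) with h | h | h
    · exact hT1 i j k l a1 a2 a3 a4 a5 a6 h
    · exact absurd (hρ h) a4
    · exact s12 (i, true) (k, true) (j, true) (l, true) a2 a1 a3 (Ne.symm a4) a6 a5
        (hT1 i k j l a2 a1 a3 (Ne.symm a4) a6 a5 h)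
  unfold N2
  rw [Subgroup.closure_le]
  rintro _ (⟨y, a, b, h1, h2, h3, rfl⟩ | ⟨x, a, b, c, h1, h2, h3, h4, h5, h6, rfl⟩)
  · show DD E y a b ∈ Q
    refine upJ (fun z => DD E z a b ∈ Q) y ?_ (fun h => by rw [DD_nv R]; exact h)
    refine upJ (fun z => DD E (y.1, true) z b ∈ Q) a ?_ (fun h => iD _ _ _ h1 h2 h3 h)
    refine upJ (fun z => DD E (y.1, true) (a.1, true) z ∈ Q) b (hD' _ _ _ h1 h2 h3) (fun h => ?_)
    exact sD _ _ _ (iD _ _ _ h2 h1 (Ne.symm h3) (sD _ _ _ h))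
  · show TT E x a b c ∈ Q
    refine upJ (fun z => TT E z a b c ∈ Q) x ?_ (fun h => by
      rw [TT_nv R cb hn hF (x.1, true) a b c h1 h2 h3 h4 h5 h6]; exact inv_mem h)
    refine upJ (fun z => TT E (x.1, true) z b c ∈ Q) a ?_
      (fun h => iT (x.1, true) (a.1, true) b c h1 h2 h3 h4 h5 h6 h)
    refine upJ (fun z => TT E (x.1, true) (a.1, true) z c ∈ Q) b ?_ (fun h => ?_)
    · refine upJ (fun z => TT E (x.1, true) (a.1, true) (b.1, true) z ∈ Q) c
        (hT' _ _ _ _ h1 h2 h3 h4 h5 h6) (fun h => ?_)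
      -- move the third letter to the front, change the sign, move it back
      have t1 := s23 (x.1, true) (a.1, true) (b.1, true) (c.1, true) h1 h2 h3 h4 h5 h6 h
      have t2 := s12 (x.1, true) (a.1, true) (c.1, true) (b.1, true) h1 h3 h2 h5 h4
        (Ne.symm h6) t1
      have t3 := iT (x.1, true) (c.1, true) (a.1, true) (b.1, true) h3 h1 h2 (Ne.symm h5)
        (Ne.symm h6) h4 t2
      have t4 := s12 (x.1, true) (nv (c.1, true)) (a.1, true) (b.1, true) h3 h1 h2 (Ne.symm h5)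
        (Ne.symm h6) h4 t3
      exact s23 (x.1, true) (a.1, true) (nv (c.1, true)) (b.1, true) h1 h3 h2 h5 h4
        (Ne.symm h6) t4
    · have t1 := s12 (x.1, true) (a.1, true) (b.1, true) c h1 h2 h3 h4 h5 h6 h
      have t2 := iT (x.1, true) (b.1, true) (a.1, true) c h2 h1 h3 (Ne.symm h4) h6 h5 t1
      exact s12 (x.1, true) (nv (b.1, true)) (a.1, true) c h2 h1 h3 (Ne.symm h4) h6 h5 t2

end

end Pool.Agent.TH271.CV
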